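import Pool.Agent.Q78.UR.Seq

set_option autoImplicit false

/-! Approximately log-convex sequences which are not too small at one place: the ratio of
neighbours. -/

namespace Q78.UR

open Finset Filter Topology

theorem log_half {ε : ℝ} (h0 : 0 < ε) (h1 : ε ≤ 1) : ε / 4 ≤ Real.log (1 + ε / 2) := by
  have h2 := Real.one_sub_inv_le_log_of_pos (show 0 < 1 + ε / 2 by linarith)
  refine le_trans ?_ h2
  have h3 : (1 + ε / 2)⁻¹ ≤ 1 - ε / 4 := by
    rw [inv_le_iff_one_le_mul₀ (by linarith)]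
    nlinarith
  linarith

theorem grow_end {J : ℕ} {ε a B : ℝ} (h0 : 0 < ε) (h1 : ε ≤ 1)
    (h : (1 + ε / 2) ^ J * Real.exp (-a) ≤ Real.exp B) : J * (ε / 4) ≤ a + B := by
  have h2 := Real.log_le_log (by positivity) h
  rw [Real.log_exp, Real.log_mul (by positivity) (Real.exp_pos _).ne', Real.log_exp,
    Real.log_pow] at h2
  have h3 := mul_le_mul_of_nonneg_left (log_half h0 h1) (Nat.cast_nonneg J)
  linarith

theorem log_two_mul {n : ℕ} (hn : 2 ≤ n) {m : ℕ} (hm : m ≤ 2 * n) (hm1 : 1 ≤ m) :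
    Real.log m ^ 2 ≤ 4 * Real.log n ^ 2 := by
  have hn0 : (0 : ℝ) < n := by
    have : 0 < n := by omega
    exact_mod_cast this
  have h2 : (2 : ℝ) ≤ n := by exact_mod_cast hn
  have h1 : Real.log m ≤ 2 * Real.log n := by
    have h3 : Real.log m ≤ Real.log (2 * n) := by
      refine Real.log_le_log (by exact_mod_cast hm1) ?_
      exact_mod_cast hm
    rw [Real.log_mul (by norm_num) hn0.ne'] at h3
    have h4 : Real.log 2 ≤ Real.log n := Real.log_le_log (by norm_num) h2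
    linarith
  have h0 : 0 ≤ Real.log (m : ℝ) := Real.log_nonneg (by exact_mod_cast hm1)
  have h5 := pow_le_pow_left₀ h0 h1 2
  calc Real.log m ^ 2 ≤ (2 * Real.log n) ^ 2 := h5
    _ = _ := by ring

theorem one_le_log_sq {n : ℕ} (hn : 3 ≤ n) : 1 ≤ Real.log n ^ 2 := by
  have h : 1 ≤ Real.log n := by
    rw [← Real.log_exp 1]
    refine Real.log_le_log (Real.exp_pos _) ?_
    have h1 := Real.exp_one_lt_d9
    have : (3 : ℝ) ≤ n := by exact_mod_cast hn
    linarith
  nlinarith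

theorem pow_le_exp {θ δ a : ℝ} {n i : ℕ} (h0 : 0 < θ) (hδ : δ ≤ Real.log (1 / θ) / 4)
    (hδ0 : 0 < δ) (ha : a ≤ δ * n) (hi : n ≤ 2 * i) : θ ^ i ≤ Real.exp (-a) := by
  have h1 : θ ^ i = Real.exp (-(i * Real.log (1 / θ))) := by
    rw [one_div, Real.log_inv, mul_neg, neg_neg, mul_comm, Real.exp_mul, Real.exp_log h0,
      Real.rpow_natCast]
  rw [h1]
  refine Real.exp_le_exp.2 (neg_le_neg ?_)
  have h2 : (n : ℝ) ≤ 2 * i := by exact_mod_cast hi
  have h3 : (0 : ℝ) ≤ i := Nat.cast_nonneg _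
  nlinarith

/-- **neighbouring terms**: the ratio is close to one if one of the two terms is not too small -/
theorem ratio (s : ℕ) (hs : 1 ≤ s) (N : ℕ) (D θ K : ℝ) (hD : 0 ≤ D) (hθ0 : 0 < θ) (hθ1 : θ < 1)
    (hK : 0 ≤ K) : ∃ (C δ : ℝ) (N0 : ℕ), 0 < C ∧ 0 < δ ∧ 3 ≤ N0 ∧ C * √δ ≤ 1 / 2 ∧
      ∀ x : ℕ → ℝ, Cx s N D θ K x → ∀ n, N0 ≤ n → ∀ a : ℝ, Real.log n ^ 2 ≤ a → a ≤ δ * n →
      (Real.exp (-a) ≤ x n ∨ Real.exp (-a) ≤ x (n + s)) →
      |x (n + s) - x n| ≤ C * √(a / n) * x n := by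
  obtain ⟨E, hE⟩ : ∃ E : ℝ, E = D + s := ⟨_, rfl⟩
  have hsR : (1 : ℝ) ≤ s := by exact_mod_cast hs
  have hE1 : 1 ≤ E := by linarith
  obtain ⟨Q, hQ⟩ : ∃ Q : ℝ, Q = 256 * E * (2 + 4 * K) := ⟨_, rfl⟩
  have hQ0 : 0 < Q := by rw [hQ]; positivity
  obtain ⟨C, hC⟩ : ∃ C : ℝ, C = √Q := ⟨_, rfl⟩
  have hC0 : 0 < C := by rw [hC]; exact Real.sqrt_pos.2 hQ0
  have hC2 : C ^ 2 = Q := by rw [hC]; exact Real.sq_sqrt hQ0.le
  have hlθ : 0 < Real.log (1 / θ) := Real.log_pos (by rw [lt_div_iff₀ hθ0]; linarith)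
  obtain ⟨δ, hδ⟩ : ∃ δ : ℝ, δ = min (Real.log (1 / θ) / 4) (1 / (4 * C ^ 2)) := ⟨_, rfl⟩
  have hδ0 : 0 < δ := by rw [hδ]; exact lt_min (by linarith) (by positivity)
  have hδ1 : δ ≤ Real.log (1 / θ) / 4 := by rw [hδ]; exact min_le_left _ _
  have hδ2 : C * √δ ≤ 1 / 2 := by
    have h1 : √δ ≤ √(1 / (4 * C ^ 2)) := Real.sqrt_le_sqrt (by rw [hδ]; exact min_le_right _ _)
    have h2 : √(1 / (4 * C ^ 2)) = 1 / (2 * C) := by
      rw [show 1 / (4 * C ^ 2) = (1 / (2 * C)) ^ 2 by rw [div_pow, mul_pow]; norm_num,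
        Real.sqrt_sq (by positivity)]
    rw [h2] at h1
    calc C * √δ ≤ C * (1 / (2 * C)) := mul_le_mul_of_nonneg_left h1 hC0.le
      _ = 1 / 2 := by field_simp
  refine ⟨C, δ, 2 * N + 2 * s + 4, hC0, hδ0, by omega, hδ2, ?_⟩
  intro x hx n hn a ha1 ha2 hor
  have hn3 : 3 ≤ n := by omega
  have hnR : (0 : ℝ) < n := by
    have : 0 < n := by omega
    exact_mod_cast this
  have ha : 1 ≤ a := (one_le_log_sq hn3).trans ha1
  obtain ⟨ε, hε⟩ : ∃ ε : ℝ, ε = C * √(a / n) := ⟨_, rfl⟩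
  have hε0 : 0 < ε := by rw [hε]; exact mul_pos hC0 (Real.sqrt_pos.2 (by positivity))
  have hε1 : ε ≤ 1 / 2 := by
    rw [hε]
    refine le_trans (mul_le_mul_of_nonneg_left (Real.sqrt_le_sqrt ?_) hC0.le) hδ2
    rw [div_le_iff₀ hnR]
    exact ha2
  have hε2 : ε ^ 2 * n = Q * a := by
    rw [hε, mul_pow, Real.sq_sqrt (by positivity), hC2]
    field_simp
  rw [← hε]
  have hxn := hx.nn n
  have hKl : K * (4 * Real.log n ^ 2) ≤ 4 * K * a := by
    have := mul_le_mul_of_nonneg_left ha1 hK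
    linarith
  have hKa : 0 ≤ K * a := by positivity
  rw [abs_le]
  constructor
  · -- lower bound
    by_contra hcon
    have h1 : x (n + s) ≤ (1 - ε) * x n := by linarith
    have h2 : Real.exp (-a) ≤ x n := by
      rcases hor with h | h
      · exact h
      · refine h.trans (h1.trans ?_)
        nlinarith
    obtain ⟨J, hJ⟩ : ∃ J : ℕ, J = ⌊ε * n / (8 * E)⌋₊ := ⟨_, rfl⟩
    have hJ1 : (J : ℝ) ≤ ε * n / (8 * E) := by
      rw [hJ]; exact Nat.floor_le (by positivity)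
    have hJ2 : ε * n / (8 * E) < J + 1 := by rw [hJ]; exact Nat.lt_floor_add_one _
    rw [le_div_iff₀ (by positivity)] at hJ1
    have hJ0 : (0 : ℝ) ≤ J := Nat.cast_nonneg _
    have hJs : (J : ℝ) * s ≤ n / 2 := by
      have h3 : (J : ℝ) * s ≤ J * E := mul_le_mul_of_nonneg_left (by linarith) hJ0
      nlinarith
    have hJs' : J * s ≤ n / 2 := by
      rw [Nat.le_div_iff_mul_le (by norm_num)]
      have : (J : ℝ) * s * 2 ≤ n := by linarith
      exact_mod_cast this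
    have hJD : 2 * (J : ℝ) * D ≤ ε * n / 4 := by
      have h3 : (J : ℝ) * D ≤ J * E := mul_le_mul_of_nonneg_left (by linarith) hJ0
      nlinarith
    have hfin := (backward hx hD (n := n) (m := n - J * s) (J := J) (ε := ε) (by omega) (by omega)
      (by omega) (by omega) hε0 (by linarith) (Real.exp_pos (-a))
      (fun i hi => pow_le_exp hθ0 hδ1 hδ0 ha2 (by omega)) h1 h2 hJD J le_rfl 0 (by omega)).2
    rw [zero_mul, add_zero] at hfin
    have h4 : x (n - J * s) ≤ Real.exp (4 * K * a) := by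
      refine (hx.up _ (by omega)).trans (Real.exp_le_exp.2 ?_)
      refine le_trans (mul_le_mul_of_nonneg_left (log_two_mul (n := n) (by omega) (by omega)
        (by omega)) hK) hKl
    have h5 := grow_end hε0 (by linarith) (hfin.trans h4)
    have h6 : ε * n / (8 * E) * (ε / 4) ≤ (J + 1) * (ε / 4) :=
      mul_le_mul_of_nonneg_right hJ2.le (by linarith)
    have h7 : ε * n / (8 * E) * (ε / 4) = 16 * a + 32 * (K * a) := by
      have : ε * n / (8 * E) * (ε / 4) = ε ^ 2 * n / (32 * E) := by field_simp; ring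
      rw [this, hε2, hQ]
      field_simp
      ring
    have h8 : ((J : ℝ) + 1) * (ε / 4) = J * (ε / 4) + ε / 4 := by ring
    have h9 : 4 * K * a = 4 * (K * a) := by ring
    linarith
  · by_contra hcon
    have h1 : (1 + ε) * x n ≤ x (n + s) := by linarith
    have h2 : Real.exp (-a) ≤ x (n + s) := by
      rcases hor with h | h
      · refine h.trans (le_trans ?_ h1)
        nlinarith
      · exact h
    obtain ⟨J, hJ⟩ : ∃ J : ℕ, J = ⌊ε * n / (4 * E)⌋₊ := ⟨_, rfl⟩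
    have hJ1 : (J : ℝ) ≤ ε * n / (4 * E) := by
      rw [hJ]; exact Nat.floor_le (by positivity)
    have hJ2 : ε * n / (4 * E) < J + 1 := by rw [hJ]; exact Nat.lt_floor_add_one _
    rw [le_div_iff₀ (by positivity)] at hJ1
    have hJ0 : (0 : ℝ) ≤ J := Nat.cast_nonneg _
    have hJs : (J : ℝ) * s ≤ n / 2 := by
      have h3 : (J : ℝ) * s ≤ J * E := mul_le_mul_of_nonneg_left (by linarith) hJ0
      nlinarith
    have hJs' : J * s ≤ n / 2 := by
      rw [Nat.le_div_iff_mul_le (by norm_num)]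
      have : (J : ℝ) * s * 2 ≤ n := by linarith
      exact_mod_cast this
    have hJD : (J : ℝ) * D ≤ ε * n / 4 := by
      have h3 : (J : ℝ) * D ≤ J * E := mul_le_mul_of_nonneg_left (by linarith) hJ0
      nlinarith
    have hfin := (forward hx hD (n := n) (J := J) (ε := ε) (by omega) (by omega) hε0
      (by linarith) (Real.exp_pos (-a))
      (fun i hi => pow_le_exp hθ0 hδ1 hδ0 ha2 (by omega)) h1 h2 hJD J le_rfl).2
    have e : (J + 1) * s = J * s + s := by ring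
    have h4 : x (n + (J + 1) * s) ≤ Real.exp (4 * K * a) := by
      refine (hx.up _ (by omega)).trans (Real.exp_le_exp.2 ?_)
      refine le_trans (mul_le_mul_of_nonneg_left (log_two_mul (n := n) (by omega) (by omega)
        (by omega)) hK) hKl
    have h5 := grow_end hε0 (by linarith) (hfin.trans h4)
    have h6 : ε * n / (4 * E) * (ε / 4) ≤ (J + 1) * (ε / 4) :=
      mul_le_mul_of_nonneg_right hJ2.le (by linarith)
    have h7 : ε * n / (4 * E) * (ε / 4) = 32 * a + 64 * (K * a) := by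
      have : ε * n / (4 * E) * (ε / 4) = ε ^ 2 * n / (16 * E) := by field_simp; ring
      rw [this, hε2, hQ]
      field_simp
      ring
    have h8 : ((J : ℝ) + 1) * (ε / 4) = J * (ε / 4) + ε / 4 := by ring
    have h9 : 4 * K * a = 4 * (K * a) := by ring
    linarith

end Q78.UR
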