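import Pool.Agent.TH966.AK.Win
import Pool.Agent.TH966.AK.Main
import Pool.Agent.H981R2.Plain
import Pool.Agent.TH546.L2.Fin2
import Pool.Agent.H976R2.KLow
import Pool.Agent.H976R2.Paths

set_option autoImplicit false

/-!
# The square lattice: local moves, walks with few U-turns, growth
-/

namespace Q78.UR.Sq

open Finset Filter Topology TH966.AK

/-- the four steps -/
def dirs : Finset (ℤ × ℤ) := {(1, 0), (-1, 0), (0, 1), (0, -1)}

/-- adjacency -/
def A (p q : P) : Prop := q - p ∈ dirs

instance : DecidableRel A := fun p q => inferInstanceAs (Decidable (q - p ∈ dirs))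

theorem A_iff (p q : P) : A p q ↔ (q.1 = p.1 + 1 ∧ q.2 = p.2) ∨ (q.1 = p.1 - 1 ∧ q.2 = p.2) ∨
    (q.1 = p.1 ∧ q.2 = p.2 + 1) ∨ (q.1 = p.1 ∧ q.2 = p.2 - 1) := by
  unfold A dirs
  simp only [Finset.mem_insert, Finset.mem_singleton, Prod.ext_iff, Prod.fst_sub, Prod.snd_sub]
  omega

theorem A_symm {p q : P} (h : A p q) : A q p := by
  rw [A_iff] at h ⊢
  omega

theorem A_ne {p q : P} (h : A p q) : p ≠ q := by
  rintro rfl
  rw [A_iff] at h
  omega

theorem A_step {p q : P} (h : A p q) : |p.1 - q.1| ≤ 1 ∧ |p.2 - q.2| ≤ 1 := by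
  rw [A_iff] at h
  rw [abs_le, abs_le]
  omega

/-- an edge is replaced by the three other sides of a unit square -/
def T (U U' : List P) : Prop := ∃ p v u r, U = [p, r] ∧ U' = [p, v, u, r] ∧ A p r ∧ A p v ∧
  A v u ∧ A u r ∧ p ≠ u ∧ v ≠ r

/-- the rule -/
def rule : Rule A where
  T := T
  ρ := 2
  k := 2
  s := 2
  step := fun _ _ h => A_step h
  pair := by
    rintro U U' ⟨p, v, u, r, rfl, rfl, h1, h2, h3, h4, n4, n5⟩
    have n1 := A_ne h1
    have n2 := A_ne h2
    have n3 := A_ne h3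
    have n6 := A_ne h4
    refine ⟨⟨p, r, [], [v, u], rfl, rfl, by simp, ?_⟩, ?_, ?_, ?_, ?_⟩
    · intro x hx
      simp only [List.mem_cons, List.not_mem_nil, or_false] at hx
      simp only [List.mem_cons, List.not_mem_nil, or_false, not_or]
      rcases hx with rfl | rfl
      · exact ⟨n2.symm, n5⟩
      · exact ⟨n4.symm, n6⟩
    · simp [n1]
    · simp [n1, n2, n3, n4, n5, n6]
    · simp [h1]
    · simp [h2, h3, h4]
  len := by
    rintro U U' ⟨p, v, u, r, rfl, rfl, -⟩
    simp
  loc := by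
    rintro U U' ⟨p, v, u, r, rfl, rfl, h1, h2, h3, h4, -, -⟩ x hx y hy
    simp only [List.cons_append, List.nil_append, List.mem_cons, List.not_mem_nil,
      or_false] at hx hy
    have a1 := A_step h1
    have a2 := A_step h2
    have a3 := A_step h3
    have a4 := A_step h4
    rw [abs_le, abs_le] at a1 a2 a3 a4
    have h : (x = p ∨ x = v ∨ x = u ∨ x = r) ∧ (y = p ∨ y = v ∨ y = u ∨ y = r) := by tauto
    rw [abs_le, abs_le]
    push_cast
    rcases h with ⟨rfl | rfl | rfl | rfl, rfl | rfl | rfl | rfl⟩ <;> omega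

/-! ### counting continuations -/

/-- weights of the continuations, as natural numbers -/
def wN (e1 e2 e3 : P) : ℕ :=
  (if e1 + e2 + e3 ∈ dirs then 1 else 100) * (if e3 = e2 then 141 else 100)

theorem step_nat : ∀ e1 ∈ dirs, ∀ e2 ∈ dirs, e2 ≠ -e1 →
    ∑ e3 ∈ dirs.erase (-e2), wN e1 e2 e3 ≤ 242 * (if e2 = e1 then 141 else 100) := by
  decide

/-- the neighbours -/
def nb (b : P) : Finset P := dirs.image (fun d => b + d)

theorem mem_nb {b c : P} : c ∈ nb b ↔ A b c := by
  unfold nb A
  rw [Finset.mem_image]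
  constructor
  · rintro ⟨d, hd, rfl⟩
    rwa [add_sub_cancel_left]
  · intro h
    exact ⟨c - b, h, add_sub_cancel b c⟩

theorem card_nb (b : P) : (nb b).card ≤ 4 := card_image_le

/-- the potential -/
noncomputable def pot (a b c : P) : ℝ := if c - b = b - a then 141 / 100 else 1

theorem pot_ge (a b c : P) : 1 ≤ pot a b c := by
  unfold pot
  split_ifs <;> norm_num

theorem pot_le (a b c : P) : pot a b c ≤ 2 := by
  unfold pot
  split_ifs <;> norm_num

theorem step_sum {a b c : P} (hab : A a b) (hbc : A b c) (hac : a ≠ c) :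
    ∑ d ∈ (nb c).erase b, (if A a d then (1 / 100 : ℝ) else 1) * pot b c d ≤
      242 / 100 * pot a b c := by
  have e1 : (nb c).erase b = (dirs.erase (-(c - b))).image (fun d => c + d) := by
    ext d
    rw [Finset.mem_erase, mem_nb, Finset.mem_image]
    unfold A
    constructor
    · rintro ⟨h1, h2⟩
      refine ⟨d - c, Finset.mem_erase.2 ⟨fun h => h1 ?_, h2⟩, add_sub_cancel c d⟩
      have h3 : d = c + -(c - b) := by rw [← h, add_sub_cancel]
      rw [h3]
      abel
    · rintro ⟨e, he, rfl⟩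
      rw [Finset.mem_erase] at he
      refine ⟨fun h => he.1 ?_, ?_⟩
      · rw [← h]; abel
      · rw [add_sub_cancel_left]; exact he.2
  rw [e1, Finset.sum_image (fun _ _ _ _ h => add_left_cancel h)]
  have h1 := step_nat (b - a) hab (c - b) hbc (fun h => hac (by
    have : c = b + -(b - a) := by rw [← h, add_sub_cancel]
    rw [this]
    abel))
  have h2 : ∀ e : P, (if A a (c + e) then (1 / 100 : ℝ) else 1) * pot b c (c + e) =
      (wN (b - a) (c - b) e : ℝ) / 10000 := by
    intro e
    have e3 : c + e - a = b - a + (c - b) + e := by abel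
    have e4 : c + e - c = e := by abel
    have hA : A a (c + e) ↔ b - a + (c - b) + e ∈ dirs := by
      unfold A
      rw [e3]
    unfold pot wN
    rw [e4]
    by_cases x1 : A a (c + e)
    · rw [if_pos x1, if_pos (hA.1 x1)]
      split_ifs <;> norm_num
    · rw [if_neg x1, if_neg (fun h => x1 (hA.2 h))]
      split_ifs <;> norm_num
  rw [Finset.sum_congr rfl fun e _ => h2 e, ← Finset.sum_div]
  have h3 : ((∑ e ∈ dirs.erase (-(c - b)), wN (b - a) (c - b) e : ℕ) : ℝ) ≤
      ((242 * (if c - b = b - a then 141 else 100) : ℕ) : ℝ) := by exact_mod_cast h1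
  push_cast at h3
  unfold pot
  split_ifs at h3 ⊢ <;> linarith

/-- continuations without immediate reversals -/
def E : ℕ → P → P → P → Finset (List P)
  | 0, _, _, _ => {[]}
  | m + 1, _, b, c => ((nb c).erase b).biUnion (fun d => (E m b c d).image (List.cons d))

theorem sum_cons (S : Finset P) (F : P → Finset (List P)) (f : List P → ℝ) :
    ∑ l ∈ S.biUnion (fun c => (F c).image (List.cons c)), f l =
      ∑ c ∈ S, ∑ l ∈ F c, f (c :: l) := by
  rw [Finset.sum_biUnion]
  · refine Finset.sum_congr rfl fun c _ => ?_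
    rw [Finset.sum_image (fun _ _ _ _ h => (List.cons.inj h).2)]
  · intro c _ c' _ hcc
    simp only [Function.onFun]
    rw [Finset.disjoint_left]
    intro l hl hl'
    rw [Finset.mem_image] at hl hl'
    obtain ⟨l1, -, rfl⟩ := hl
    obtain ⟨l2, -, h2⟩ := hl'
    exact hcc (List.cons.inj h2).1.symm

theorem mem_E : ∀ (m : ℕ) (a b c : P) (l : List P), (b :: c :: l).Nodup →
    (b :: c :: l).IsChain A → l.length = m → l ∈ E m a b c := by
  intro m
  induction m with
  | zero =>
    intro a b c l _ _ hl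
    rw [List.length_eq_zero_iff] at hl
    simp [E, hl]
  | succ m ih =>
    intro a b c l hn hc hl
    obtain ⟨d, l', rfl⟩ := List.exists_cons_of_length_eq_add_one hl
    simp only [E, Finset.mem_biUnion, Finset.mem_erase, Finset.mem_image]
    have h1 := (List.nodup_cons.1 hn).1
    have h2 := (List.isChain_cons_cons.1 hc).2
    refine ⟨d, ⟨?_, mem_nb.2 (List.isChain_cons_cons.1 h2).1⟩, l',
      ih b c d l' (List.nodup_cons.1 hn).2 h2 (by simpa using hl), rfl⟩
    rintro rfl
    exact h1 (by simp)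

/-- number of U-turns -/
def sh : List P → ℕ
  | a :: b :: c :: d :: l => (if A a d then 1 else 0) + sh (b :: c :: d :: l)
  | _ => 0

theorem sum_E : ∀ (m : ℕ) (a b c : P), A a b → A b c → a ≠ c →
    ∑ l ∈ E m a b c, (1 / 100 : ℝ) ^ sh (a :: b :: c :: l) ≤ (242 / 100 : ℝ) ^ m * pot a b c := by
  intro m
  induction m with
  | zero =>
    intro a b c _ _ _
    simp only [E, Finset.sum_singleton, sh, pow_zero, one_mul]
    exact pot_ge a b c
  | succ m ih =>
    intro a b c hab hbc hac
    simp only [E]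
    rw [sum_cons]
    have h1 : ∀ d ∈ (nb c).erase b,
        ∑ l ∈ E m b c d, (1 / 100 : ℝ) ^ sh (a :: b :: c :: d :: l) ≤
        (242 / 100 : ℝ) ^ m * ((if A a d then (1 / 100 : ℝ) else 1) * pot b c d) := by
      intro d hd
      rw [Finset.mem_erase, mem_nb] at hd
      have h2 := ih b c d hbc hd.2 (fun h => hd.1 h.symm)
      have h3 : ∀ l : List P, (1 / 100 : ℝ) ^ sh (a :: b :: c :: d :: l) =
          (if A a d then (1 / 100 : ℝ) else 1) * (1 / 100 : ℝ) ^ sh (b :: c :: d :: l) := by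
        intro l
        simp only [sh]
        rw [pow_add]
        congr 1
        split_ifs <;> simp
      rw [Finset.sum_congr rfl fun l _ => h3 l, ← Finset.mul_sum]
      have h4 : 0 ≤ (if A a d then (1 / 100 : ℝ) else 1) := by split_ifs <;> norm_num
      calc _ ≤ (if A a d then (1 / 100 : ℝ) else 1) * ((242 / 100 : ℝ) ^ m * pot b c d) :=
            mul_le_mul_of_nonneg_left h2 h4
        _ = _ := by ring
    refine (Finset.sum_le_sum h1).trans ?_
    rw [← Finset.mul_sum, pow_succ, mul_assoc]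
    exact mul_le_mul_of_nonneg_left (step_sum hab hbc hac) (by positivity)

theorem sh_le : ∀ w : List P, w.Nodup → w.IsChain A → sh w ≤ (rule.B w).card := by
  intro w
  induction w with
  | nil => intro _ _; simp [sh]
  | cons a w ih =>
    intro hn hc
    match w, ih, hn, hc with
    | [], _, _, _ => simp [sh]
    | [b], _, _, _ => simp [sh]
    | [b, c], _, _, _ => simp [sh]
    | b :: c :: d :: l, ih, hn, hc =>
      have h1 := ih (List.nodup_cons.1 hn).2 (List.isChain_cons_cons.1 hc).2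
      have hab := (List.isChain_cons_cons.1 hc).1
      have hc2 := (List.isChain_cons_cons.1 hc).2
      have hbc := (List.isChain_cons_cons.1 hc2).1
      have hcd := (List.isChain_cons_cons.1 (List.isChain_cons_cons.1 hc2).2).1
      have hnac : a ≠ c := by
        rintro rfl
        exact (List.nodup_cons.1 hn).1 (by simp)
      have hnbd : b ≠ d := by
        rintro rfl
        exact (List.nodup_cons.1 (List.nodup_cons.1 hn).2).1 (by simp)
      have hsub : rule.B (b :: c :: d :: l) ⊆ rule.B (a :: b :: c :: d :: l) := by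
        intro q hq
        rw [rule.mem_B] at hq ⊢
        obtain ⟨h2, h3, h4⟩ := hq
        refine ⟨h2, h3.trans ⟨[a], [], by simp⟩, ?_⟩
        obtain ⟨p, v, u, r, e1, e2, -⟩ := h2
        intro x hx hx'
        rw [e1] at hx
        rw [e2] at hx'
        simp only [List.mem_cons, List.not_mem_nil, or_false, not_or] at hx hx'
        tauto
      simp only [sh]
      by_cases had : A a d
      · rw [if_pos had]
        have hq : (([a, d], [a, b, c, d]) : List P × List P) ∈
            rule.B (a :: b :: c :: d :: l) := by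
          rw [rule.mem_B]
          refine ⟨⟨a, b, c, d, rfl, rfl, had, hab, hbc, hcd, hnac, hnbd⟩,
            ⟨[], l, by simp⟩, ?_⟩
          intro x hx hx'
          simp only [List.mem_cons, List.not_mem_nil, or_false, not_or] at hx hx'
          tauto
        have hq' : (([a, d], [a, b, c, d]) : List P × List P) ∉ rule.B (b :: c :: d :: l) := by
          rw [rule.mem_B]
          rintro ⟨-, h3, -⟩
          exact (List.nodup_cons.1 hn).1 (h3.subset (by simp))
        have h5 : insert (([a, d], [a, b, c, d]) : List P × List P)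
            (rule.B (b :: c :: d :: l)) ⊆ rule.B (a :: b :: c :: d :: l) := by
          classical
          intro q hq2
          rw [Finset.mem_insert] at hq2
          rcases hq2 with rfl | hq2
          · exact hq
          · exact hsub hq2
        have h6 := Finset.card_le_card h5
        rw [Finset.card_insert_of_notMem hq'] at h6
        omega
      · rw [if_neg had, zero_add]
        exact h1.trans (Finset.card_le_card hsub)

theorem pow_small (n : ℕ) : (100 : ℝ) ^ (n / 100000) ≤ (1001 / 1000 : ℝ) ^ n := by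
  have h1 : (100 : ℝ) ≤ (1001 / 1000 : ℝ) ^ 100000 := by
    have := one_add_mul_le_pow (a := (1 / 1000 : ℝ)) (by norm_num) 100000
    have e : (1 : ℝ) + 1 / 1000 = 1001 / 1000 := by norm_num
    rw [e] at this
    refine le_trans ?_ this
    norm_num
  calc (100 : ℝ) ^ (n / 100000) ≤ ((1001 / 1000 : ℝ) ^ 100000) ^ (n / 100000) :=
        pow_le_pow_left₀ (by norm_num) h1 _
    _ = (1001 / 1000 : ℝ) ^ (100000 * (n / 100000)) := by rw [← pow_mul]
    _ ≤ (1001 / 1000 : ℝ) ^ n := pow_le_pow_right₀ (by norm_num) (Nat.mul_div_le n 100000)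

/-- walks with few U-turns are rare -/
theorem poor : ∃ C0 : ℝ, ∀ n : ℕ,
    (((Kw A n).filter (fun w => 100000 * (rule.B w).card ≤ n)).card : ℝ) ≤
    C0 * (2423 / 1000 : ℝ) ^ n := by
  classical
  refine ⟨24 + (Kw A 0).card + (Kw A 1).card, fun n => ?_⟩
  have hp : (1 : ℝ) ≤ (2423 / 1000 : ℝ) ^ n := one_le_pow₀ (by norm_num)
  have hc0 : (0 : ℝ) ≤ (Kw A 0).card := Nat.cast_nonneg _
  have hc1 : (0 : ℝ) ≤ (Kw A 1).card := Nat.cast_nonneg _
  have htriv : (((Kw A n).filter (fun w => 100000 * (rule.B w).card ≤ n)).card : ℝ) ≤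
      (Kw A n).card := by exact_mod_cast Finset.card_filter_le _ _
  rcases Nat.lt_or_ge n 2 with hn | hn
  · have h1 : ((Kw A n).card : ℝ) ≤ (Kw A 0).card + (Kw A 1).card := by
      rcases (by omega : n = 0 ∨ n = 1) with rfl | rfl
      · linarith
      · linarith
    nlinarith
  · obtain ⟨m, rfl⟩ : ∃ m, n = m + 2 := ⟨n - 2, by omega⟩
    obtain ⟨Q, hQ⟩ : ∃ Q, Q = (Kw A (m + 2)).filter
      (fun w => 100000 * (rule.B w).card ≤ m + 2) := ⟨_, rfl⟩
    obtain ⟨G, hG⟩ : ∃ G : Finset (List P), G = (nb 0).biUnion (fun b =>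
      ((((nb b).erase 0).biUnion (fun c => (E m 0 b c).image (List.cons c)))).image
        (List.cons b)) := ⟨_, rfl⟩
    have hsub : Q ⊆ G.image (List.cons 0) := by
      intro w hw
      rw [hQ, Finset.mem_filter, rule.mem_K] at hw
      obtain ⟨⟨h1, h2, h3, h4⟩, -⟩ := hw
      obtain ⟨a, w1, rfl⟩ := List.exists_cons_of_length_eq_add_one h1
      obtain ⟨b, w2, rfl⟩ := List.exists_cons_of_length_eq_add_one
        (show w1.length = m + 1 + 1 by simpa using h1)
      obtain ⟨c, w3, rfl⟩ := List.exists_cons_of_length_eq_add_one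
        (show w2.length = m + 1 by simpa using h1)
      simp only [List.head?_cons, Option.some.injEq] at h2
      subst h2
      have h5 := (List.isChain_cons_cons.1 h4)
      have h6 := (List.isChain_cons_cons.1 h5.2)
      rw [Finset.mem_image]
      refine ⟨b :: c :: w3, ?_, rfl⟩
      rw [hG, Finset.mem_biUnion]
      refine ⟨b, mem_nb.2 h5.1, ?_⟩
      rw [Finset.mem_image]
      refine ⟨c :: w3, ?_, rfl⟩
      rw [Finset.mem_biUnion]
      refine ⟨c, Finset.mem_erase.2 ⟨?_, mem_nb.2 h6.1⟩, ?_⟩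
      · rintro rfl
        exact (List.nodup_cons.1 h3).1 (by simp)
      · rw [Finset.mem_image]
        exact ⟨w3, mem_E m 0 b c w3 (List.nodup_cons.1 h3).2 h5.2 (by simpa using h1), rfl⟩
    have h1 : (Q.card : ℝ) * (1 / 100 : ℝ) ^ ((m + 2) / 100000) ≤
        ∑ w ∈ Q, (1 / 100 : ℝ) ^ sh w := by
      rw [← nsmul_eq_mul, ← Finset.sum_const]
      refine Finset.sum_le_sum fun w hw => ?_
      refine pow_le_pow_of_le_one (by norm_num) (by norm_num) ?_
      rw [hQ, Finset.mem_filter, rule.mem_K] at hw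
      obtain ⟨⟨h1, h2, h3, h4⟩, h5⟩ := hw
      have h6 := sh_le w h3 h4
      rw [Nat.le_div_iff_mul_le (by norm_num)]
      omega
    have h2 : ∑ w ∈ Q, (1 / 100 : ℝ) ^ sh w ≤ ∑ w ∈ G.image (List.cons 0), (1 / 100 : ℝ) ^ sh w :=
      Finset.sum_le_sum_of_subset_of_nonneg hsub fun _ _ _ => by positivity
    have h3 : ∑ w ∈ G.image (List.cons 0), (1 / 100 : ℝ) ^ sh w ≤ 32 * (242 / 100 : ℝ) ^ m := by
      rw [Finset.sum_image (fun _ _ _ _ h => (List.cons.inj h).2), hG, sum_cons]
      have h4 : ∀ b ∈ nb 0, ∑ l ∈ ((nb b).erase 0).biUnion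
          (fun c => (E m 0 b c).image (List.cons c)), (1 / 100 : ℝ) ^ sh (0 :: b :: l) ≤
          8 * (242 / 100 : ℝ) ^ m := by
        intro b hb
        rw [sum_cons _ _ (fun l => (1 / 100 : ℝ) ^ sh (0 :: b :: l))]
        have h5 : ∀ c ∈ (nb b).erase 0, ∑ l ∈ E m 0 b c, (1 / 100 : ℝ) ^ sh (0 :: b :: c :: l) ≤
            2 * (242 / 100 : ℝ) ^ m := by
          intro c hc
          rw [Finset.mem_erase, mem_nb] at hc
          refine (sum_E m 0 b c (mem_nb.1 hb) hc.2 (fun h => hc.1 h.symm)).trans ?_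
          rw [mul_comm]
          exact mul_le_mul_of_nonneg_right (pot_le _ _ _) (by positivity)
        refine (Finset.sum_le_sum h5).trans ?_
        rw [Finset.sum_const, nsmul_eq_mul]
        have h6 : (((nb b).erase 0).card : ℝ) ≤ 4 := by
          exact_mod_cast (Finset.card_le_card (Finset.erase_subset _ _)).trans (card_nb b)
        have h7 : (0 : ℝ) ≤ 2 * (242 / 100 : ℝ) ^ m := by positivity
        nlinarith
      refine (Finset.sum_le_sum h4).trans ?_
      rw [Finset.sum_const, nsmul_eq_mul]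
      have h6 : ((nb 0).card : ℝ) ≤ 4 := by exact_mod_cast card_nb 0
      have h7 : (0 : ℝ) ≤ 8 * (242 / 100 : ℝ) ^ m := by positivity
      nlinarith
    have h4 : (Q.card : ℝ) * (1 / 100 : ℝ) ^ ((m + 2) / 100000) ≤ 32 * (242 / 100 : ℝ) ^ m :=
      (h1.trans h2).trans h3
    have h5 := pow_small (m + 2)
    have h6 : (1 / 100 : ℝ) ^ ((m + 2) / 100000) * (100 : ℝ) ^ ((m + 2) / 100000) = 1 := by
      rw [← mul_pow]; norm_num
    rw [← hQ]
    calc (Q.card : ℝ) = (Q.card : ℝ) * (1 / 100 : ℝ) ^ ((m + 2) / 100000) *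
          (100 : ℝ) ^ ((m + 2) / 100000) := by rw [mul_assoc, h6, mul_one]
      _ ≤ 32 * (242 / 100 : ℝ) ^ m * (1001 / 1000 : ℝ) ^ (m + 2) := by
          refine mul_le_mul h4 h5 (by positivity) (by positivity)
      _ ≤ 24 * (242 / 100 : ℝ) ^ (m + 2) * (1001 / 1000 : ℝ) ^ (m + 2) := by
          refine mul_le_mul_of_nonneg_right ?_ (by positivity)
          rw [pow_add]
          have : (0 : ℝ) < (242 / 100 : ℝ) ^ m := by positivity
          nlinarith
      _ = 24 * (242 / 100 * (1001 / 1000) : ℝ) ^ (m + 2) := by rw [mul_assoc, ← mul_pow]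
      _ ≤ 24 * (2423 / 1000 : ℝ) ^ (m + 2) := by
          refine mul_le_mul_of_nonneg_left ?_ (by norm_num)
          exact pow_le_pow_left₀ (by norm_num) (by norm_num) _
      _ ≤ _ := by
          refine mul_le_mul_of_nonneg_right ?_ (by positivity)
          linarith

/-! ### growth -/

theorem A_abs (p q : P) : A p q ↔ |q.1 - p.1| + |q.2 - p.2| = 1 := by
  rw [A_iff]
  constructor
  · rintro (⟨h1, h2⟩ | ⟨h1, h2⟩ | ⟨h1, h2⟩ | ⟨h1, h2⟩) <;> rw [h1, h2] <;> simp
  · intro h
    rcases abs_cases (q.1 - p.1) with ⟨h1, h1'⟩ | ⟨h1, h1'⟩ <;>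
    rcases abs_cases (q.2 - p.2) with ⟨h2, h2'⟩ | ⟨h2, h2'⟩ <;>
    omega

theorem set_eq (n : ℕ) : {f : Fin (n + 1) → ℤ × ℤ | f 0 = 0 ∧ Function.Injective f ∧
    ∀ i : Fin n, A (f i.castSucc) (f i.succ)} = {ω | H981.IsSAW n ω} := by
  ext f
  simp only [Set.mem_ofPred_eq, H981.IsSAW, A_abs]
  constructor
  · rintro ⟨h1, h2, h3⟩
    exact ⟨h1, h3, h2⟩
  · rintro ⟨h1, h2, h3⟩
    exact ⟨h1, h3, h2⟩

theorem card_Kw (n : ℕ) : ((Kw A n).card : ℝ) = H981.cr' n := by
  rw [count_eq rule, set_eq, H981.cr'_eq]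
  unfold H981.C
  rw [← Nat.card_coe_set_eq]
  rfl

theorem card_SW (n : ℕ) : (Kw A n).card = (Pool.Agent.H976R2.SW n).card := by
  rw [count_eq rule, set_eq, ← Pool.Agent.H976R2.ncard_saw]
  rfl

theorem mu_ge : (243 / 100 : ℝ) ≤ H981.mu := by
  by_contra hcon
  push Not at hcon
  obtain ⟨r, hr1, hr2⟩ := exists_between hcon
  have hr0 : 0 < r := lt_trans H981.mu_pos hr1
  obtain ⟨c, hc, hlow⟩ := Pool.Agent.H976R2.Low.SW_card_lower
  have h1 : Tendsto (fun n : ℕ => ((243 / 100 : ℝ) / r) ^ n) atTop atTop :=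
    tendsto_pow_atTop_atTop_of_one_lt (by rwa [one_lt_div hr0])
  obtain ⟨n, hn1, hn2⟩ := ((H981.eventually_le hr1).and
    (h1.eventually_gt_atTop (1 / c))).exists
  have h2 := hlow n
  rw [← card_SW, card_Kw] at h2
  have e : (2.43 : ℝ) = 243 / 100 := by norm_num
  rw [e] at h2
  rw [div_pow, div_lt_div_iff₀ hc (by positivity)] at hn2
  linarith

/-- **growth** -/
theorem growth : ∃ K : ℝ, Growth rule H981.mu K := by
  obtain ⟨K, hK, h2⟩ := Pool.Agent.TH546.L2.sq_upper2
  have h3 := mu_ge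
  refine ⟨K, ⟨one_le_two, by linarith, hK, fun n => ?_, fun n hn => ?_, ?_⟩⟩
  · rw [card_Kw]
    exact H981.mu_pow_le n
  · rw [card_Kw]
    exact h2 n hn
  · obtain ⟨C0, hC0⟩ := poor
    refine ⟨100000, 2423 / 1000, C0, by norm_num, by norm_num, by linarith, fun n => ?_⟩
    have h := hC0 n
    convert h using 3

end Q78.UR.Sq
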