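import Pool.Agent.Q78.UR.Mix
import Pool.Agent.Q78.UR.Sq
import Pool.Agent.TH966.AK.HexEnd

set_option autoImplicit false

/-! Walks in a random domain: the final form of the theorem for a lattice with a rule. -/

namespace Q78.UR

open Finset Filter Topology MeasureTheory TH966.AK Q294.Rs

variable {A : P → P → Prop} {Z : Rule A} {μ K : ℝ}

/-- restricted walks as functions -/
theorem card_KR_fun (Z : Rule A) (R : P → P → Prop) (n : ℕ) :
    (KR A R n).card = Nat.card {f : Fin (n + 1) → ℤ × ℤ // (f 0 = 0 ∧ Function.Injective f ∧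
      ∀ i : Fin n, A (f i.castSucc) (f i.succ)) ∧ ∀ i, R (f (Fin.last n)) (f i)} := by
  classical
  have e : Nat.card {f : Fin (n + 1) → ℤ × ℤ // (f 0 = 0 ∧ Function.Injective f ∧
      ∀ i : Fin n, A (f i.castSucc) (f i.succ)) ∧ ∀ i, R (f (Fin.last n)) (f i)} =
      Set.ncard {f : Fin (n + 1) → ℤ × ℤ | f ∈ wks A n ∧ ∀ i, R (f (Fin.last n)) (f i)} := by
    rw [← Nat.card_coe_set_eq]
    rfl
  rw [e, ← Set.ncard_coe_finset, ← Set.ncard_image_of_injective
    {f : Fin (n + 1) → ℤ × ℤ | f ∈ wks A n ∧ ∀ i, R (f (Fin.last n)) (f i)} List.ofFn_injective]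
  congr 1
  ext w
  rw [Finset.mem_coe, mem_KR, ← Finset.mem_coe, ← image_wks Z n, Set.mem_image, Set.mem_image]
  constructor
  · rintro ⟨⟨f, hf, rfl⟩, h2⟩
    refine ⟨f, ⟨hf, fun i => ?_⟩, rfl⟩
    have := h2 (f i) (by rw [List.mem_ofFn]; exact ⟨i, rfl⟩)
    rw [lst_ofFn] at this
    exact this
  · rintro ⟨f, ⟨hf, hR⟩, rfl⟩
    refine ⟨⟨f, hf, rfl⟩, fun x hx => ?_⟩
    rw [List.mem_ofFn] at hx
    obtain ⟨i, rfl⟩ := hx
    rw [lst_ofFn]
    exact hR i

theorem card_Kw_fun (Z : Rule A) (n : ℕ) :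
    (Kw A n).card = Nat.card {f : Fin (n + 1) → ℤ × ℤ // f 0 = 0 ∧ Function.Injective f ∧
      ∀ i : Fin n, A (f i.castSucc) (f i.succ)} := by
  rw [count_eq Z, ← Nat.card_coe_set_eq]
  rfl

theorem log_sq_div : Tendsto (fun n : ℕ => Real.log n ^ 2 / (n : ℝ)) atTop (𝓝 0) := by
  have h := (Real.isLittleO_pow_log_id_atTop (n := 2)).tendsto_div_nhds_zero
  exact h.comp tendsto_natCast_atTop_atTop

/-- the root limit -/
theorem root_tendsto (G : Growth Z μ K) :
    Tendsto (fun n : ℕ => ((Kw A n).card : ℝ) ^ ((1 : ℝ) / n)) atTop (𝓝 μ) := by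
  have hμ : 0 < μ := by linarith [G.hμ]
  have h1 : Tendsto (fun n : ℕ => μ * Real.exp (K * (Real.log n ^ 2 / (n : ℝ)))) atTop (𝓝 μ) := by
    have h2 := (log_sq_div.const_mul K)
    rw [mul_zero] at h2
    have h3 := ((Real.continuous_exp.tendsto 0).comp h2).const_mul μ
    rw [Real.exp_zero, mul_one] at h3
    exact h3
  refine tendsto_of_tendsto_of_tendsto_of_le_of_le' tendsto_const_nhds h1 ?_ ?_
  · filter_upwards [eventually_ge_atTop 1] with n hn
    have hn0 : (n : ℝ) ≠ 0 := by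
      have : n ≠ 0 := by omega
      exact_mod_cast this
    have h := Real.rpow_le_rpow (by positivity) (G.low n) (by positivity : (0 : ℝ) ≤ 1 / (n : ℝ))
    rwa [← Real.rpow_natCast, ← Real.rpow_mul hμ.le, mul_one_div_cancel hn0, Real.rpow_one] at h
  · filter_upwards [eventually_ge_atTop 2] with n hn
    have hn0 : (n : ℝ) ≠ 0 := by
      have : n ≠ 0 := by omega
      exact_mod_cast this
    have h := Real.rpow_le_rpow (Nat.cast_nonneg _) (G.up n hn)
      (by positivity : (0 : ℝ) ≤ 1 / (n : ℝ))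
    rw [Real.mul_rpow (by positivity) (Real.exp_pos _).le, ← Real.rpow_natCast,
      ← Real.rpow_mul hμ.le, mul_one_div_cancel hn0, Real.rpow_one, ← Real.exp_mul] at h
    have e : K * (Real.log n ^ 2 / (n : ℝ)) = K * Real.log n ^ 2 * (1 / (n : ℝ)) := by ring
    rw [e]
    exact h

/-- telescoping -/
theorem telescope {p : ℕ → ℝ} {s : ℕ} {C : ℝ} (hC : 0 ≤ C)
    (h : ∀ n, 2 ≤ n → |p (n + s) - p n| ≤ C * (Real.log n / √n)) (hs : 1 ≤ s) {n m : ℕ} (hn : 2 ≤ n)
    (hm : n ≤ m) (hd : s ∣ m - n) : |p m - p n| ≤ 4 * C * ((m - n : ℝ) * Real.log n / √n) := by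
  obtain ⟨k, hk⟩ := hd
  have hnR : (2 : ℝ) ≤ n := by exact_mod_cast hn
  have hn0 : (0 : ℝ) < n := by linarith
  have hsq : 0 < √(n : ℝ) := Real.sqrt_pos.2 hn0
  have hlog2 : (0.6931471803 : ℝ) < Real.log 2 := Real.log_two_gt_d9
  have hlogn : Real.log 2 ≤ Real.log n := Real.log_le_log (by norm_num) hnR
  have key : ∀ j : ℕ, |p (n + (j + 1) * s) - p (n + j * s)| ≤ 4 * C * (Real.log n / √n) := by
    intro j
    obtain ⟨q, hq⟩ : ∃ q, q = n + j * s := ⟨_, rfl⟩
    have e : n + (j + 1) * s = q + s := by rw [hq]; ring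
    rw [e, ← hq]
    have hqn : n ≤ q := by rw [hq]; omega
    have hqR : (n : ℝ) ≤ q := by exact_mod_cast hqn
    have hq0 : (0 : ℝ) < q := by linarith
    have hsq' : 0 < √(q : ℝ) := Real.sqrt_pos.2 hq0
    refine (h q (by omega)).trans ?_
    have h1 : Real.log q ≤ Real.log n + 2 * √(q / n : ℝ) := by
      have h2 : Real.log ((q : ℝ) / n) = Real.log q - Real.log n :=
        Real.log_div (by positivity) (by positivity)
      have h3 : Real.log (√((q : ℝ) / n)) ≤ √((q : ℝ) / n) - 1 :=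
        Real.log_le_sub_one_of_pos (Real.sqrt_pos.2 (by positivity))
      rw [Real.log_sqrt (by positivity)] at h3
      linarith
    have h4 : √((q : ℝ) / n) = √q / √n := Real.sqrt_div hq0.le _
    rw [h4] at h1
    have h5 : Real.log q / √q ≤ 4 * (Real.log n / √n) := by
      rw [div_le_iff₀ hsq']
      have h6 : 4 * (Real.log n / √n) * √q = 4 * Real.log n * (√q / √n) := by ring
      rw [h6]
      have h7 : 1 ≤ √(q : ℝ) / √n := by
        rw [le_div_iff₀ hsq, one_mul]
        exact Real.sqrt_le_sqrt hqR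
      obtain ⟨t, ht⟩ : ∃ t, t = √(q : ℝ) / √n := ⟨_, rfl⟩
      rw [← ht] at h1 h7 ⊢
      obtain ⟨l, hl⟩ : ∃ l, l = Real.log n := ⟨_, rfl⟩
      rw [← hl] at h1 hlogn ⊢
      have h8 : 0.69 ≤ l := by linarith
      nlinarith
    calc C * (Real.log q / √q) ≤ C * (4 * (Real.log n / √n)) :=
          mul_le_mul_of_nonneg_left h5 hC
      _ = _ := by ring
  have hsum : ∀ j : ℕ, |p (n + j * s) - p n| ≤ j * (4 * C * (Real.log n / √n)) := by
    intro j
    induction j with
    | zero => simp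
    | succ j ih =>
      have e : p (n + (j + 1) * s) - p n =
        (p (n + (j + 1) * s) - p (n + j * s)) + (p (n + j * s) - p n) := by ring
      rw [e]
      refine (abs_add_le _ _).trans ?_
      push_cast
      linarith [key j]
  have hm' : m = n + k * s := by
    have : m - n = k * s := by rw [hk]; ring
    omega
  have h1 := hsum k
  rw [← hm'] at h1
  refine h1.trans ?_
  have hk1 : (k : ℝ) ≤ (m : ℝ) - n := by
    rw [hm']
    push_cast
    have : (1 : ℝ) ≤ s := by exact_mod_cast hs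
    have hk0 : (0 : ℝ) ≤ k := Nat.cast_nonneg _
    nlinarith
  have h2 : 0 ≤ Real.log n / √n := div_nonneg (by linarith) hsq.le
  have h3 := mul_le_mul_of_nonneg_right hk1 (by positivity : 0 ≤ 4 * C * (Real.log n / √n))
  refine h3.trans (le_of_eq ?_)
  ring

/-- the probability that a uniform walk stays in the random domain -/
noncomputable def PP {Ω : Type} [MeasurableSpace Ω] (A : P → P → Prop) (ν : Measure Ω)
    (R : Ω → P → P → Prop) (n : ℕ) : ℝ := FF A ν R n / ((Kw A n).card : ℝ)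

/-- **the ratio limit theorem in a random domain** -/
theorem main (G : Growth Z μ K) : ∃ (C δ : ℝ) (N : ℕ), 0 < C ∧ 0 < δ ∧ 2 ≤ N ∧
    ∀ (Ω : Type) [MeasurableSpace Ω] (ν : Measure Ω) [IsProbabilityMeasure ν]
      (R : Ω → P → P → Prop), (∀ e x, MeasurableSet {ω | R ω e x}) →
      (∀ n, N ≤ n → Real.exp (-δ * n) ≤ PP A ν R (n + Z.s) →
        FF A ν R (n + Z.s) ^ 2 ≤ FF A ν R n * FF A ν R (n + 2 * Z.s) * (1 + C / n)) ∧
      (∀ n, N ≤ n → Real.exp (-δ * n) ≤ PP A ν R n →
        |FF A ν R (n + Z.s) / (μ ^ Z.s * FF A ν R n) - 1| ≤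
          C * √((Real.log (1 / PP A ν R n) + Real.log n ^ 2) / n) ∧
        ∀ R' : Ω → P → P → Prop, (∀ e x, MeasurableSet {ω | R' ω e x}) →
          (∀ ω e x, R' ω e x → R ω e x) →
          |FF A ν R' (n + Z.s) / FF A ν R (n + Z.s) - FF A ν R' n / FF A ν R n| ≤
          C * √((Real.log (1 / PP A ν R n) + Real.log n ^ 2) / n)) ∧
      (∀ n m : ℕ, 2 ≤ n → n ≤ m → Z.s ∣ m - n →
        |PP A ν R m - PP A ν R n| ≤ C * ((m - n : ℝ) * Real.log n / √n)) := by
  obtain ⟨D, θ, N, hD, hθ0, hθ1, hcx⟩ := mixture G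
  obtain ⟨C, δ, N0, hC, hδ, hN0, hnest⟩ := nested Z.s G.hs N D θ K hD hθ0 hθ1 G.hK
  have hμ : 0 < μ := by linarith [G.hμ]
  have hlθ : 0 < Real.log (1 / θ) := Real.log_pos (by rw [lt_div_iff₀ hθ0]; linarith)
  obtain ⟨δ', hδ'⟩ : ∃ δ', δ' = min (δ / 2) (Real.log (1 / θ)) := ⟨_, rfl⟩
  have hδ'0 : 0 < δ' := by rw [hδ']; exact lt_min (by linarith) hlθ
  obtain ⟨N1, hN1⟩ := eventually_atTop.1
    (log_sq_div.eventually_le_const (show (0 : ℝ) < δ / 2 by linarith))
  obtain ⟨N2, hN2⟩ : ∃ N2, N2 = max (max N N0) N1 := ⟨_, rfl⟩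
  have hNN : N ≤ N2 := by rw [hN2]; exact (le_max_left _ _).trans (le_max_left _ _)
  have hN0N : N0 ≤ N2 := by rw [hN2]; exact (le_max_right _ _).trans (le_max_left _ _)
  have hN1N : N1 ≤ N2 := by rw [hN2]; exact le_max_right _ _
  have hcpos : ∀ n, (0 : ℝ) < ((Kw A n).card : ℝ) := fun n =>
    lt_of_lt_of_le (by positivity) (G.low n)
  -- generic application of the nested theorem
  have happ : ∀ (Ω : Type) [MeasurableSpace Ω] (ν : Measure Ω) [IsProbabilityMeasure ν]
      (R : Ω → P → P → Prop), (∀ e x, MeasurableSet {ω | R ω e x}) →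
      ∀ n, N2 ≤ n → Real.exp (-δ' * n) ≤ PP A ν R n →
        |FF A ν R (n + Z.s) / (μ ^ Z.s * FF A ν R n) - 1| ≤
          C * √((Real.log (1 / PP A ν R n) + Real.log n ^ 2) / n) ∧
        ∀ R' : Ω → P → P → Prop, (∀ e x, MeasurableSet {ω | R' ω e x}) →
          (∀ ω e x, R' ω e x → R ω e x) →
          |FF A ν R' (n + Z.s) / FF A ν R (n + Z.s) - FF A ν R' n / FF A ν R n| ≤
          C * √((Real.log (1 / PP A ν R n) + Real.log n ^ 2) / n) := by
    intro Ω _ ν _ R hR n hn hp
    have hpp : 0 < PP A ν R n := lt_of_lt_of_le (Real.exp_pos _) hp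
    have hnR : (3 : ℝ) ≤ n := by
      have : 3 ≤ n := by omega
      exact_mod_cast this
    have hn0 : (0 : ℝ) < n := by linarith
    have hp1 : PP A ν R n ≤ 1 := by
      unfold PP
      rw [div_le_one (hcpos n)]
      exact FF_le ν hR n
    have hlog0 : 0 ≤ Real.log (1 / PP A ν R n) := Real.log_nonneg (by
      rw [le_div_iff₀ hpp]; linarith)
    have hlog1 : Real.log (1 / PP A ν R n) ≤ δ' * n := by
      rw [one_div, Real.log_inv]
      have := Real.log_le_log (Real.exp_pos _) hp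
      rw [Real.log_exp] at this
      linarith
    have hl2 : Real.log n ^ 2 ≤ δ / 2 * n := by
      have := hN1 n (by omega)
      rwa [div_le_iff₀ hn0] at this
    have hδδ : δ' * n ≤ δ / 2 * n :=
      mul_le_mul_of_nonneg_right (by rw [hδ']; exact min_le_left _ _) hn0.le
    have hX : PP A ν R n ≤ FF A ν R n / μ ^ n := by
      unfold PP
      exact div_le_div_of_nonneg_left (FF_nonneg ν R n) (by positivity) (G.low n)
    have hsmall : Real.exp (-(Real.log (1 / PP A ν R n) + Real.log n ^ 2)) ≤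
        FF A ν R n / μ ^ n := by
      refine le_trans ?_ hX
      have e : PP A ν R n = Real.exp (-Real.log (1 / PP A ν R n)) := by
        rw [one_div, Real.log_inv, neg_neg, Real.exp_log hpp]
      nth_rewrite 2 [e]
      exact Real.exp_le_exp.2 (by nlinarith [sq_nonneg (Real.log (n : ℝ))])
    have hFs : ∀ R' : Ω → P → P → Prop,
        FF A ν R' (n + Z.s) / μ ^ (n + Z.s) / (FF A ν R (n + Z.s) / μ ^ (n + Z.s)) =
        FF A ν R' (n + Z.s) / FF A ν R (n + Z.s) := fun R' => by
      rw [div_div_div_cancel_right₀ (by positivity)]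
    have hFn : ∀ R' : Ω → P → P → Prop,
        FF A ν R' n / μ ^ n / (FF A ν R n / μ ^ n) =
        FF A ν R' n / FF A ν R n := fun R' => by
      rw [div_div_div_cancel_right₀ (by positivity)]
    refine ⟨?_, fun R' hR' hsub => ?_⟩
    · have h := (hnest _ _ (hcx Ω ν R hR) (hcx Ω ν R hR) (fun _ => le_rfl) n (by omega)
        (Real.log (1 / PP A ν R n) + Real.log n ^ 2) (by linarith) (by linarith) hsmall).1
      have e : FF A ν R (n + Z.s) / (μ ^ Z.s * FF A ν R n) =
          FF A ν R (n + Z.s) / μ ^ (n + Z.s) / (FF A ν R n / μ ^ n) := by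
        rw [pow_add]
        field_simp
      rw [e]
      exact h
    · have h := (hnest _ _ (hcx Ω ν R hR) (hcx Ω ν R' hR')
        (fun k => div_le_div_of_nonneg_right (FF_mono ν hR hR' hsub k) (by positivity)) n (by omega)
        (Real.log (1 / PP A ν R n) + Real.log n ^ 2) (by linarith) (by linarith) hsmall).2
      rw [hFs, hFn] at h
      exact h
  obtain ⟨C4, hC4⟩ : ∃ C4, C4 = max C (√(N2 : ℝ) * 2) := ⟨_, rfl⟩
  have hC40 : 0 < C4 := by rw [hC4]; exact lt_of_lt_of_le hC (le_max_left _ _)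
  refine ⟨max (max C D) (4 * C4), δ', N2, lt_of_lt_of_le (lt_of_lt_of_le hC (le_max_left _ _))
    (le_max_left _ _), hδ'0, by omega, ?_⟩
  intro Ω _ ν _ R hR
  refine ⟨fun n hn hp => ?_, fun n hn hp => ?_, fun n m hn hnm hd => ?_⟩
  · have hn0 : (0 : ℝ) < n := by
      have : 0 < n := by omega
      exact_mod_cast this
    have hX : PP A ν R (n + Z.s) ≤ FF A ν R (n + Z.s) / μ ^ (n + Z.s) := by
      unfold PP
      exact div_le_div_of_nonneg_left (FF_nonneg ν R _) (by positivity) (G.low _)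
    have hθ : θ ^ (n + Z.s) ≤ Real.exp (-δ' * n) := by
      have e : θ ^ (n + Z.s) = Real.exp (-(((n + Z.s : ℕ) : ℝ) * Real.log (1 / θ))) := by
        rw [one_div, Real.log_inv, mul_neg, neg_neg, Real.exp_nat_mul, Real.exp_log hθ0]
      rw [e]
      refine Real.exp_le_exp.2 ?_
      have h1 : δ' ≤ Real.log (1 / θ) := by rw [hδ']; exact min_le_right _ _
      push_cast
      have h2 : (0 : ℝ) ≤ Z.s := Nat.cast_nonneg _
      nlinarith
    have h := (hcx Ω ν R hR).kes n (by omega) (hθ.trans (hp.trans hX))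
    have e3 : (μ ^ (n + Z.s)) ^ 2 = μ ^ n * μ ^ (n + 2 * Z.s) := by
      rw [← pow_mul, ← pow_add]
      congr 1
      ring
    rw [div_pow, div_mul_div_comm, div_mul_eq_mul_div, e3] at h
    rw [div_le_div_iff_of_pos_right (by positivity)] at h
    refine h.trans (mul_le_mul_of_nonneg_left ?_
      (mul_nonneg (FF_nonneg ν R n) (FF_nonneg ν R _)))
    have : D / n ≤ max (max C D) (4 * C4) / n := div_le_div_of_nonneg_right
      ((le_max_right _ _).trans (le_max_left _ _)) hn0.le
    linarith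
  · obtain ⟨h1, h2⟩ := happ Ω ν R hR n hn hp
    have hle : C ≤ max (max C D) (4 * C4) := (le_max_left _ _).trans (le_max_left _ _)
    have hm := mul_le_mul_of_nonneg_right hle
      (Real.sqrt_nonneg ((Real.log (1 / PP A ν R n) + Real.log n ^ 2) / n))
    exact ⟨h1.trans hm, fun R' hR' hsub => (h2 R' hR' hsub).trans hm⟩
  · have hp01 : ∀ n, 0 ≤ PP A ν R n ∧ PP A ν R n ≤ 1 := fun n =>
      ⟨div_nonneg (FF_nonneg ν R n) (hcpos n).le, by
        unfold PP
        rw [div_le_one (hcpos n)]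
        exact FF_le ν hR n⟩
    have hstep : ∀ n, 2 ≤ n → |PP A ν R (n + Z.s) - PP A ν R n| ≤ C4 * (Real.log n / √n) := by
      intro n hn
      have hnR : (2 : ℝ) ≤ n := by exact_mod_cast hn
      have hn0 : (0 : ℝ) < n := by linarith
      have hlogn : (1 : ℝ) / 2 ≤ Real.log n := by
        have := Real.log_le_log (by norm_num) hnR
        linarith [Real.log_two_gt_d9]
      by_cases hnN : N2 ≤ n
      · have hT : ∀ k, FF A ν (fun _ _ _ => True) k = (Kw A k).card := by
          intro k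
          unfold FF
          simp only [integral_const, probReal_univ, one_smul]
          have e : KR A (fun _ _ => True) k = Kw A k := by
            ext w
            rw [mem_KR]
            simp
          rw [e]
        have hPT : PP A ν (fun _ _ _ => True) n = 1 := by
          unfold PP
          rw [hT, div_self (hcpos n).ne']
        have h := (happ Ω ν (fun _ _ _ => True) (fun _ _ => MeasurableSet.const _) n hnN (by
          rw [hPT]
          refine Real.exp_le_one_iff.2 ?_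
          nlinarith)).2 R hR (fun _ _ _ _ => trivial)
        rw [hPT, hT, hT, div_one, Real.log_one, zero_add, Real.sqrt_div (sq_nonneg _),
          Real.sqrt_sq (by linarith)] at h
        refine h.trans (mul_le_mul_of_nonneg_right (by rw [hC4]; exact le_max_left _ _) ?_)
        exact div_nonneg (by linarith) (Real.sqrt_nonneg _)
      · push Not at hnN
        have h1 : |PP A ν R (n + Z.s) - PP A ν R n| ≤ 1 := by
          rw [abs_le]
          constructor <;> linarith [(hp01 (n + Z.s)).1, (hp01 (n + Z.s)).2, (hp01 n).1, (hp01 n).2]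
        refine h1.trans ?_
        have hsq : 0 < √(n : ℝ) := Real.sqrt_pos.2 hn0
        have hle : √(n : ℝ) ≤ √(N2 : ℝ) := Real.sqrt_le_sqrt (by exact_mod_cast hnN.le)
        have h2 : √(N2 : ℝ) * 2 ≤ C4 := by rw [hC4]; exact le_max_right _ _
        rw [← mul_div_assoc, le_div_iff₀ hsq, one_mul]
        nlinarith
    have h := telescope hC40.le hstep G.hs hn hnm hd
    refine h.trans (mul_le_mul_of_nonneg_right (le_max_right _ _) ?_)
    have hnR : (2 : ℝ) ≤ n := by exact_mod_cast hn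
    have hnm' : (n : ℝ) ≤ m := by exact_mod_cast hnm
    exact div_nonneg (mul_nonneg (by linarith) (Real.log_nonneg (by linarith)))
      (Real.sqrt_nonneg _)

end Q78.UR
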