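import Pool.Agent.Q78.UR.Disc
import Pool.Agent.W832.HR.Cont2

set_option autoImplicit false

/-! Self-avoiding walks between two points of a finite domain of the honeycomb lattice. -/

namespace Q78.UR.HexDom

open Finset Filter Topology MeasureTheory TH966.AK Q294.Rs
open Pool.Agent.W832.HR (Nbr Traj emb)

/-- the number of trajectories with `m` steps -/
noncomputable def N (D : Set (ℤ × ℤ)) (a b : ℤ × ℤ) (m : ℕ) : ℕ :=
  Nat.card {l : List (ℤ × ℤ) // l ∈ Traj D a b ∧ l.length = m + 1}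

theorem nbr_iff (p q : ℤ × ℤ) : Nbr p q ↔ AdjH p q := by
  unfold Nbr AdjH
  rw [Prod.ext_iff, Prod.ext_iff, Prod.ext_iff, Prod.ext_iff]
  simp only [Prod.fst_sub, Prod.snd_sub]
  constructor
  · rintro (⟨h1, h2 | h2⟩ | ⟨h1, ⟨h2, h3⟩ | ⟨h2, h3⟩⟩)
    · right; left; constructor <;> omega
    · left; constructor <;> omega
    · right; right; left; exact ⟨⟨by omega, by omega⟩, h3⟩
    · right; right; right; exact ⟨⟨by omega, by omega⟩, h3⟩
  · rintro (⟨h1, h2⟩ | ⟨h1, h2⟩ | ⟨⟨h1, h2⟩, h3⟩ | ⟨⟨h1, h2⟩, h3⟩)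
    · left; exact ⟨by omega, by omega⟩
    · left; exact ⟨by omega, by omega⟩
    · right; exact ⟨by omega, Or.inl ⟨by omega, h3⟩⟩
    · right; exact ⟨by omega, Or.inr ⟨by omega, h3⟩⟩

theorem lst_map (τ : ℤ × ℤ → ℤ × ℤ) {l : List (ℤ × ℤ)} {c : ℤ × ℤ} (h : l.getLast? = some c) :
    lst (l.map τ) = τ c := by
  unfold lst
  rw [List.getLast?_map, h]
  rfl

theorem mem_iff {τ : ℤ × ℤ ≃ ℤ × ℤ} {a : ℤ × ℤ} (hτa : τ a = 0)
    (hτ : ∀ p q, AdjH (τ p) (τ q) ↔ AdjH p q) (D : Set (ℤ × ℤ)) (b : ℤ × ℤ) (m : ℕ)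
    (l : List (ℤ × ℤ)) :
    (l ∈ Traj D a b ∧ l.length = m + 1) ↔
      l.map τ ∈ KR Hex.A (fun e y => e = τ b ∧ τ.symm y ∈ D) m := by
  rw [mem_KR, Hex.rule.mem_K]
  unfold Walk Traj
  rw [Set.mem_ofPred_eq, List.length_map, List.head?_map, List.nodup_map_iff τ.injective,
    List.isChain_map, ← adjH_eq]
  have hch : (List.IsChain (fun a b => AdjH (τ a) (τ b)) l) ↔ List.IsChain Nbr l := by
    have : (fun a b => AdjH (τ a) (τ b)) = Nbr := by
      funext x y
      rw [hτ]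
      exact propext (nbr_iff x y).symm
    rw [this]
  rw [hch]
  constructor
  · rintro ⟨⟨h1, h2, h3, h4, h5⟩, h6⟩
    refine ⟨⟨h6, by rw [h1]; simp [hτa], h3, h4⟩, fun y hy => ?_⟩
    rw [List.mem_map] at hy
    obtain ⟨x, hx, rfl⟩ := hy
    exact ⟨lst_map _ h2, by rw [Equiv.symm_apply_apply]; exact h5 x hx⟩
  · rintro ⟨⟨h1, h2, h3, h4⟩, h5⟩
    have hne : l ≠ [] := by
      intro h
      rw [h] at h1
      simp at h1
    obtain ⟨c, hc⟩ : ∃ c, l.getLast? = some c := ⟨_, List.getLast?_eq_some_getLast hne⟩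
    have h6 : ∀ x ∈ l, c = b ∧ x ∈ D := by
      intro x hx
      have := h5 (τ x) (List.mem_map.2 ⟨x, hx, rfl⟩)
      rw [lst_map _ hc, Equiv.symm_apply_apply] at this
      exact ⟨τ.injective this.1, this.2⟩
    have hcl : c ∈ l := List.mem_of_getLast? hc
    refine ⟨⟨?_, by rw [hc, (h6 c hcl).1], h3, h4, fun p hp => (h6 p hp).2⟩, h1⟩
    rw [Option.map_eq_some_iff] at h2
    obtain ⟨x, hx, hx0⟩ := h2
    rw [hx]
    congr 1
    exact τ.injective (by rw [hx0, hτa])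

theorem card_eq {τ : ℤ × ℤ ≃ ℤ × ℤ} {a : ℤ × ℤ} (hτa : τ a = 0)
    (hτ : ∀ p q, AdjH (τ p) (τ q) ↔ AdjH p q) (D : Set (ℤ × ℤ)) (b : ℤ × ℤ) (m : ℕ) :
    (KR Hex.A (fun e y => e = τ b ∧ τ.symm y ∈ D) m).card = N D a b m := by
  unfold N
  rw [← Fintype.card_coe, ← Nat.card_eq_fintype_card]
  symm
  exact Nat.card_congr (Equiv.subtypeEquiv (Equiv.listEquivOfEquiv τ) fun l =>
    mem_iff hτa hτ D b m l)

/-- the sum over the trajectories -/
noncomputable def T (x : ℝ) (D : Set (ℤ × ℤ)) (a b : ℤ × ℤ) : ℝ := ∑' m, (N D a b m : ℝ) * x ^ m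

theorem N_zero {D : Set (ℤ × ℤ)} (hD : D.Finite) {a b : ℤ × ℤ} {m : ℕ}
    (hm : hD.toFinset.card ≤ m) : N D a b m = 0 := by
  unfold N
  rw [Nat.card_eq_zero]
  left
  refine ⟨?_⟩
  rintro ⟨l, hl, hlen⟩
  have h1 : l.toFinset ⊆ hD.toFinset := by
    intro p hp
    rw [List.mem_toFinset] at hp
    rw [Set.Finite.mem_toFinset]
    exact hl.2.2.2.2 p hp
  have h2 := Finset.card_le_card h1
  rw [List.toFinset_card_of_nodup hl.2.2.1] at h2
  omega

theorem summable {D : Set (ℤ × ℤ)} (hD : D.Finite) (x : ℝ) (a b : ℤ × ℤ) :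
    Summable (fun m => (N D a b m : ℝ) * x ^ m) :=
  summable_of_ne_finset_zero (s := Finset.range hD.toFinset.card) fun k hk => by
    rw [N_zero hD (by rw [Finset.mem_range] at hk; omega), Nat.cast_zero, zero_mul]

/-- **the number of steps in a finite domain** -/
theorem main : ∃ C κ δ : ℝ, 0 < C ∧ 1 < κ ∧ 0 < δ ∧
    ∀ (D : Set (ℤ × ℤ)) (a b : ℤ × ℤ), D.Finite → ∀ x : ℝ, 0 < x → x * √(2 + √2) ≤ κ →
    0 < T x D a b → ∀ m : ℕ, C * (1 + max 0 (Real.log (1 / T x D a b))) ≤ m →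
      N D a b m * x ^ m / T x D a b ≤ C * √(Real.log m / m) ∧
      (∀ k, ∑ i ∈ range k, |N D a b (m + i + 2) * x ^ (m + i + 2) / T x D a b -
        N D a b (m + i) * x ^ (m + i) / T x D a b| ≤ C * √(Real.log m / m)) ∧
      (Real.exp (-δ * m) ≤ N D a b m * x ^ m / T x D a b →
        |N D a b (m + 2) * x ^ (m + 2) / (N D a b m * x ^ m) - 1| ≤
          C * √((1 + Real.log (1 / (N D a b m * x ^ m / T x D a b))) / m) ∧
        ∀ U : Set (ℤ × ℤ), |(N (D ∩ U) a b (m + 2) : ℝ) / N D a b (m + 2) -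
          N (D ∩ U) a b m / N D a b m| ≤
          C * √((1 + Real.log (1 / (N D a b m * x ^ m / T x D a b))) / m)) := by
  obtain ⟨-, K, Gr⟩ := TH966.AK.hex_growth _ (fun n => rfl)
  obtain ⟨C, κ, δ, hC, hκ, hδ, hmain⟩ := Q78.UR.fug Gr
  refine ⟨C, κ, δ, hC, hκ, hδ, ?_⟩
  intro D a b hD x hx hxκ hT m hm
  obtain ⟨τ, hτa, hτ⟩ := Q78.UR.hex_symm a
  have hFF : ∀ (E : Set (ℤ × ℤ)) (k : ℕ), FF Hex.A (Measure.dirac ())
      (fun _ e y => e = τ b ∧ τ.symm y ∈ E) k = N E a b k := by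
    intro E k
    unfold FF
    rw [integral_dirac, card_eq hτa hτ]
  have h := hmain Unit (Measure.dirac ()) (fun _ e y => e = τ b ∧ τ.symm y ∈ D)
    (fun _ _ => trivial) x (T x D a b) hx hxκ hT (fun M => by
      simp only [hFF]
      unfold T
      exact (summable hD x a b).sum_le_tsum _ (fun k _ => by positivity)) m hm
  have hZ' : (TH966.AK.Hex.rule).s = 2 := rfl
  rw [hZ'] at h
  simp only [hFF] at h
  refine ⟨h.1, h.2.1, fun hexp => ⟨(h.2.2 hexp).1, fun U => ?_⟩⟩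
  have h' := (h.2.2 hexp).2 (fun _ e y => e = τ b ∧ τ.symm y ∈ D ∩ U) (fun _ _ => trivial)
    (fun _ _ _ hy => ⟨hy.1, hy.2.1⟩)
  rw [hFF, hFF] at h'
  exact h'

theorem finite_len (D : Set (ℤ × ℤ)) (a b : ℤ × ℤ) (m : ℕ) :
    Finite {l : List (ℤ × ℤ) // l ∈ Traj D a b ∧ l.length = m + 1} := by
  obtain ⟨τ, hτa, hτ⟩ := Q78.UR.hex_symm a
  exact Finite.of_equiv _ (Equiv.subtypeEquiv (Equiv.listEquivOfEquiv τ) fun l =>
    mem_iff hτa hτ D b m l).symm

theorem Z_eq {D : Set (ℤ × ℤ)} (hD : D.Finite) (a b : ℤ × ℤ) :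
    Pool.Agent.W832.HR.Z D a b = ENNReal.ofReal (T (1 / √(2 + √2)) D a b) := by
  unfold Pool.Agent.W832.HR.Z T
  rw [ENNReal.ofReal_tsum_of_nonneg (fun m => by positivity) (summable hD _ a b)]
  rw [← (Equiv.sigmaFiberEquiv (fun l : Traj D a b => l.1.length - 1)).tsum_eq,
    ENNReal.tsum_sigma']
  refine tsum_congr fun m => ?_
  have h1 : ∀ l : {l : Traj D a b // l.1.length - 1 = m},
      Pool.Agent.W832.HR.xc ^ (((Equiv.sigmaFiberEquiv (fun l : Traj D a b => l.1.length - 1))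
        ⟨m, l⟩).1.length - 1) = Pool.Agent.W832.HR.xc ^ m := by
    intro l
    have : ((Equiv.sigmaFiberEquiv (fun l : Traj D a b => l.1.length - 1)) ⟨m, l⟩) = l.1 := rfl
    rw [this, l.2]
  simp only [h1]
  rw [ENNReal.tsum_const]
  have h2 : ENat.card {l : Traj D a b // l.1.length - 1 = m} = (N D a b m : ℕ∞) := by
    have e : {l : Traj D a b // l.1.length - 1 = m} ≃
        {l : List (ℤ × ℤ) // l ∈ Traj D a b ∧ l.length = m + 1} := by
      refine (Equiv.subtypeSubtypeEquivSubtypeInter (fun l => l ∈ Traj D a b)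
        (fun l => l.length - 1 = m)).trans (Equiv.subtypeEquivRight fun l => ?_)
      constructor
      · rintro ⟨h1, h2⟩
        refine ⟨h1, ?_⟩
        have : l ≠ [] := by
          intro h
          have := h1.1
          rw [h] at this
          simp at this
        have := List.length_pos_iff.2 this
        omega
      · rintro ⟨h1, h2⟩
        exact ⟨h1, by omega⟩
    haveI := finite_len D a b m
    rw [ENat.card_congr e, ENat.card_eq_coe_natCard]
    rfl
  rw [h2, ENat.toENNReal_coe]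
  unfold Pool.Agent.W832.HR.xc
  rw [ENNReal.ofReal_mul (Nat.cast_nonneg _), ENNReal.ofReal_natCast,
    ENNReal.ofReal_pow (by positivity)]

/-- displacement of a chain -/
theorem chain_disp {a : ℤ × ℤ} : ∀ {l : List (ℤ × ℤ)} {m : ℕ} {b : ℤ × ℤ},
    l.head? = some a → l.getLast? = some b → l.IsChain Nbr → l.length = m + 1 →
    |b.1 - a.1| ≤ m ∧ |b.2 - a.2| ≤ m := by
  intro l
  induction l using List.reverseRecOn with
  | nil => intro m b h; simp at h
  | append_singleton l c ih =>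
    intro m b h1 h2 h3 h4
    rw [List.getLast?_append] at h2
    simp at h2
    subst h2
    rcases l.eq_nil_or_concat with hl | ⟨l', d, hl⟩
    · subst hl
      simp at h1 h4
      subst h1 h4
      simp
    · rw [List.concat_eq_append] at hl
      subst hl
      simp only [List.length_append, List.length_cons, List.length_nil] at h4
      have h5 : (l' ++ [d]).IsChain Nbr := h3.left_of_append
      have h6 : Nbr d c := by
        rw [List.isChain_append] at h3
        exact h3.2.2 d (by simp) c (by simp)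
      have h7 := ih (m := m - 1) (b := d) (by
        rw [List.head?_append] at h1
        rcases l' with _ | ⟨x, t⟩
        · simpa using h1
        · simpa using h1) (by simp) h5 (by simp; omega)
      have h8 : ((m - 1 : ℕ) : ℤ) = m - 1 := by
        have : 1 ≤ m := by omega
        push_cast [this]
        ring
      rw [h8, abs_le, abs_le] at h7
      rw [abs_le, abs_le]
      unfold Nbr at h6
      omega

/-- a trajectory is at least as long as the distance of its end points -/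
theorem dist_le {D : Set (ℤ × ℤ)} {a b : ℤ × ℤ} {m : ℕ} (h : N D a b m ≠ 0) :
    ‖emb a - emb b‖ ≤ 3 * m + 1 := by
  unfold N at h
  obtain ⟨⟨l, hl, hlen⟩⟩ := (Nat.card_ne_zero.1 h).1
  obtain ⟨h1, h2⟩ := chain_disp hl.1 hl.2.1 hl.2.2.2.1 hlen
  refine (Complex.norm_le_abs_re_add_abs_im _).trans ?_
  have h1' : |((b.1 - a.1 : ℤ) : ℝ)| ≤ m := by exact_mod_cast h1
  have h2' : |((b.2 - a.2 : ℤ) : ℝ)| ≤ m := by exact_mod_cast h2
  push_cast at h1' h2'
  have hs : Real.sqrt 3 / 2 ≤ 1 := by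
    have : Real.sqrt 3 ≤ 2 := by rw [Real.sqrt_le_left (by norm_num)]; norm_num
    linarith
  have hs0 : 0 ≤ Real.sqrt 3 / 2 := by positivity
  have e1 : (emb a - emb b).re = -(Real.sqrt 3 / 2 * ((b.1 : ℝ) - a.1)) := by
    unfold Pool.Agent.W832.HR.emb
    simp
    ring
  have e2 : |(emb a - emb b).im| ≤ 3 / 2 * |(b.2 : ℝ) - a.2| + 1 / 2 := by
    unfold Pool.Agent.W832.HR.emb
    simp only [Complex.sub_im]
    rw [abs_le]
    have h5 := abs_le.1 (le_refl |(b.2 : ℝ) - a.2|)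
    split_ifs <;> constructor <;> linarith [h5.1, h5.2]
  have e3 : |(emb a - emb b).re| ≤ |(b.1 : ℝ) - a.1| := by
    rw [e1, abs_neg, abs_mul, abs_of_nonneg hs0]
    have := abs_nonneg ((b.1 : ℝ) - a.1)
    nlinarith
  have hm : (0 : ℝ) ≤ m := Nat.cast_nonneg _
  linarith

end Q78.UR.HexDom
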