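import Pool.Agent.Q78.UR.Sharp

set_option autoImplicit false

/-! Approximately log-convex probabilities: the largest atom and the total variation without
logarithms. -/

namespace Q78.UR

open Finset Filter Topology

theorem win_le {s n m : ℕ} (h : m ∈ Win s n) :
    (n : ℝ) ≤ m + s * √n ∧ (m : ℝ) ≤ n + s * (√n + 1) := by
  unfold Win at h
  rw [Finset.mem_Icc] at h
  have h0 : (Nat.sqrt n : ℝ) ≤ √n := Real.nat_sqrt_le_real_sqrt
  have hs : (0 : ℝ) ≤ s := Nat.cast_nonneg _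
  constructor
  · have h1 : n ≤ m + s * Nat.sqrt n := by omega
    have h2 : (n : ℝ) ≤ m + s * (Nat.sqrt n : ℝ) := by exact_mod_cast h1
    have := mul_le_mul_of_nonneg_left h0 hs
    linarith
  · have h2 : (m : ℝ) ≤ n + s * ((Nat.sqrt n : ℝ) + 1) := by exact_mod_cast h.2
    have := mul_le_mul_of_nonneg_left h0 hs
    linarith

theorem win_close {s n1 n2 m : ℕ} (hs : 1 ≤ s) (h16 : 64 * s ^ 2 ≤ n1) (h12 : n1 ≤ n2)
    (h1 : m ∈ Win s n1) (h2 : m ∈ Win s n2) : (n2 : ℝ) ≤ n1 + 4 * s * √n1 := by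
  have a1 := (win_le h1).2
  have a2 := (win_le h2).1
  have hsR : (1 : ℝ) ≤ s := by exact_mod_cast hs
  have h16' : (64 : ℝ) * s ^ 2 ≤ n1 := by exact_mod_cast h16
  have h12' : (n1 : ℝ) ≤ n2 := by exact_mod_cast h12
  obtain ⟨u, hu⟩ : ∃ u, u = √(n1 : ℝ) := ⟨_, rfl⟩
  obtain ⟨v, hv⟩ : ∃ v, v = √(n2 : ℝ) := ⟨_, rfl⟩
  have hu2 : u * u = n1 := by rw [hu]; exact Real.mul_self_sqrt (Nat.cast_nonneg _)
  have hv2 : v * v = n2 := by rw [hv]; exact Real.mul_self_sqrt (Nat.cast_nonneg _)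
  rw [← hu] at a1 ⊢
  rw [← hv] at a2
  have hu8 : 8 * s ≤ u := by
    rw [hu]
    refine Real.le_sqrt_of_sq_le ?_
    nlinarith
  have huv : u ≤ v := by
    rw [hu, hv]
    exact Real.sqrt_le_sqrt h12'
  -- `v ≤ 2 u`
  have h3 : v ≤ 2 * u := by
    by_contra hcon
    push Not at hcon
    have h4 : v * v ≤ u * u + s * (u + 1) + s * v := by
      rw [hv2, hu2]; linarith
    nlinarith
  have h5 : s * v ≤ s * (2 * u) := mul_le_mul_of_nonneg_left h3 (by linarith)
  have h6 : s * 1 ≤ s * u := mul_le_mul_of_nonneg_left (by linarith) (by linarith)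
  have h7 : (n2 : ℝ) ≤ n1 + s * (u + 1) + s * v := by linarith
  linarith

theorem inner_sum {s l k m : ℕ} (hs : 1 ≤ s) (hl : 64 * s ^ 2 ≤ l) (hl1 : 1 ≤ l) :
    ∑ n ∈ (Finset.Ico l (l + k)).filter (fun n => m ∈ Win s n), 1 / (n : ℝ) ≤ 5 * s / √(l : ℝ) := by
  have hsR : (1 : ℝ) ≤ s := by exact_mod_cast hs
  obtain ⟨T, hT⟩ : ∃ T, T = (Finset.Ico l (l + k)).filter (fun n => m ∈ Win s n) := ⟨_, rfl⟩
  rw [← hT]
  rcases T.eq_empty_or_nonempty with h | h
  · rw [h, sum_empty]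
    positivity
  · obtain ⟨n1, hn1⟩ : ∃ n1, n1 = T.min' h := ⟨_, rfl⟩
    have hm1 : n1 ∈ T := by rw [hn1]; exact T.min'_mem h
    have hm1' := hm1
    rw [hT, mem_filter, Finset.mem_Ico] at hm1'
    obtain ⟨⟨g1, g2⟩, g3⟩ := hm1'
    have hn0 : (0 : ℝ) < n1 := by
      have : 0 < n1 := by omega
      exact_mod_cast this
    have hle : ∀ n ∈ T, n1 ≤ n := fun n hn => by rw [hn1]; exact T.min'_le n hn
    obtain ⟨u, hu⟩ : ∃ u, u = √(n1 : ℝ) := ⟨_, rfl⟩
    have hu2 : u * u = n1 := by rw [hu]; exact Real.mul_self_sqrt (Nat.cast_nonneg _)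
    have hu1 : 1 ≤ u := by
      rw [hu, Real.one_le_sqrt]
      exact_mod_cast (by omega : 1 ≤ n1)
    have hsub : T ⊆ Finset.Icc n1 (n1 + ⌊4 * s * u⌋₊) := by
      intro n hn
      have h1 := hle n hn
      have hn' := hn
      rw [hT, mem_filter] at hn'
      have h2 := win_close hs (by omega) h1 g3 hn'.2
      rw [← hu] at h2
      rw [Finset.mem_Icc]
      refine ⟨h1, ?_⟩
      have h3 : ((n - n1 : ℕ) : ℝ) ≤ 4 * s * u := by
        rw [Nat.cast_sub h1]
        linarith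
      have h4 := Nat.le_floor h3
      omega
    have hcard : (T.card : ℝ) ≤ 5 * s * u := by
      have h1 := card_le_card hsub
      rw [Nat.card_Icc] at h1
      have h2 : T.card ≤ ⌊4 * s * u⌋₊ + 1 := by omega
      have h3 : (T.card : ℝ) ≤ (⌊4 * s * u⌋₊ : ℝ) + 1 := by exact_mod_cast h2
      have h4 : (⌊4 * s * u⌋₊ : ℝ) ≤ 4 * s * u := Nat.floor_le (by positivity)
      have h5 : (1 : ℝ) ≤ s * u := by nlinarith
      linarith
    calc ∑ n ∈ T, 1 / (n : ℝ) ≤ ∑ _n ∈ T, 1 / (n1 : ℝ) := by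
          refine sum_le_sum fun n hn => ?_
          refine div_le_div_of_nonneg_left (by norm_num) hn0 ?_
          exact_mod_cast hle n hn
      _ = T.card * (1 / n1) := by rw [sum_const, nsmul_eq_mul]
      _ ≤ 5 * s * u * (1 / n1) := mul_le_mul_of_nonneg_right hcard (by positivity)
      _ = 5 * s / u := by rw [← hu2]; field_simp
      _ ≤ 5 * s / √(l : ℝ) := by
          refine div_le_div_of_nonneg_left (by positivity) ?_ ?_
          · exact Real.sqrt_pos.2 (by exact_mod_cast hl1)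
          · rw [hu]
            exact Real.sqrt_le_sqrt (by exact_mod_cast g1)

/-- **the largest atom and the total variation** -/
theorem sharp (s : ℕ) (hs : 1 ≤ s) (D θ : ℝ) (hD : 0 ≤ D) (hθ0 : 0 < θ) (hθ1 : θ < 1) :
    ∃ (C : ℝ) (N0 : ℕ), 0 < C ∧ 3 ≤ N0 ∧
      ∀ (N : ℕ) (x : ℕ → ℝ), Cx s N D θ 0 x → (∀ M, ∑ n ∈ range M, x n ≤ 1) →
      ∀ l, N0 ≤ l → 2 * N ≤ l → x l ≤ C / √(l : ℝ) ∧
        ∀ k, ∑ i ∈ range k, |x (l + i + s) - x (l + i)| ≤ C / √(l : ℝ) := by
  obtain ⟨C, N0, hC, hN0, h⟩ := local_avg s hs D θ hD hθ0 hθ1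
  have hsR : (1 : ℝ) ≤ s := by exact_mod_cast hs
  refine ⟨C * (5 * s) + 2, max N0 (64 * s ^ 2 + 4), by positivity,
    le_trans (by omega) (le_max_left _ _), ?_⟩
  intro N x hx hsum l hl hlN
  have hlN0 : N0 ≤ l := le_trans (le_max_left _ _) hl
  have hl64 : 64 * s ^ 2 + 4 ≤ l := le_trans (le_max_right _ _) hl
  have hl0 : (0 : ℝ) < l := by
    have : 0 < l := by omega
    exact_mod_cast this
  have hl1 : (1 : ℝ) ≤ l := by
    have : 1 ≤ l := by omega
    exact_mod_cast this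
  obtain ⟨u, hu⟩ : ∃ u, u = √(l : ℝ) := ⟨_, rfl⟩
  have hu2 : u * u = l := by rw [hu]; exact Real.mul_self_sqrt (Nat.cast_nonneg _)
  have hu1 : 1 ≤ u := by rw [hu, Real.one_le_sqrt]; exact hl1
  have hu0 : 0 < u := by linarith
  rw [← hu]
  have hfin : ∀ W : Finset ℕ, ∑ m ∈ W, x m ≤ 1 := by
    intro W
    obtain ⟨M, hM⟩ := W.exists_nat_subset_range
    exact (sum_le_sum_of_subset_of_nonneg hM fun m _ _ => hx.nn m).trans (hsum M)
  have hC5 : 0 ≤ C * (5 * s) := by positivity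
  constructor
  · rw [le_div_iff₀ hu0]
    by_cases hc : 1 / (l : ℝ) ^ 2 ≤ x l
    · have h1 := (h N x hx l hlN0 hlN (Or.inl hc)).1
      rw [← hu] at h1
      have h2 := mul_le_mul_of_nonneg_left (hfin (Win s l)) hC.le
      have h3 : C * 1 ≤ C * (5 * s) := mul_le_mul_of_nonneg_left (by linarith) hC.le
      linarith
    · push Not at hc
      have h1 : 1 / (l : ℝ) ^ 2 ≤ 1 / l := by
        rw [div_le_div_iff₀ (by positivity) hl0]
        nlinarith
      have h2 : x l * u ≤ 1 / l * u := mul_le_mul_of_nonneg_right (hc.le.trans h1) hu0.le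
      have h3 : 1 / (l : ℝ) * u ≤ 1 := by
        rw [div_mul_eq_mul_div, one_mul, div_le_one hl0]
        nlinarith
      linarith
  · intro k
    have hpt : ∀ n ∈ Finset.Ico l (l + k), |x (n + s) - x n| ≤
        C * (1 / (n : ℝ) * ∑ m ∈ Win s n, x m) + 1 / (n : ℝ) ^ 2 := by
      intro n hn
      rw [Finset.mem_Ico] at hn
      have hn0 : (0 : ℝ) < n := by
        have : 0 < n := by omega
        exact_mod_cast this
      have hS0 : 0 ≤ ∑ m ∈ Win s n, x m := sum_nonneg fun m _ => hx.nn m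
      have h2n : 0 < 1 / (n : ℝ) ^ 2 := by positivity
      by_cases hc : 1 / (n : ℝ) ^ 2 ≤ x n ∨ 1 / (n : ℝ) ^ 2 ≤ x (n + s)
      · have h1 := (h N x hx n (by omega) (by omega) hc).2
        have h2 : |x (n + s) - x n| ≤ C * (1 / (n : ℝ) * ∑ m ∈ Win s n, x m) := by
          have e : C * (1 / (n : ℝ) * ∑ m ∈ Win s n, x m) = (C * ∑ m ∈ Win s n, x m) / n := by
            field_simp
          rw [e, le_div_iff₀ hn0]
          linarith
        linarith
      · push Not at hc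
        have h1 : |x (n + s) - x n| ≤ 1 / (n : ℝ) ^ 2 := by
          have := hx.nn n
          have := hx.nn (n + s)
          rw [abs_le]
          constructor <;> linarith [hc.1, hc.2]
        have h2 : 0 ≤ C * (1 / (n : ℝ) * ∑ m ∈ Win s n, x m) := by positivity
        linarith
    have e0 : ∑ i ∈ range k, |x (l + i + s) - x (l + i)| =
        ∑ n ∈ Finset.Ico l (l + k), |x (n + s) - x n| := by
      rw [Finset.sum_Ico_eq_sum_range, Nat.add_sub_cancel_left]
    rw [e0]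
    refine (sum_le_sum hpt).trans ?_
    rw [sum_add_distrib, ← mul_sum]
    -- exchange the sums
    obtain ⟨M, hM⟩ : ∃ M, ∀ n ∈ Finset.Ico l (l + k), Win s n ⊆ range M := by
      obtain ⟨M, hM⟩ := ((Finset.Ico l (l + k)).biUnion (Win s)).exists_nat_subset_range
      exact ⟨M, fun n hn => (Finset.subset_biUnion_of_mem (Win s) hn).trans hM⟩
    have h1 : ∑ n ∈ Finset.Ico l (l + k), (1 / (n : ℝ) * ∑ m ∈ Win s n, x m) ≤ 5 * s / u := by
      have e1 : ∀ n ∈ Finset.Ico l (l + k), (1 / (n : ℝ) * ∑ m ∈ Win s n, x m) =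
          ∑ m ∈ range M, x m * (if m ∈ Win s n then 1 / (n : ℝ) else 0) := by
        intro n hn
        rw [mul_sum, ← sum_subset (hM n hn) (fun m _ hm => by rw [if_neg hm, mul_zero])]
        refine sum_congr rfl fun m hm => ?_
        rw [if_pos hm]
        ring
      rw [sum_congr rfl e1, sum_comm]
      have e2 : ∀ m ∈ range M, ∑ n ∈ Finset.Ico l (l + k),
          x m * (if m ∈ Win s n then 1 / (n : ℝ) else 0) ≤ x m * (5 * s / u) := by
        intro m _
        rw [← mul_sum, ← sum_filter]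
        refine mul_le_mul_of_nonneg_left ?_ (hx.nn m)
        rw [hu]
        exact inner_sum hs (by omega) (by omega)
      refine (sum_le_sum e2).trans ?_
      rw [← sum_mul]
      have : 0 ≤ 5 * (s : ℝ) / u := by positivity
      nlinarith [hsum M]
    have h2 : ∑ n ∈ Finset.Ico l (l + k), 1 / (n : ℝ) ^ 2 ≤ 2 / u := by
      rw [Finset.sum_Ico_eq_sum_range, Nat.add_sub_cancel_left]
      refine (sum_inv_sq (show 2 ≤ l by omega) k).trans ?_
      have hl4 : (4 : ℝ) ≤ l := by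
        have : 4 ≤ l := by omega
        exact_mod_cast this
      have h3 : 0 ≤ 1 / ((l : ℝ) + k - 1) := by
        have : (0 : ℝ) ≤ k := Nat.cast_nonneg _
        exact one_div_nonneg.2 (by linarith)
      have h4 : 1 / ((l : ℝ) - 1) ≤ 2 / u := by
        rw [div_le_div_iff₀ (by linarith) hu0]
        nlinarith
      linarith
    have h3 := mul_le_mul_of_nonneg_left h1 hC.le
    have e3 : (C * (5 * s) + 2) / u = C * (5 * s / u) + 2 / u := by ring
    rw [e3]
    linarith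

end Q78.UR
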