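import Pool.Agent.Q78.UR.Ratio

set_option autoImplicit false

/-! Two approximately log-convex sequences, one below the other: the quotient at neighbouring
places. -/

namespace Q78.UR

open Finset Filter Topology

theorem quot_aux {X X' Y Y' e C C₁ : ℝ} (hX : 0 < X) (hY : 0 ≤ Y) (hYX : Y ≤ X) (he : 0 ≤ e)
    (hC : 0 ≤ C) (hC₁ : 0 ≤ C₁) (h : C * e ≤ 1 / 2) (h1 : |X' - X| ≤ C * e * X)
    (h2 : |Y' - Y| ≤ C₁ * e * X) : |Y' / X' - Y / X| ≤ 2 * (C + C₁) * e := by
  have h3 := (abs_le.1 h1).1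
  have hX' : X / 2 ≤ X' := by nlinarith
  have hX'0 : 0 < X' := by linarith
  have e1 : Y' / X' - Y / X = ((Y' - Y) * X + Y * (X - X')) / (X' * X) := by
    field_simp
    ring
  rw [e1, abs_div, abs_of_pos (mul_pos hX'0 hX), div_le_iff₀ (mul_pos hX'0 hX)]
  have h4 : |(Y' - Y) * X + Y * (X - X')| ≤ C₁ * e * X * X + X * (C * e * X) := by
    refine (abs_add_le _ _).trans ?_
    rw [abs_mul, abs_mul, abs_of_pos hX, abs_of_nonneg hY, abs_sub_comm X X']
    refine add_le_add (mul_le_mul_of_nonneg_right h2 hX.le) ?_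
    exact mul_le_mul hYX h1 (abs_nonneg _) hX.le
  refine h4.trans ?_
  have h5 : 2 * (C + C₁) * e * (X' * X) - (C₁ * e * X * X + X * (C * e * X)) =
      (C + C₁) * e * X * (2 * X' - X) := by ring
  have h6 : 0 ≤ (C + C₁) * e * X * (2 * X' - X) := by
    have : 0 ≤ 2 * X' - X := by linarith
    positivity
  linarith

theorem sqrt_shift {a a' n : ℝ} (ha : 1 ≤ a) (haa : a ≤ a') (hn : 0 < n) :
    √(a' / n) ≤ √(a / n) * Real.exp (a' - a) := by
  have h1 : a' ≤ a * Real.exp (2 * (a' - a)) := by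
    have h2 := Real.add_one_le_exp (2 * (a' - a))
    nlinarith
  have h3 : √(a / n) * Real.exp (a' - a) = √(a * Real.exp (2 * (a' - a)) / n) := by
    rw [show a * Real.exp (2 * (a' - a)) / n = a / n * Real.exp (a' - a) ^ 2 by
      rw [← Real.exp_nat_mul]; push_cast; ring]
    rw [Real.sqrt_mul (by positivity), Real.sqrt_sq (Real.exp_pos _).le]
  rw [h3]
  exact Real.sqrt_le_sqrt (div_le_div_of_nonneg_right h1 hn.le)

theorem exp_small (δ : ℝ) (hδ : 0 < δ) : ∀ᶠ n : ℕ in atTop, Real.exp (-(δ * n)) ≤ 1 / √(n : ℝ) := by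
  have h1 : Tendsto (fun n : ℕ => (n : ℝ) ^ (1 : ℕ) * Real.exp (-δ * (n : ℝ))) atTop (𝓝 0) :=
    (Real.tendsto_pow_mul_exp_neg_atTop_nhds_zero 1).comp
      (tendsto_natCast_atTop_atTop.const_mul_atTop hδ) |>.const_mul (1 / δ) |>.congr (fun n => by
        simp only [Function.comp, pow_one]
        field_simp) |> fun h => by simpa using h
  filter_upwards [h1.eventually_lt_const (show (0 : ℝ) < 1 by norm_num),
    eventually_ge_atTop 1] with n hn hn1
  have hn0 : (0 : ℝ) < n := by exact_mod_cast hn1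
  have hn1' : (1 : ℝ) ≤ n := by exact_mod_cast hn1
  rw [le_div_iff₀ (Real.sqrt_pos.2 hn0)]
  have h2 : √(n : ℝ) ≤ n := by
    rw [Real.sqrt_le_left hn0.le]
    nlinarith
  rw [pow_one] at hn
  have e : -(δ * (n : ℝ)) = -δ * n := by ring
  rw [e]
  calc Real.exp (-δ * n) * √(n : ℝ) ≤ Real.exp (-δ * n) * n :=
        mul_le_mul_of_nonneg_left h2 (Real.exp_pos _).le
    _ = n * Real.exp (-δ * n) := mul_comm _ _
    _ ≤ 1 := hn.le

/-- **ratio and quotient at neighbouring places** -/
theorem nested (s : ℕ) (hs : 1 ≤ s) (N : ℕ) (D θ K : ℝ) (hD : 0 ≤ D) (hθ0 : 0 < θ) (hθ1 : θ < 1)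
    (hK : 0 ≤ K) : ∃ (C δ : ℝ) (N0 : ℕ), 0 < C ∧ 0 < δ ∧ 3 ≤ N0 ∧
      ∀ x y : ℕ → ℝ, Cx s N D θ K x → Cx s N D θ K y → (∀ n, y n ≤ x n) → ∀ n, N0 ≤ n →
      ∀ a : ℝ, Real.log n ^ 2 ≤ a → a ≤ δ * n → Real.exp (-a) ≤ x n →
      |x (n + s) / x n - 1| ≤ C * √(a / n) ∧
      |y (n + s) / x (n + s) - y n / x n| ≤ C * √(a / n) := by
  obtain ⟨C, δ, N0, hC, hδ, hN0, hCδ, h⟩ := ratio s hs N D θ K hD hθ0 hθ1 hK
  obtain ⟨N1, hN1⟩ := eventually_atTop.1 (exp_small (δ / 2) (by linarith))
  refine ⟨2 * (C + max C 1), δ / 2, max N0 N1, by positivity, by linarith,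
    hN0.trans (le_max_left _ _), ?_⟩
  intro x y hx hy hyx n hn a ha1 ha2 hax
  have hnN0 : N0 ≤ n := le_trans (le_max_left _ _) hn
  have hnN1 : N1 ≤ n := le_trans (le_max_right _ _) hn
  have hn3 : 3 ≤ n := hN0.trans hnN0
  have hnR : (0 : ℝ) < n := by
    have : 0 < n := by omega
    exact_mod_cast this
  have ha : 1 ≤ a := (one_le_log_sq hn3).trans ha1
  have ha3 : a ≤ δ * n := by nlinarith
  have hX : 0 < x n := lt_of_lt_of_le (Real.exp_pos _) hax
  obtain ⟨e, he⟩ : ∃ e, e = √(a / n) := ⟨_, rfl⟩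
  have he0 : 0 ≤ e := by rw [he]; exact Real.sqrt_nonneg _
  have hCe : C * e ≤ 1 / 2 := by
    refine le_trans (mul_le_mul_of_nonneg_left ?_ hC.le) hCδ
    rw [he]
    refine Real.sqrt_le_sqrt ?_
    rw [div_le_iff₀ hnR]
    exact ha3
  have r1 := h x hx n hnN0 a ha1 ha3 (Or.inl hax)
  rw [← he] at r1 ⊢
  have r2 : |y (n + s) - y n| ≤ max C 1 * e * x n := by
    obtain ⟨M, hM⟩ : ∃ M, M = max (y n) (y (n + s)) := ⟨_, rfl⟩
    have hyn := hy.nn n
    have hyn' := hy.nn (n + s)
    by_cases hc : Real.exp (-(δ * n)) ≤ M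
    · have hM0 : 0 < M := lt_of_lt_of_le (Real.exp_pos _) hc
      obtain ⟨a', ha'⟩ : ∃ a', a' = max a (-Real.log M) := ⟨_, rfl⟩
      have h1 : a ≤ a' := by rw [ha']; exact le_max_left _ _
      have h2 : Real.exp (-a') ≤ M := by
        have : -Real.log M ≤ a' := by rw [ha']; exact le_max_right _ _
        calc Real.exp (-a') ≤ Real.exp (Real.log M) := Real.exp_le_exp.2 (by linarith)
          _ = M := Real.exp_log hM0
      have h3 : a' ≤ δ * n := by
        rw [ha']
        refine max_le ha3 ?_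
        have := Real.log_le_log (Real.exp_pos _) hc
        rw [Real.log_exp] at this
        linarith
      have h4 := h y hy n hnN0 a' (ha1.trans h1) h3 (by rwa [hM, le_max_iff] at h2)
      have h5 : √(a' / n) * y n ≤ e * x n := by
        rcases le_total (-Real.log M) a with h6 | h6
        · have h7 : a' = a := by rw [ha']; exact max_eq_left h6
          rw [h7, ← he]
          exact mul_le_mul_of_nonneg_left (hyx n) he0
        · have h7 : a' = -Real.log M := by rw [ha']; exact max_eq_right h6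
          have h8 : y n ≤ Real.exp (-a') := by
            rw [h7, neg_neg, Real.exp_log hM0, hM]
            exact le_max_left _ _
          have h9 := sqrt_shift ha h1 hnR
          rw [← he] at h9
          calc √(a' / n) * y n ≤ (e * Real.exp (a' - a)) * Real.exp (-a') :=
                mul_le_mul h9 h8 hyn (by positivity)
            _ = e * Real.exp (-a) := by
                rw [mul_assoc, ← Real.exp_add]
                ring_nf
            _ ≤ e * x n := mul_le_mul_of_nonneg_left hax he0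
      calc |y (n + s) - y n| ≤ C * √(a' / n) * y n := h4
        _ = C * (√(a' / n) * y n) := by ring
        _ ≤ C * (e * x n) := mul_le_mul_of_nonneg_left h5 hC.le
        _ ≤ max C 1 * (e * x n) := mul_le_mul_of_nonneg_right (le_max_left _ _) (by positivity)
        _ = _ := by ring
    · push Not at hc
      have h1 : |y (n + s) - y n| ≤ M := by
        rw [abs_le]
        have m1 : y n ≤ M := by rw [hM]; exact le_max_left _ _
        have m2 : y (n + s) ≤ M := by rw [hM]; exact le_max_right _ _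
        constructor <;> linarith
      have h2 : Real.exp (-(δ * n)) ≤ Real.exp (-(δ / 2 * n)) * x n := by
        calc Real.exp (-(δ * n)) = Real.exp (-(δ / 2 * n)) * Real.exp (-(δ / 2 * n)) := by
              rw [← Real.exp_add]; ring_nf
          _ ≤ Real.exp (-(δ / 2 * n)) * Real.exp (-a) :=
              mul_le_mul_of_nonneg_left (Real.exp_le_exp.2 (by linarith)) (Real.exp_pos _).le
          _ ≤ _ := mul_le_mul_of_nonneg_left hax (Real.exp_pos _).le
      have h3 := hN1 n hnN1
      have h4 : 1 / √(n : ℝ) ≤ e := by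
        rw [he, Real.sqrt_div (by linarith)]
        refine div_le_div_of_nonneg_right ?_ (Real.sqrt_nonneg _)
        rw [Real.one_le_sqrt]
        exact ha
      calc |y (n + s) - y n| ≤ M := h1
        _ ≤ Real.exp (-(δ / 2 * n)) * x n := hc.le.trans h2
        _ ≤ e * x n := mul_le_mul_of_nonneg_right (h3.trans h4) hX.le
        _ ≤ max C 1 * (e * x n) := by
            have : (1 : ℝ) ≤ max C 1 := le_max_right _ _
            have h5 : 0 ≤ e * x n := by positivity
            nlinarith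
        _ = _ := by ring
  constructor
  · have h1 : x (n + s) / x n - 1 = (x (n + s) - x n) / x n := by field_simp
    rw [h1, abs_div, abs_of_pos hX, div_le_iff₀ hX]
    refine r1.trans ?_
    have h2 : 0 ≤ e * x n := by positivity
    have h3 : C ≤ 2 * (C + max C 1) := by
      have : (1 : ℝ) ≤ max C 1 := le_max_right _ _
      linarith
    calc C * e * x n = C * (e * x n) := by ring
      _ ≤ 2 * (C + max C 1) * (e * x n) := mul_le_mul_of_nonneg_right h3 h2
      _ = _ := by ring
  · exact quot_aux hX (hy.nn n) (hyx n) he0 hC.le (by positivity) hCe r1 r2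

end Q78.UR
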