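import Pool.Agent.Q78.UR.Fug

set_option autoImplicit false

/-! Random domains with finitely many values; symmetries of the honeycomb lattice. -/

namespace Q78.UR

open Finset Filter Topology MeasureTheory TH966.AK Q294.Rs

section

variable {Ω : Type} (Λ : Finset Ω) (w : Ω → ℝ)

/-- the law with weights -/
noncomputable def wlaw : @Measure Ω ⊤ :=
  ∑ ω ∈ Λ, ENNReal.ofReal (w ω / ∑ i ∈ Λ, w i) • @Measure.dirac Ω ⊤ ω

theorem wlaw_prob (hw : ∀ ω ∈ Λ, 0 ≤ w ω) (hs : 0 < ∑ ω ∈ Λ, w ω) :
    @IsProbabilityMeasure Ω ⊤ (wlaw Λ w) := by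
  letI : MeasurableSpace Ω := ⊤
  refine ⟨?_⟩
  unfold wlaw
  rw [Measure.finsetSum_apply]
  simp only [Measure.smul_apply, smul_eq_mul, measure_univ, mul_one]
  rw [← ENNReal.ofReal_sum_of_nonneg (fun i hi => div_nonneg (hw i hi) hs.le), ← sum_div,
    div_self hs.ne', ENNReal.ofReal_one]

theorem wlaw_int (hw : ∀ ω ∈ Λ, 0 ≤ w ω) (hs : 0 < ∑ ω ∈ Λ, w ω) (f : Ω → ℝ) :
    @integral Ω ℝ _ _ ⊤ (wlaw Λ w) f = (∑ ω ∈ Λ, w ω * f ω) / ∑ ω ∈ Λ, w ω := by
  letI : MeasurableSpace Ω := ⊤
  unfold wlaw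
  rw [integral_finsetSum_measure (fun i _ => ?_)]
  · simp only [integral_smul_measure, integral_dirac, smul_eq_mul]
    rw [sum_div]
    refine sum_congr rfl fun i hi => ?_
    rw [ENNReal.toReal_ofReal (div_nonneg (hw i hi) hs.le)]
    ring
  · refine Integrable.smul_measure ?_ ENNReal.ofReal_ne_top
    exact integrable_dirac (by simp)

theorem FF_wlaw {A : P → P → Prop} (hw : ∀ ω ∈ Λ, 0 ≤ w ω) (hs : 0 < ∑ ω ∈ Λ, w ω)
    (R : Ω → P → P → Prop) (n : ℕ) :
    @FF Ω ⊤ A (wlaw Λ w) R n =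
      (∑ ω ∈ Λ, w ω * ((KR A (R ω) n).card : ℝ)) / ∑ ω ∈ Λ, w ω := by
  unfold FF
  exact wlaw_int Λ w hw hs _

end

/-- the honeycomb lattice is vertex transitive -/
theorem hex_symm (a : ℤ × ℤ) : ∃ τ : ℤ × ℤ ≃ ℤ × ℤ, τ a = 0 ∧
    ∀ p q, AdjH (τ p) (τ q) ↔ AdjH p q := by
  by_cases ha : Even (a.1 + a.2)
  · refine ⟨Equiv.subRight a, by simp, fun p q => ?_⟩
    have e : (Equiv.subRight a) q - (Equiv.subRight a) p = q - p := by
      simp [Equiv.subRight]
    have e1 : Even (((Equiv.subRight a) p).1 + ((Equiv.subRight a) p).2) ↔ Even (p.1 + p.2) := by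
      have : ((Equiv.subRight a) p).1 + ((Equiv.subRight a) p).2 = (p.1 + p.2) - (a.1 + a.2) := by
        simp [Equiv.subRight]; ring
      rw [this, Int.even_sub]
      simp [ha]
    have e2 : Even (((Equiv.subRight a) q).1 + ((Equiv.subRight a) q).2) ↔ Even (q.1 + q.2) := by
      have : ((Equiv.subRight a) q).1 + ((Equiv.subRight a) q).2 = (q.1 + q.2) - (a.1 + a.2) := by
        simp [Equiv.subRight]; ring
      rw [this, Int.even_sub]
      simp [ha]
    unfold AdjH
    rw [e, e1, e2]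
  · refine ⟨Equiv.subLeft a, by simp, fun p q => ?_⟩
    have e : (Equiv.subLeft a) q - (Equiv.subLeft a) p = -(q - p) := by
      simp [Equiv.subLeft]
    have e1 : Even (((Equiv.subLeft a) p).1 + ((Equiv.subLeft a) p).2) ↔ ¬ Even (p.1 + p.2) := by
      have : ((Equiv.subLeft a) p).1 + ((Equiv.subLeft a) p).2 = (a.1 + a.2) - (p.1 + p.2) := by
        simp [Equiv.subLeft]; ring
      rw [this, Int.even_sub]
      tauto
    have e2 : Even (((Equiv.subLeft a) q).1 + ((Equiv.subLeft a) q).2) ↔ ¬ Even (q.1 + q.2) := by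
      have : ((Equiv.subLeft a) q).1 + ((Equiv.subLeft a) q).2 = (a.1 + a.2) - (q.1 + q.2) := by
        simp [Equiv.subLeft]; ring
      rw [this, Int.even_sub]
      tauto
    unfold AdjH
    rw [e, e1, e2]
    obtain ⟨d, hd⟩ : ∃ d, d = q - p := ⟨_, rfl⟩
    have hq : q.1 + q.2 = (p.1 + p.2) + (d.1 + d.2) := by
      rw [hd]; simp; ring
    rw [← hd, hq]
    constructor
    · rintro (h | h | ⟨h, h'⟩ | ⟨h, h'⟩)
      · right; left
        rw [← neg_neg d, h]; rfl
      · left
        rw [← neg_neg d, h]; rfl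
      · right; right; right
        have hd' : d = (0, -1) := by rw [← neg_neg d, h]; rfl
        refine ⟨hd', ?_⟩
        rw [hd']
        have := Int.not_even_iff_odd.1 h'
        simp only
        rw [Int.even_add]
        simp [Int.not_even_iff_odd.2 this]
      · right; right; left
        have hd' : d = (0, 1) := by rw [← neg_neg d, h]; rfl
        refine ⟨hd', ?_⟩
        rw [hd'] at h'
        simp only at h'
        rw [Int.even_add] at h'
        simpa using h'
    · rintro (h | h | ⟨h, h'⟩ | ⟨h, h'⟩)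
      · right; left
        rw [h]; rfl
      · left
        rw [h]; rfl
      · right; right; right
        refine ⟨by rw [h]; rfl, ?_⟩
        rw [h]
        simp only
        rw [Int.even_add]
        simp [h']
      · right; right; left
        refine ⟨by rw [h]; rfl, ?_⟩
        rw [h] at h'
        simp only at h'
        rw [Int.even_add] at h'
        simpa using h'

end Q78.UR
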