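import Pool.Agent.Q78.UR.Fug
import Pool.Agent.Q78.UR.Sharp2

set_option autoImplicit false

/-! The number of steps of a self-avoiding walk with a fugacity in a random domain: bounds without
logarithms. -/

namespace Q78.UR

open Finset Filter Topology MeasureTheory TH966.AK Q294.Rs

variable {A : P → P → Prop} {Z : Rule A} {μ K : ℝ}

/-- **the number of steps of a walk with a fugacity in a random domain** -/
theorem fug2 (G : Growth Z μ K) : ∃ (C κ δ : ℝ), 0 < C ∧ 1 < κ ∧ 0 < δ ∧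
    ∀ (Ω : Type) [MeasurableSpace Ω] (ν : Measure Ω) [IsProbabilityMeasure ν]
      (R : Ω → P → P → Prop), (∀ e x, MeasurableSet {ω | R ω e x}) →
      ∀ (x T : ℝ), 0 < x → x * μ ≤ κ → 0 < T → (∀ M, ∑ m ∈ range M, FF A ν R m * x ^ m ≤ T) →
      ∀ m : ℕ, C * (1 + max 0 (Real.log (1 / T))) ≤ m →
        FF A ν R m * x ^ m / T ≤ C / √(m : ℝ) ∧
        (∀ R' : Ω → P → P → Prop, (∀ e x, MeasurableSet {ω | R' ω e x}) →
          (∀ ω e x, R' ω e x → R ω e x) →
          ∀ k, ∑ i ∈ range k, |FF A ν R' (m + i + Z.s) * x ^ (m + i + Z.s) / T -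
          FF A ν R' (m + i) * x ^ (m + i) / T| ≤ C / √(m : ℝ)) ∧
        (Real.exp (-δ * m) ≤ FF A ν R m * x ^ m / T →
          |FF A ν R (m + Z.s) * x ^ (m + Z.s) / (FF A ν R m * x ^ m) - 1| ≤
            C * √((1 + Real.log (1 / (FF A ν R m * x ^ m / T))) / m) ∧
          ∀ R' : Ω → P → P → Prop, (∀ e x, MeasurableSet {ω | R' ω e x}) →
            (∀ ω e x, R' ω e x → R ω e x) →
            |FF A ν R' (m + Z.s) / FF A ν R (m + Z.s) - FF A ν R' m / FF A ν R m| ≤
              C * √((1 + Real.log (1 / (FF A ν R m * x ^ m / T))) / m)) := by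
  obtain ⟨D, θ, N, hD, hθ0, hθ1, hcx⟩ := mixture G
  obtain ⟨r, hr⟩ : ∃ r, r = √(√θ) := ⟨_, rfl⟩
  have hr0 : 0 < r := by rw [hr]; exact Real.sqrt_pos.2 (Real.sqrt_pos.2 hθ0)
  have hr4 : r ^ 4 = θ := by
    have h1 : r ^ 2 = √θ := by rw [hr]; exact Real.sq_sqrt (Real.sqrt_nonneg _)
    rw [show r ^ 4 = (r ^ 2) ^ 2 by ring, h1, Real.sq_sqrt hθ0.le]
  have hr1 : r < 1 := by
    by_contra hc
    push Not at hc
    have : (1 : ℝ) ≤ r ^ 4 := one_le_pow₀ hc
    rw [hr4] at this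
    linarith
  have hμ : 0 < μ := by linarith [G.hμ]
  have hlr : 0 < Real.log (1 / r) := Real.log_pos (by rw [lt_div_iff₀ hr0]; linarith)
  obtain ⟨C1, N1, hC1, hN1, h1⟩ := sharp Z.s G.hs D r hD hr0 hr1
  obtain ⟨C2, N2, hC2, hN2, h2⟩ := sharp Z.s G.hs D r hD hr0 hr1
  obtain ⟨C3, δ3, N3, hC3, hδ3, hN3, h3⟩ := nested1 Z.s G.hs D r hD hr0 hr1
  obtain ⟨N4, hN4⟩ := eventually_atTop.1 (log_lin hδ3)
  obtain ⟨B, hB⟩ : ∃ B : ℝ, B = 2 * N + 2 / Real.log (1 / r) + 2 + N1 + N2 + N3 + N4 := ⟨_, rfl⟩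
  refine ⟨max B (max C1 (max C2 C3)), 1 / r, δ3 / 2, ?_, by rw [lt_div_iff₀ hr0]; linarith,
    by linarith, ?_⟩
  · exact lt_of_lt_of_le hC1 ((le_max_left _ _).trans (le_max_right _ _))
  intro Ω _ ν _ R hR x T hx hxκ hT hsum m hm
  have hc1 : C1 ≤ max B (max C1 (max C2 C3)) := (le_max_left _ _).trans (le_max_right _ _)
  have hc2 : C2 ≤ max B (max C1 (max C2 C3)) :=
    (le_max_left _ _).trans ((le_max_right _ _).trans (le_max_right _ _))
  have hc3 : C3 ≤ max B (max C1 (max C2 C3)) :=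
    (le_max_right _ _).trans ((le_max_right _ _).trans (le_max_right _ _))
  have hc0 : B ≤ max B (max C1 (max C2 C3)) := le_max_left _ _
  have hL0 : 0 ≤ max 0 (Real.log (1 / T)) := le_max_left _ _
  obtain ⟨L, hL⟩ : ∃ L, L = max 0 (Real.log (1 / T)) := ⟨_, rfl⟩
  rw [← hL] at hm hL0
  have hmB : B * (1 + L) ≤ m := (mul_le_mul_of_nonneg_right hc0 (by linarith)).trans hm
  obtain ⟨M, hM⟩ : ∃ M : ℕ, M = ⌈L / Real.log (1 / r)⌉₊ := ⟨_, rfl⟩
  have hMle : (M : ℝ) ≤ L / Real.log (1 / r) + 1 := by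
    rw [hM]; exact (Nat.ceil_lt_add_one (by positivity)).le
  have hi0 : 0 ≤ 1 / Real.log (1 / r) := by positivity
  have hB0 : (0 : ℝ) ≤ 2 * N + 2 + N1 + N2 + N3 + N4 := by positivity
  have e2 : 2 / Real.log (1 / r) = 2 * (1 / Real.log (1 / r)) := by ring
  have e3 : L / Real.log (1 / r) = L * (1 / Real.log (1 / r)) := by ring
  obtain ⟨q, hq⟩ : ∃ q, q = 1 / Real.log (1 / r) := ⟨_, rfl⟩
  have hBm : 2 * (N : ℝ) + 2 * M + N1 + N2 + N3 + N4 ≤ m := by
    refine le_trans ?_ hmB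
    rw [hB, e2]
    rw [e3] at hMle
    rw [← hq] at hMle hi0 ⊢
    have h5 : 0 ≤ (2 * (N : ℝ) + 2 + N1 + N2 + N3 + N4) * L := by positivity
    have h6 : 0 ≤ q * L := by positivity
    nlinarith
  have hBm' : 2 * N + 2 * M + N1 + N2 + N3 + N4 ≤ m := by exact_mod_cast hBm
  have hkey := nat_index hr0 hr1 hT
  rw [← hL, ← hM] at hkey
  have hlamr : x * μ * r ≤ 1 := by
    rw [le_div_iff₀ hr0] at hxκ
    exact hxκ
  have hXY : ∀ (R' : Ω → P → P → Prop) (k : ℕ), FF A ν R' k / μ ^ k * (x * μ) ^ k =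
      FF A ν R' k * x ^ k := by
    intro R' k
    rw [mul_pow]
    field_simp
  have hle : ∀ k, FF A ν R k * x ^ k ≤ T := by
    intro k
    refine le_trans ?_ (hsum (k + 1))
    refine single_le_sum (f := fun m => FF A ν R m * x ^ m) (fun i _ => ?_)
      (mem_range.2 (Nat.lt_succ_self k))
    exact mul_nonneg (FF_nonneg ν R i) (by positivity)
  have hmk : ∀ R' : Ω → P → P → Prop, (∀ e x, MeasurableSet {ω | R' ω e x}) →
      (∀ ω e x, R' ω e x → R ω e x) →
      Cx Z.s (max N M) D r 0 (fun k => FF A ν R' k * x ^ k / T) := by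
    intro R' hR' hsub
    have h := px (M := M) (s := Z.s) (N := N) (D := D) (K := K) (r := r)
      (X := fun k => FF A ν R' k / μ ^ k) (lam := x * μ) (T := T)
      (by rw [hr4]; exact hcx Ω ν R' hR') hr0 (by positivity) hlamr hT hkey (fun k => by
        show FF A ν R' k / μ ^ k * (x * μ) ^ k ≤ T
        rw [hXY]
        exact (mul_le_mul_of_nonneg_right (FF_mono ν hR hR' hsub k) (by positivity)).trans (hle k))
    simp only [hXY] at h
    exact h
  have hPx := hmk R hR (fun _ _ _ h => h)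
  have h2N : 2 * max N M ≤ m := by
    rcases le_total N M with h | h
    · rw [max_eq_right h]; omega
    · rw [max_eq_left h]; omega
  have hsq : 0 ≤ 1 / √(m : ℝ) := by positivity
  have hsumP : ∀ R' : Ω → P → P → Prop, (∀ e x, MeasurableSet {ω | R' ω e x}) →
      (∀ ω e x, R' ω e x → R ω e x) → ∀ Q, ∑ n ∈ range Q, FF A ν R' n * x ^ n / T ≤ 1 := by
    intro R' hR' hsub Q
    rw [← sum_div, div_le_one hT]
    refine le_trans (sum_le_sum fun n _ => ?_) (hsum Q)
    exact mul_le_mul_of_nonneg_right (FF_mono ν hR hR' hsub n) (by positivity)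
  refine ⟨?_, ?_, ?_⟩
  · have h := (h1 _ _ hPx (hsumP R hR fun _ _ _ h => h) m (by omega) h2N).1
    refine h.trans ?_
    rw [div_eq_mul_one_div, div_eq_mul_one_div (max _ _)]
    exact mul_le_mul_of_nonneg_right hc1 hsq
  · intro R' hR' hsub k
    have h := (h1 _ _ (hmk R' hR' hsub) (hsumP R' hR' hsub) m (by omega) h2N).2 k
    refine h.trans ?_
    rw [div_eq_mul_one_div, div_eq_mul_one_div (max _ _)]
    exact mul_le_mul_of_nonneg_right hc1 hsq
  · intro hexp
    have hm0 : (0 : ℝ) < m := by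
      have : 0 < m := by omega
      exact_mod_cast this
    obtain ⟨p, hp⟩ : ∃ p, p = FF A ν R m * x ^ m / T := ⟨_, rfl⟩
    rw [← hp] at hexp ⊢
    have hp0 : 0 < p := lt_of_lt_of_le (Real.exp_pos _) hexp
    have hp1 : p ≤ 1 := by rw [hp, div_le_one hT]; exact hle m
    have hlp : 0 ≤ Real.log (1 / p) := Real.log_nonneg (by rw [le_div_iff₀ hp0]; linarith)
    have hlp2 : Real.log (1 / p) ≤ δ3 / 2 * m := by
      rw [one_div, Real.log_inv]
      have := Real.log_le_log (Real.exp_pos _) hexp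
      rw [Real.log_exp] at this
      linarith
    have h5 := hN4 m (by omega)
    have hlogm : 0 ≤ Real.log (m : ℝ) := Real.log_nonneg (by
      have : 1 ≤ m := by omega
      exact_mod_cast this)
    have hexpa : Real.exp (-(1 + Real.log (1 / p))) ≤ p := by
      rw [neg_add, Real.exp_add, one_div, Real.log_inv, neg_neg, Real.exp_log hp0]
      have : Real.exp (-1) ≤ 1 := Real.exp_le_one_iff.2 (by norm_num)
      nlinarith
    have hsq' : 0 ≤ √((1 + Real.log (1 / p)) / m) := Real.sqrt_nonneg _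
    have happ : ∀ R' : Ω → P → P → Prop, (∀ e x, MeasurableSet {ω | R' ω e x}) →
      (∀ ω e x, R' ω e x → R ω e x) → _ := fun R' hR' hsub =>
        h3 _ _ _ hPx (hmk R' hR' hsub) (fun k => div_le_div_of_nonneg_right
          (mul_le_mul_of_nonneg_right (FF_mono ν hR hR' hsub k) (by positivity)) hT.le) m (by omega)
          h2N (1 + Real.log (1 / p)) (by linarith) (by linarith) (by rw [← hp]; exact hexpa)
    refine ⟨?_, fun R' hR' hsub => ?_⟩
    · have h := (happ R hR (fun _ _ _ h => h)).1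
      have e : FF A ν R (m + Z.s) * x ^ (m + Z.s) / T / (FF A ν R m * x ^ m / T) =
          FF A ν R (m + Z.s) * x ^ (m + Z.s) / (FF A ν R m * x ^ m) := by
        rw [div_div_div_cancel_right₀ hT.ne']
      rw [e] at h
      exact h.trans (mul_le_mul_of_nonneg_right hc3 hsq')
    · have h := (happ R' hR' hsub).2
      have e : ∀ k, FF A ν R' k * x ^ k / T / (FF A ν R k * x ^ k / T) =
          FF A ν R' k / FF A ν R k := by
        intro k
        rw [div_div_div_cancel_right₀ hT.ne', mul_div_mul_right _ _ (by positivity)]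
      rw [e, e] at h
      exact h.trans (mul_le_mul_of_nonneg_right hc3 hsq')

end Q78.UR
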