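import Pool.Agent.Q78.UR.Cond
import Pool.Agent.Q294.Rs2

set_option autoImplicit false

/-! Kesten's inequality for walks in a random domain, uniformly in the law of the domain. -/

namespace Q78.UR

open Finset Filter Topology MeasureTheory TH966.AK Q294.Rs
open scoped Classical

variable {A : P → P → Prop} {Z : Rule A} {μ K : ℝ}

/-- the mean number of walks whose vertices satisfy a random relation to the end point -/
noncomputable def FF {Ω : Type} [MeasurableSpace Ω] (A : P → P → Prop) (ν : Measure Ω)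
    (R : Ω → P → P → Prop) (n : ℕ) : ℝ := ∫ ω, ((KR A (R ω) n).card : ℝ) ∂ν

theorem card_sum {Ω : Type} (R : Ω → P → P → Prop) (n : ℕ) (ω : Ω) :
    ((KR A (R ω) n).card : ℝ) =
      ∑ w ∈ Kw A n, Set.indicator {ω | ∀ x ∈ w, R ω (lst w) x} (fun _ => (1 : ℝ)) ω := by
  unfold KR
  rw [Finset.card_filter]
  push_cast
  refine Finset.sum_congr rfl fun w _ => ?_
  rw [Set.indicator_apply]
  rfl

theorem meas_set {Ω : Type} [MeasurableSpace Ω] {R : Ω → P → P → Prop}
    (hR : ∀ e x, MeasurableSet {ω | R ω e x}) (w : List P) :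
    MeasurableSet {ω | ∀ x ∈ w, R ω (lst w) x} := by
  have e : {ω | ∀ x ∈ w, R ω (lst w) x} = ⋂ x ∈ w.toFinset, {ω | R ω (lst w) x} := by
    ext ω
    simp
  rw [e]
  exact Finset.measurableSet_biInter _ fun x _ => hR _ _

theorem integrable_card {Ω : Type} [MeasurableSpace Ω] (ν : Measure Ω) [IsProbabilityMeasure ν]
    {R : Ω → P → P → Prop} (hR : ∀ e x, MeasurableSet {ω | R ω e x}) (n : ℕ) :
    Integrable (fun ω => ((KR A (R ω) n).card : ℝ)) ν := by
  simp only [card_sum]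
  refine integrable_finsetSum _ fun w _ => ?_
  exact (integrable_const (1 : ℝ)).indicator (meas_set hR w)

theorem FF_nonneg {Ω : Type} [MeasurableSpace Ω] (ν : Measure Ω) (R : Ω → P → P → Prop) (n : ℕ) :
    0 ≤ FF A ν R n := integral_nonneg fun _ => Nat.cast_nonneg _

theorem FF_mono {Ω : Type} [MeasurableSpace Ω] (ν : Measure Ω) [IsProbabilityMeasure ν]
    {R R' : Ω → P → P → Prop} (hR : ∀ e x, MeasurableSet {ω | R ω e x})
    (hR' : ∀ e x, MeasurableSet {ω | R' ω e x}) (h : ∀ ω e x, R' ω e x → R ω e x) (n : ℕ) :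
    FF A ν R' n ≤ FF A ν R n := by
  refine integral_mono (integrable_card ν hR' n) (integrable_card ν hR n) fun ω => ?_
  have : KR A (R' ω) n ⊆ KR A (R ω) n := by
    intro w hw
    rw [mem_KR] at hw ⊢
    exact ⟨hw.1, fun x hx => h _ _ _ (hw.2 x hx)⟩
  show ((KR A (R' ω) n).card : ℝ) ≤ ((KR A (R ω) n).card : ℝ)
  exact_mod_cast card_le_card this

theorem FF_le {Ω : Type} [MeasurableSpace Ω] (ν : Measure Ω) [IsProbabilityMeasure ν]
    {R : Ω → P → P → Prop} (hR : ∀ e x, MeasurableSet {ω | R ω e x}) (n : ℕ) :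
    FF A ν R n ≤ (Kw A n).card := by
  have h1 : FF A ν R n ≤ ∫ _ : Ω, ((Kw A n).card : ℝ) ∂ν :=
    integral_mono (integrable_card ν hR n) (integrable_const _) fun ω => card_KR (R ω) n
  rwa [integral_const, probReal_univ, one_smul] at h1

theorem sq_of_lin {v p q : ℝ} (hv : 0 < v) (hp : 0 ≤ p) (hq : 0 ≤ q)
    (h : ∀ t : ℝ, 0 < t → v ≤ (p * t + q / t) / 2) : v ^ 2 ≤ p * q := by
  rcases hp.eq_or_lt with rfl | hp
  · exfalso
    have h1 := h (q / v + 1) (by positivity)
    rw [zero_mul, zero_add, le_div_iff₀ (by norm_num), le_div_iff₀ (by positivity)] at h1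
    have h2 : v * 2 * (q / v + 1) = 2 * q + 2 * v := by field_simp
    linarith
  · have h1 := h (v / p) (by positivity)
    have e : p * (v / p) = v := by field_simp
    have e2 : q / (v / p) = p * q / v := by field_simp
    rw [e, e2] at h1
    have h2 : v ≤ p * q / v := by linarith
    rw [le_div_iff₀ hv] at h2
    nlinarith

theorem lin_of_sq {v p q t : ℝ} (hv : 0 ≤ v) (hp : 0 ≤ p) (hq : 0 ≤ q) (ht : 0 < t)
    (h : v ^ 2 ≤ p * q) : v ≤ (p * t + q / t) / 2 := by
  have h1 : p * q = (p * t) * (q / t) := by field_simp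
  have h2 : v ^ 2 ≤ ((p * t + q / t) / 2) ^ 2 := by
    rw [h1] at h
    nlinarith [sq_nonneg (p * t - q / t)]
  exact (pow_le_pow_iff_left₀ hv (by positivity) (by norm_num)).1 h2

theorem exp_err {r D : ℝ} (h0 : 0 < r) (h1 : r < 1) (hD : 0 ≤ D) (s : ℕ) :
    ∀ᶠ n : ℕ in atTop, r ^ (n + s) ≤ 1 / 2 ∧
      (1 + D / n) ≤ (1 + (D + 1) / n) * (1 - r ^ (n + s)) ^ 2 := by
  have h2 : Tendsto (fun n : ℕ => (n : ℝ) ^ 1 * r ^ n) atTop (𝓝 0) :=
    tendsto_pow_const_mul_const_pow_of_abs_lt_one 1 (by rw [abs_of_pos h0]; exact h1)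
  filter_upwards [h2.eventually_lt_const (show (0 : ℝ) < 1 / (2 * (D + 2)) by positivity),
    eventually_ge_atTop 1] with n hn hn1
  have hnR : (1 : ℝ) ≤ n := by exact_mod_cast hn1
  have hn0 : (0 : ℝ) < n := by linarith
  obtain ⟨η, hη⟩ : ∃ η, η = r ^ (n + s) := ⟨_, rfl⟩
  have hη0 : 0 < η := by rw [hη]; positivity
  have hηr : η ≤ r ^ n := by
    rw [hη]
    exact pow_le_pow_of_le_one h0.le h1.le (by omega)
  have h3 : n * η ≤ 1 / (2 * (D + 2)) := by
    rw [pow_one] at hn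
    exact (mul_le_mul_of_nonneg_left hηr hn0.le).trans hn.le
  have h4 : n * η * (2 * (D + 2)) ≤ 1 := by
    rwa [le_div_iff₀ (by positivity)] at h3
  have h4' : η ≤ n * η := by nlinarith
  have h5 : η ≤ 1 / 2 := by
    have : 0 ≤ n * η * D := by positivity
    nlinarith
  rw [← hη]
  refine ⟨h5, ?_⟩
  have h6 : 1 - 2 * η ≤ (1 - η) ^ 2 := by nlinarith
  have h7 : 0 ≤ 1 + (D + 1) / n := by positivity
  refine le_trans ?_ (mul_le_mul_of_nonneg_left h6 h7)
  have e1 : (1 + (D + 1) / n) * (1 - 2 * η) - (1 + D / n) =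
      (1 - 2 * (n * η) - 2 * (D + 1) * η) / n := by
    field_simp
    ring
  have h8 : 0 ≤ (1 - 2 * (n * η) - 2 * (D + 1) * η) / n := by
    refine div_nonneg ?_ hn0.le
    have h9 : η ≤ n * η := by nlinarith
    nlinarith
  linarith

/-- **Kesten's inequality in a random domain** -/
theorem mixture (G : Growth Z μ K) : ∃ (D θ : ℝ) (N : ℕ), 0 ≤ D ∧ 0 < θ ∧ θ < 1 ∧
    ∀ (Ω : Type) [MeasurableSpace Ω] (ν : Measure Ω) [IsProbabilityMeasure ν]
      (R : Ω → P → P → Prop), (∀ e x, MeasurableSet {ω | R ω e x}) →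
      Cx Z.s N D θ K (fun n => FF A ν R n / μ ^ n) := by
  obtain ⟨D, θ, N, hD, hθ0, hθ1, hN, h⟩ := kesR (loc_of G)
  have hμ : 0 < μ := by linarith [G.hμ]
  obtain ⟨θ', hθ'⟩ : ∃ θ' : ℝ, θ' = (1 + θ) / 2 := ⟨_, rfl⟩
  have h0' : 0 < θ' := by rw [hθ']; linarith
  have hr1 : θ / θ' < 1 := by rw [div_lt_one h0', hθ']; linarith
  obtain ⟨N1, hN1⟩ := eventually_atTop.1 (exp_err (r := θ / θ') (D := D) (by positivity) hr1 hD Z.s)
  refine ⟨D + 1, θ', max N N1, by linarith, h0', by rw [hθ']; linarith, ?_⟩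
  intro Ω _ ν _ R hR
  refine ⟨fun n => div_nonneg (FF_nonneg ν R n) (by positivity), fun n hn => ?_,
    fun n hn hbig => ?_⟩
  · rw [div_le_iff₀ (by positivity), mul_comm]
    exact (FF_le ν hR n).trans (G.up n hn)
  · have hnN : N ≤ n := le_trans (le_max_left _ _) hn
    have hnN1 : N1 ≤ n := le_trans (le_max_right _ _) hn
    have hn0 : (0 : ℝ) < n := by
      have : 0 < n := by omega
      exact_mod_cast this
    obtain ⟨κ, hκ⟩ : ∃ κ : ℝ, κ = 1 + D / n := ⟨_, rfl⟩
    have hκ0 : 0 < κ := by rw [hκ]; positivity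
    have es : n + 2 * Z.s = n + Z.s + Z.s := by ring
    rw [es]
    -- the inequality for a fixed relation, in linear form
    have key : ∀ t : ℝ, 0 < t → FF A ν R (n + Z.s) ≤ (θ * μ) ^ (n + Z.s) +
        (κ * FF A ν R n * t + FF A ν R (n + Z.s + Z.s) / t) / 2 := by
      intro t ht
      have hpt : ∀ ω, ((KR A (R ω) (n + Z.s)).card : ℝ) ≤ (θ * μ) ^ (n + Z.s) +
          (κ / 2 * t * ((KR A (R ω) n).card : ℝ) +
            1 / (2 * t) * ((KR A (R ω) (n + Z.s + Z.s)).card : ℝ)) := by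
        intro ω
        have hc0 : (0 : ℝ) ≤ ((KR A (R ω) n).card : ℝ) := Nat.cast_nonneg _
        have hc2 : (0 : ℝ) ≤ ((KR A (R ω) (n + Z.s + Z.s)).card : ℝ) := Nat.cast_nonneg _
        have hθμ : 0 ≤ (θ * μ) ^ (n + Z.s) := by positivity
        by_cases hc : (θ * μ) ^ (n + Z.s) ≤ ((KR A (R ω) (n + Z.s)).card : ℝ)
        · have h1 := h (R ω) n hnN hc
          have h2 := lin_of_sq (v := ((KR A (R ω) (n + Z.s)).card : ℝ))
            (p := κ * ((KR A (R ω) n).card : ℝ))
            (q := ((KR A (R ω) (n + Z.s + Z.s)).card : ℝ)) (t := t)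
            (Nat.cast_nonneg _) (by positivity) hc2 ht (by rw [hκ]; linarith)
          have e : (κ * ((KR A (R ω) n).card : ℝ) * t +
              ((KR A (R ω) (n + Z.s + Z.s)).card : ℝ) / t) / 2 =
              κ / 2 * t * ((KR A (R ω) n).card : ℝ) +
              1 / (2 * t) * ((KR A (R ω) (n + Z.s + Z.s)).card : ℝ) := by
            field_simp
          linarith
        · push Not at hc
          have h3 : 0 ≤ κ / 2 * t * ((KR A (R ω) n).card : ℝ) +
            1 / (2 * t) * ((KR A (R ω) (n + Z.s + Z.s)).card : ℝ) := by positivity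
          linarith
      have i0 := integrable_card (A := A) ν hR n
      have i2 := integrable_card (A := A) ν hR (n + Z.s + Z.s)
      have i3 : Integrable (fun ω => κ / 2 * t * ((KR A (R ω) n).card : ℝ) +
            1 / (2 * t) * ((KR A (R ω) (n + Z.s + Z.s)).card : ℝ)) ν :=
        (i0.const_mul _).add (i2.const_mul _)
      have h4 : FF A ν R (n + Z.s) ≤ ∫ ω, ((θ * μ) ^ (n + Z.s) +
          (κ / 2 * t * ((KR A (R ω) n).card : ℝ) +
            1 / (2 * t) * ((KR A (R ω) (n + Z.s + Z.s)).card : ℝ))) ∂ν :=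
        integral_mono (integrable_card ν hR _) ((integrable_const _).add i3) hpt
      rw [integral_add (integrable_const _) i3, integral_const, probReal_univ, one_smul,
        integral_add (i0.const_mul _) (i2.const_mul _), integral_const_mul,
        integral_const_mul] at h4
      refine h4.trans (le_of_eq ?_)
      unfold FF
      field_simp
    obtain ⟨η, hη⟩ : ∃ η, η = (θ / θ') ^ (n + Z.s) := ⟨_, rfl⟩
    obtain ⟨e1, e2⟩ := hN1 n hnN1
    rw [← hη] at e1 e2
    have hη0 : 0 < η := by rw [hη]; positivity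
    have hbig' : (θ' * μ) ^ (n + Z.s) ≤ FF A ν R (n + Z.s) := by
      rw [mul_pow]
      rwa [le_div_iff₀ (by positivity)] at hbig
    have hF : 0 < FF A ν R (n + Z.s) := lt_of_lt_of_le (by positivity) hbig'
    have hsmall : (θ * μ) ^ (n + Z.s) ≤ η * FF A ν R (n + Z.s) := by
      have : (θ * μ) ^ (n + Z.s) = η * (θ' * μ) ^ (n + Z.s) := by
        rw [hη, ← mul_pow]
        congr 1
        field_simp
      rw [this]
      exact mul_le_mul_of_nonneg_left hbig' hη0.le
    have hsq := sq_of_lin (v := (1 - η) * FF A ν R (n + Z.s)) (p := κ * FF A ν R n)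
      (q := FF A ν R (n + Z.s + Z.s)) (mul_pos (by linarith) hF)
      (mul_nonneg hκ0.le (FF_nonneg ν R n)) (FF_nonneg ν R _) (fun t ht => by
        have := key t ht
        linarith)
    have h5 : FF A ν R (n + Z.s) ^ 2 ≤
        FF A ν R n * FF A ν R (n + Z.s + Z.s) * (1 + (D + 1) / n) := by
      have h6 : (1 - η) ^ 2 * FF A ν R (n + Z.s) ^ 2 ≤ (1 - η) ^ 2 *
          (FF A ν R n * FF A ν R (n + Z.s + Z.s) * (1 + (D + 1) / n)) := by
        calc (1 - η) ^ 2 * FF A ν R (n + Z.s) ^ 2 = ((1 - η) * FF A ν R (n + Z.s)) ^ 2 := by ring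
          _ ≤ κ * FF A ν R n * FF A ν R (n + Z.s + Z.s) := hsq
          _ = (FF A ν R n * FF A ν R (n + Z.s + Z.s)) * κ := by ring
          _ ≤ (FF A ν R n * FF A ν R (n + Z.s + Z.s)) * ((1 + (D + 1) / n) * (1 - η) ^ 2) := by
              refine mul_le_mul_of_nonneg_left ?_ (mul_nonneg (FF_nonneg ν R n) (FF_nonneg ν R _))
              rw [hκ]
              exact e2
          _ = _ := by ring
      have h7 : 0 < (1 - η) ^ 2 := by
        have : 0 < 1 - η := by linarith
        positivity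
      exact le_of_mul_le_mul_left h6 h7
    have e3 : (μ ^ (n + Z.s)) ^ 2 = μ ^ n * μ ^ (n + Z.s + Z.s) := by
      rw [← pow_mul, ← pow_add]
      congr 1
      ring
    show (FF A ν R (n + Z.s) / μ ^ (n + Z.s)) ^ 2 ≤
      FF A ν R n / μ ^ n * (FF A ν R (n + Z.s + Z.s) / μ ^ (n + Z.s + Z.s)) * (1 + (D + 1) / n)
    rw [div_pow, div_mul_div_comm, div_mul_eq_mul_div, e3]
    exact div_le_div_of_nonneg_right h5 (by positivity)

end Q78.UR
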