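import Pool.Agent.Q78.UR.Fin
import Pool.Agent.Q78.Z3.Mom
import Pool.Agent.Q68.PL.Lat

set_option autoImplicit false

/-! Self-avoiding walks on a planar lattice in a random domain: means of functions of the end
point. -/

namespace Q78.UR

open Finset Filter Topology MeasureTheory TH966.AK Q294.Rs Q68.PL
open scoped Classical

variable {A : P → P → Prop} {Z : Rule A} {μ K : ℝ}

/-- the sum of a (random) function of the end point over the walks in a random domain -/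
noncomputable def TT {Ω : Type} [MeasurableSpace Ω] (A : P → P → Prop) (ν : Measure Ω)
    (R : Ω → P → P → Prop) (f : Ω → P → ℝ) (n : ℕ) : ℝ :=
  ∫ ω, ∑ w ∈ KR A (R ω) n, f ω (lst w) ∂ν

/-- the random threshold -/
def RU {Ω : Type} (R : Ω → P → P → Prop) (f : Ω → P → ℝ) : Ω × ℝ → P → P → Prop :=
  fun z e x => R z.1 e x ∧ z.2 ≤ f z.1 e

theorem RU_meas {Ω : Type} [MeasurableSpace Ω] {R : Ω → P → P → Prop} {f : Ω → P → ℝ}
    (hR : ∀ e x, MeasurableSet {ω | R ω e x}) (hf : ∀ e, Measurable fun ω => f ω e) (e x : P) :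
    MeasurableSet {z : Ω × ℝ | RU R f z e x} := by
  have h1 : MeasurableSet {z : Ω × ℝ | R z.1 e x} := measurable_fst (hR e x)
  have h2 : MeasurableSet {z : Ω × ℝ | z.2 ≤ f z.1 e} :=
    measurableSet_le measurable_snd ((hf e).comp measurable_fst)
  exact h1.inter h2

/-- words as functions -/
theorem exists_fun (Z : Rule A) {n : ℕ} {w : List P} (hw : w ∈ Kw A n) :
    ∃ f ∈ wks A n, w = List.ofFn f ∧ lst w = f (Fin.last n) := by
  rw [← Finset.mem_coe, ← image_wks Z n, Set.mem_image] at hw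
  obtain ⟨f, hf, rfl⟩ := hw
  exact ⟨f, hf, rfl, lst_ofFn f⟩

theorem KR_RU (Z : Rule A) {Ω : Type} (R : Ω → P → P → Prop) (f : Ω → P → ℝ) (n : ℕ) (z : Ω × ℝ) :
    KR A (RU R f z) n = (KR A (R z.1) n).filter (fun w => z.2 ≤ f z.1 (lst w)) := by
  ext w
  rw [Finset.mem_filter, mem_KR, mem_KR]
  unfold RU
  constructor
  · rintro ⟨h1, h2⟩
    obtain ⟨g, hg, hw, -⟩ := exists_fun Z h1
    have hp : g 0 ∈ w := by
      rw [hw, List.mem_ofFn]
      exact ⟨0, rfl⟩
    exact ⟨⟨h1, fun p hp => (h2 p hp).1⟩, (h2 _ hp).2⟩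
  · rintro ⟨⟨h1, h2⟩, h3⟩
    exact ⟨h1, fun p hp => ⟨h2 p hp, h3⟩⟩

/-- **random thresholds** -/
theorem FF_RU (Z : Rule A) {Ω : Type} [MeasurableSpace Ω] (ν : Measure Ω) [IsProbabilityMeasure ν]
    {R : Ω → P → P → Prop} {f : Ω → P → ℝ} (hR : ∀ e x, MeasurableSet {ω | R ω e x})
    (hf : ∀ e, Measurable fun ω => f ω e) (h0 : ∀ ω e, 0 ≤ f ω e) (h1 : ∀ ω e, f ω e ≤ 1) (n : ℕ) :
    FF A (ν.prod Q78.Z3.lam) (RU R f) n = TT A ν R f n := by
  unfold FF TT
  rw [integral_prod _ (integrable_card (ν.prod Q78.Z3.lam) (RU_meas hR hf) n)]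
  congr 1
  funext ω
  have e : (fun u => ((KR A (RU R f (ω, u)) n).card : ℝ)) = fun u =>
      ∑ w ∈ KR A (R ω) n, (Set.Iic (f ω (lst w))).indicator (fun _ => (1 : ℝ)) u := by
    funext u
    rw [KR_RU Z, Finset.card_filter]
    push_cast
    refine Finset.sum_congr rfl fun w _ => ?_
    rw [Set.indicator_apply]
    rfl
  rw [e, integral_finsetSum _ fun w _ =>
    (integrable_const (1 : ℝ)).indicator measurableSet_Iic]
  refine Finset.sum_congr rfl fun w _ => ?_
  rw [integral_indicator_const _ measurableSet_Iic, smul_eq_mul, mul_one,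
    Q78.Z3.lam_Iic (h0 _ _) (h1 _ _)]

/-- the admissible end points -/
def Adm (pos : P → ℂ) (n : ℕ) (e : P) : Prop := e ≠ 0 ∧ ‖pos e‖ ≤ n

theorem dist_wks {pos : P → ℂ} (hP : Place A pos) {n : ℕ} {f : Fin (n + 1) → P}
    (hf : f ∈ wks A n) : ∀ i : Fin (n + 1), ‖pos (f i) - pos 0‖ ≤ (i : ℕ) := by
  intro i
  refine Fin.induction ?_ ?_ i
  · have : f 0 = 0 := hf.1
    rw [this, sub_self, norm_zero]
    simp
  · intro i ih
    have h1 : A (f i.castSucc) (f i.succ) := hf.2.2 i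
    have h2 := hP.adj _ _ h1
    have e : pos (f i.succ) - pos 0 = (pos (f i.succ) - pos (f i.castSucc)) +
        (pos (f i.castSucc) - pos 0) := by ring
    rw [e]
    refine (norm_add_le _ _).trans ?_
    rw [h2]
    simp only [Fin.val_castSucc] at ih
    simp only [Fin.val_succ]
    push_cast
    linarith

theorem adm_of (Z : Rule A) {pos : P → ℂ} (hP : Place A pos) (h0 : pos 0 = 0)
    {R : P → P → Prop} {m n : ℕ} (h1 : 1 ≤ m) (hmn : m ≤ n) {w : List P}
    (hw : w ∈ KR A R m) : Adm pos n (lst w) := by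
  rw [mem_KR] at hw
  obtain ⟨g, hg, hw', hl⟩ := exists_fun Z hw.1
  rw [hl]
  constructor
  · intro hc
    have h2 : g 0 = 0 := hg.1
    have h3 := hg.2.1 (hc.trans h2.symm)
    have h4 := congrArg Fin.val h3
    simp at h4
    omega
  · have := dist_wks hP hg (Fin.last m)
    rw [h0, sub_zero] at this
    refine this.trans ?_
    simp only [Fin.val_last]
    exact_mod_cast hmn

section
variable {pos : P → ℂ}

theorem TT_congr (Z : Rule A) (hP : Place A pos) (h0 : pos 0 = 0) {Ω : Type} [MeasurableSpace Ω]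
    (ν : Measure Ω) (R : Ω → P → P → Prop)
    {f g : Ω → P → ℝ} {m n : ℕ} (h1 : 1 ≤ m) (hmn : m ≤ n)
    (h : ∀ ω e, Adm pos n e → f ω e = g ω e) : TT A ν R f m = TT A ν R g m := by
  unfold TT
  congr 1
  funext ω
  exact Finset.sum_congr rfl fun w hw => h _ _ (adm_of Z hP h0 h1 hmn hw)

theorem integrable_TT {Ω : Type} [MeasurableSpace Ω] (ν : Measure Ω) [IsProbabilityMeasure ν]
    {R : Ω → P → P → Prop} {f : Ω → P → ℝ} (hR : ∀ e x, MeasurableSet {ω | R ω e x})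
    (hf : ∀ e, Measurable fun ω => f ω e) {B : ℝ} (hB : ∀ ω e, |f ω e| ≤ B) (n : ℕ) :
    Integrable (fun ω => ∑ w ∈ KR A (R ω) n, f ω (lst w)) ν := by
  have e : (fun ω => ∑ w ∈ KR A (R ω) n, f ω (lst w)) = fun ω => ∑ w ∈ Kw A n,
      Set.indicator {ω | ∀ x ∈ w, R ω (lst w) x} (fun ω => f ω (lst w)) ω := by
    funext ω
    unfold KR
    rw [Finset.sum_filter]
    refine Finset.sum_congr rfl fun w _ => ?_
    rw [Set.indicator_apply]
    rfl
  rw [e]
  refine integrable_finsetSum _ fun w _ => ?_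
  refine Integrable.indicator ?_ (meas_set hR w)
  exact Integrable.of_bound (hf _).aestronglyMeasurable B (Filter.Eventually.of_forall fun ω => hB _ _)

theorem TT_const {Ω : Type} [MeasurableSpace Ω] (ν : Measure Ω) (R : Ω → P → P → Prop) (c : ℝ)
    (n : ℕ) : TT A ν R (fun _ _ => c) n = c * FF A ν R n := by
  unfold TT FF
  rw [← integral_const_mul]
  congr 1
  funext ω
  rw [Finset.sum_const, nsmul_eq_mul, mul_comm]

theorem TT_smul {Ω : Type} [MeasurableSpace Ω] (ν : Measure Ω) (R : Ω → P → P → Prop)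
    (f : Ω → P → ℝ) (c : ℝ) (n : ℕ) : TT A ν R (fun ω e => c * f ω e) n = c * TT A ν R f n := by
  unfold TT
  rw [← integral_const_mul]
  congr 1
  funext ω
  rw [Finset.mul_sum]

theorem TT_mono (Z : Rule A) (hP : Place A pos) (h0 : pos 0 = 0) {Ω : Type} [MeasurableSpace Ω]
    (ν : Measure Ω) [IsProbabilityMeasure ν]
    {R : Ω → P → P → Prop} {f g : Ω → P → ℝ} (hR : ∀ e x, MeasurableSet {ω | R ω e x})
    (hf : ∀ e, Measurable fun ω => f ω e) (hg : ∀ e, Measurable fun ω => g ω e) {B : ℝ}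
    (hB : ∀ ω e, |f ω e| ≤ B) (hB' : ∀ ω e, |g ω e| ≤ B) {m n : ℕ} (h1 : 1 ≤ m) (hmn : m ≤ n)
    (h : ∀ ω e, Adm pos n e → f ω e ≤ g ω e) : TT A ν R f m ≤ TT A ν R g m := by
  unfold TT
  refine integral_mono (integrable_TT ν hR hf hB m) (integrable_TT ν hR hg hB' m) fun ω => ?_
  exact Finset.sum_le_sum fun w hw => h _ _ (adm_of Z hP h0 h1 hmn hw)

/-- **means of functions of the end point in a random domain** -/
theorem means (G : Growth Z μ K) (hP : Place A pos) (h0 : pos 0 = 0) :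
    ∃ (C δ : ℝ) (N : ℕ), 0 < C ∧ 0 < δ ∧
    ∀ (Ω : Type) [MeasurableSpace Ω] (ν : Measure Ω) [IsProbabilityMeasure ν]
      (R : Ω → P → P → Prop), (∀ e x, MeasurableSet {ω | R ω e x}) →
      ∀ n, N ≤ n → Real.exp (-δ * n) ≤ PP A ν R n →
      ∀ (f : Ω → P → ℝ) (s b : ℝ), (∀ e, Measurable fun ω => f ω e) → 0 < s → 0 ≤ b → b ≤ δ * n →
        (∀ ω e, Adm pos (n + Z.s) e → s ≤ f ω e ∧ f ω e ≤ s * Real.exp b) →
        |TT A ν R f (n + Z.s) / FF A ν R (n + Z.s) / (TT A ν R f n / FF A ν R n) - 1| ≤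
          C * √((Real.log (1 / PP A ν R n) + b + Real.log n ^ 2) / n) ∧
        ∀ (R' : Ω → P → P → Prop) (g : Ω → P → ℝ), (∀ e x, MeasurableSet {ω | R' ω e x}) →
          (∀ ω e x, R' ω e x → R ω e x) → (∀ e, Measurable fun ω => g ω e) →
          (∀ ω e, Adm pos (n + Z.s) e → 0 ≤ g ω e ∧ g ω e ≤ f ω e) →
          |TT A ν R' g (n + Z.s) / TT A ν R f (n + Z.s) - TT A ν R' g n / TT A ν R f n| ≤
            C * √((Real.log (1 / PP A ν R n) + b + Real.log n ^ 2) / n) := by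
  obtain ⟨C, δ, N, hC, hδ, hN, hmain⟩ := main G
  have hcpos : ∀ n, (0 : ℝ) < ((Kw A n).card : ℝ) := fun n =>
    lt_of_lt_of_le (by have := G.hμ; positivity) (G.low n)
  have hs1 : 1 ≤ Z.s := G.hs
  obtain ⟨δ', hδ'⟩ : ∃ δ', δ' = min (δ / 2) (1 / (16 * C ^ 2)) := ⟨_, rfl⟩
  have hδ'0 : 0 < δ' := by rw [hδ']; exact lt_min (by linarith) (by positivity)
  have hδ'1 : δ' ≤ δ / 2 := by rw [hδ']; exact min_le_left _ _
  have hδ'2 : δ' ≤ 1 / (16 * C ^ 2) := by rw [hδ']; exact min_le_right _ _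
  obtain ⟨N1, hN1⟩ := eventually_atTop.1 (log_sq_div.eventually_le_const
    (show (0 : ℝ) < 1 / (8 * C ^ 2) by positivity))
  refine ⟨4 * C, δ', max N N1, by positivity, hδ'0, ?_⟩
  intro Ω _ ν _ R hR n hn hp f s b hf hs hb0 hb hfs
  have hnN : N ≤ n := (le_max_left _ _).trans hn
  have hnN1 : N1 ≤ n := (le_max_right _ _).trans hn
  have hn0 : (0 : ℝ) < n := by
    have : 0 < n := by omega
    exact_mod_cast this
  have hPle : PP A ν R n ≤ 1 := by
    unfold PP
    rw [div_le_one (hcpos n)]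
    exact FF_le ν hR n
  have hpp : 0 < PP A ν R n := lt_of_lt_of_le (Real.exp_pos _) hp
  have hlog0 : 0 ≤ Real.log (1 / PP A ν R n) := Real.log_nonneg (by
    rw [le_div_iff₀ hpp]; linarith)
  have hlog1 : Real.log (1 / PP A ν R n) ≤ δ' * n := by
    rw [one_div, Real.log_inv]
    have := Real.log_le_log (Real.exp_pos _) hp
    rw [Real.log_exp] at this
    linarith
  obtain ⟨B, hB⟩ : ∃ B, B = Real.log (1 / PP A ν R n) + b := ⟨_, rfl⟩
  have hB0 : 0 ≤ B := by rw [hB]; linarith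
  have hlogB : Real.log (1 / PP A ν R n) ≤ B := by rw [hB]; linarith
  rw [← hB]
  obtain ⟨r, hr⟩ : ∃ r, r = √((B + Real.log n ^ 2) / n) := ⟨_, rfl⟩
  rw [← hr]
  have hr0 : 0 ≤ r := by rw [hr]; exact Real.sqrt_nonneg _
  have hrsq : (B + Real.log n ^ 2) / n ≤ (1 / (2 * C)) ^ 2 := by
    rw [add_div]
    have h1 := hN1 n hnN1
    have h2 : B / n ≤ 2 * δ' := by
      rw [div_le_iff₀ hn0, hB]
      linarith
    have e : (1 / (2 * C)) ^ 2 = 2 * (1 / (16 * C ^ 2)) + 1 / (8 * C ^ 2) := by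
      field_simp
      ring
    rw [e]
    linarith
  have hCr : C * r ≤ 1 / 2 := by
    have h1 : r ≤ 1 / (2 * C) := by
      rw [hr]
      exact Real.sqrt_le_iff.2 ⟨by positivity, hrsq⟩
    calc C * r ≤ C * (1 / (2 * C)) := mul_le_mul_of_nonneg_left h1 hC.le
      _ = 1 / 2 := by field_simp
  have hmono : ∀ t : ℝ, t ≤ B → C * √((t + Real.log n ^ 2) / n) ≤ C * r := by
    intro t ht
    rw [hr]
    refine mul_le_mul_of_nonneg_left (Real.sqrt_le_sqrt ?_) hC.le
    exact div_le_div_of_nonneg_right (by linarith) hn0.le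
  -- the two truncated functions
  obtain ⟨S, hS⟩ : ∃ S, S = s * Real.exp b := ⟨_, rfl⟩
  have hS0 : 0 < S := by rw [hS]; positivity
  rw [← hS] at hfs
  obtain ⟨F, hF⟩ : ∃ F : (Ω → P → ℝ) → Ω → P → ℝ,
      F = fun f ω e => if Adm pos (n + Z.s) e then f ω e / S else 0 := ⟨_, rfl⟩
  have hFm : ∀ g : Ω → P → ℝ, (∀ e, Measurable fun ω => g ω e) →
      ∀ e, Measurable fun ω => F g ω e := by
    intro g hg e
    rw [hF]
    by_cases h : Adm pos (n + Z.s) e
    · simp only [h, if_true]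
      exact (hg e).div_const _
    · simp only [h, if_false]
      exact measurable_const
  have hF01 : ∀ g : Ω → P → ℝ, (∀ ω e, Adm pos (n + Z.s) e → 0 ≤ g ω e ∧ g ω e ≤ f ω e) →
      (∀ ω e, 0 ≤ F g ω e) ∧ (∀ ω e, F g ω e ≤ 1) ∧ ∀ ω e, F g ω e ≤ F f ω e := by
    intro g hg
    rw [hF]
    refine ⟨fun ω e => ?_, fun ω e => ?_, fun ω e => ?_⟩
    · by_cases h : Adm pos (n + Z.s) e
      · simp only [h, if_true]
        exact div_nonneg (hg ω e h).1 hS0.le
      · simp only [h, if_false, le_refl]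
    · by_cases h : Adm pos (n + Z.s) e
      · simp only [h, if_true]
        rw [div_le_one hS0]
        exact (hg ω e h).2.trans (hfs ω e h).2
      · simp only [h, if_false, zero_le_one]
    · by_cases h : Adm pos (n + Z.s) e
      · simp only [h, if_true]
        exact div_le_div_of_nonneg_right (hg ω e h).2 hS0.le
      · simp only [h, if_false, le_refl]
  have hff : ∀ ω e, Adm pos (n + Z.s) e → 0 ≤ f ω e ∧ f ω e ≤ f ω e := fun ω e h =>
    ⟨hs.le.trans (hfs ω e h).1, le_rfl⟩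
  have hTF : ∀ (R : Ω → P → P → Prop) (g : Ω → P → ℝ) (m : ℕ), 1 ≤ m → m ≤ n + Z.s →
      TT A ν R (F g) m = 1 / S * TT A ν R g m := by
    intro R g m h1 h2
    rw [← TT_smul]
    refine TT_congr Z hP h0 ν R h1 h2 fun ω e h => ?_
    rw [hF]
    simp only [h, if_true]
    ring
  obtain ⟨f0, f1, -⟩ := hF01 f hff
  have hFF : ∀ m, FF A (ν.prod Q78.Z3.lam) (RU R (F f)) m = TT A ν R (F f) m := fun m =>
    FF_RU Z ν hR (hFm f hf) f0 f1 m
  have hn1 : 1 ≤ n := by omega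
  -- lower bound
  have hlow : Real.exp (-b) * FF A ν R n ≤ TT A ν R (F f) n := by
    rw [← TT_const]
    refine TT_mono Z hP h0 ν hR (fun _ => measurable_const) (hFm f hf) (B := 1) (fun ω e => ?_)
      (fun ω e => ?_) (m := n) (n := n + Z.s) hn1 (by omega) (fun ω e h => ?_)
    · rw [abs_of_pos (Real.exp_pos _)]
      exact Real.exp_le_one_iff.2 (by linarith)
    · rw [abs_of_nonneg (f0 ω e)]
      exact f1 ω e
    · rw [hF]
      simp only [h, if_true]
      rw [le_div_iff₀ hS0, hS]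
      calc Real.exp (-b) * (s * Real.exp b) = s * (Real.exp (-b) * Real.exp b) := by ring
        _ = s := by rw [← Real.exp_add, neg_add_cancel, Real.exp_zero, mul_one]
        _ ≤ f ω e := (hfs ω e h).1
  have hPP' : Real.exp (-b) * PP A ν R n ≤ PP A (ν.prod Q78.Z3.lam) (RU R (F f)) n := by
    unfold PP
    rw [hFF, ← mul_div_assoc]
    exact div_le_div_of_nonneg_right hlow (hcpos n).le
  have hlogP : Real.log (1 / PP A (ν.prod Q78.Z3.lam) (RU R (F f)) n) ≤ B := by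
    rw [hB, one_div, Real.log_inv, one_div, Real.log_inv]
    have h := Real.log_le_log (by positivity) hPP'
    rw [Real.log_mul (Real.exp_pos _).ne' hpp.ne', Real.log_exp] at h
    linarith
  have hexpP : Real.exp (-δ * n) ≤ PP A (ν.prod Q78.Z3.lam) (RU R (F f)) n := by
    refine le_trans ?_ hPP'
    refine le_trans ?_ (mul_le_mul_of_nonneg_left hp (Real.exp_pos _).le)
    rw [← Real.exp_add]
    refine Real.exp_le_exp.2 ?_
    have := mul_le_mul_of_nonneg_right hδ'1 hn0.le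
    linarith
  obtain ⟨k1, k2⟩ := (hmain (Ω × ℝ) (ν.prod Q78.Z3.lam) (RU R (F f))
    (RU_meas hR (hFm f hf))).2.1 n hnN hexpP
  have hexp0 : Real.exp (-δ * n) ≤ PP A ν R n := by
    refine le_trans (Real.exp_le_exp.2 ?_) hp
    have := mul_le_mul_of_nonneg_right hδ'1 hn0.le
    have h2 : 0 ≤ δ / 2 * n := by positivity
    linarith
  obtain ⟨l1, -⟩ := (hmain Ω ν R hR).2.1 n hnN hexp0
  replace k1 := k1.trans (hmono _ hlogP)
  replace l1 := l1.trans (hmono _ hlogB)
  rw [hFF, hFF, hTF R f n hn1 (by omega), hTF R f (n + Z.s) (by omega) le_rfl] at k1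
  have hμ : 0 < μ := by linarith [G.hμ]
  have hFn : 0 < FF A ν R n := by
    have h1 : PP A ν R n * ((Kw A n).card : ℝ) = FF A ν R n := by
      unfold PP
      have := (hcpos n).ne'
      field_simp
    rw [← h1]
    exact mul_pos hpp (hcpos n)
  have hTn : 0 < TT A ν R f n := by
    have h1 := hTF R f n hn1 (by omega)
    have h2 : 0 < TT A ν R (F f) n := lt_of_lt_of_le (by positivity) hlow
    rw [h1] at h2
    exact pos_of_mul_pos_right h2 (by positivity)
  refine ⟨?_, ?_⟩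
  · have h3 := Q78.Z3.quot_two hCr k1 l1
    have e : 1 / S * TT A ν R f (n + Z.s) / (μ ^ Z.s * (1 / S * TT A ν R f n)) /
        (FF A ν R (n + Z.s) / (μ ^ Z.s * FF A ν R n)) =
        TT A ν R f (n + Z.s) / FF A ν R (n + Z.s) / (TT A ν R f n / FF A ν R n) := by
      field_simp
    rw [e] at h3
    calc _ ≤ 4 * (C * r) := h3
      _ = 4 * C * r := by ring
  · intro R' g hR' hsub hg hgf
    obtain ⟨g0, g1, g2⟩ := hF01 g hgf
    have h3 := (k2 (RU R' (F g)) (RU_meas hR' (hFm g hg)) (fun z e x h =>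
      ⟨hsub _ _ _ h.1, h.2.trans (g2 _ _)⟩)).trans (hmono _ hlogP)
    have hGG : ∀ m, FF A (ν.prod Q78.Z3.lam) (RU R' (F g)) m = TT A ν R' (F g) m := fun m =>
      FF_RU Z ν hR' (hFm g hg) g0 g1 m
    rw [hGG, hGG, hFF, hFF, hTF R f n hn1 (by omega), hTF R f (n + Z.s) (by omega) le_rfl,
      hTF R' g n hn1 (by omega), hTF R' g (n + Z.s) (by omega) le_rfl,
      mul_div_mul_left _ _ (by positivity), mul_div_mul_left _ _ (by positivity)] at h3
    refine h3.trans ?_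
    have : 0 ≤ C * r := by positivity
    linarith

/-- powers of the norm -/
theorem pow_bounds (hP : Place A pos) (h0 : pos 0 = 0) {m : ℕ} (q : ℝ) {e : P}
    (h : Adm pos m e) :
    Real.exp (min q 0 * Real.log m) ≤ ‖pos e‖ ^ q ∧
    ‖pos e‖ ^ q ≤ Real.exp (min q 0 * Real.log m) * Real.exp (|q| * Real.log m) := by
  obtain ⟨h1, h2⟩ := h
  have h3 := hP.sep e 0 h1
  rw [h0, sub_zero] at h3
  have h0 : 0 < ‖pos e‖ := by linarith
  have hl : 0 ≤ Real.log ‖pos e‖ := Real.log_nonneg h3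
  have hl2 : Real.log ‖pos e‖ ≤ Real.log m := Real.log_le_log h0 h2
  rw [← Real.exp_add, Real.rpow_def_of_pos h0]
  rcases le_total 0 q with hq | hq
  · rw [min_eq_right hq, abs_of_nonneg hq]
    constructor
    · refine Real.exp_le_exp.2 ?_
      nlinarith
    · refine Real.exp_le_exp.2 ?_
      nlinarith
  · rw [min_eq_left hq, abs_of_nonpos hq]
    constructor
    · refine Real.exp_le_exp.2 ?_
      nlinarith
    · refine Real.exp_le_exp.2 ?_
      nlinarith

end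

/-- the mean as a sum over functions -/
theorem sum_fun (Z : Rule A) (R : P → P → Prop) (f : P → ℝ) (n : ℕ) :
    ∑ᶠ w : {w : Fin (n + 1) → ℤ × ℤ // (w 0 = 0 ∧ Function.Injective w ∧
      ∀ i : Fin n, A (w i.castSucc) (w i.succ)) ∧ ∀ i, R (w (Fin.last n)) (w i)},
      f (w.1 (Fin.last n)) = ∑ w ∈ KR A R n, f (lst w) := by
  have e1 : ∑ᶠ w : {w : Fin (n + 1) → ℤ × ℤ // (w 0 = 0 ∧ Function.Injective w ∧
      ∀ i : Fin n, A (w i.castSucc) (w i.succ)) ∧ ∀ i, R (w (Fin.last n)) (w i)},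
      f (w.1 (Fin.last n)) = ∑ᶠ w ∈ {w : Fin (n + 1) → ℤ × ℤ | (w 0 = 0 ∧ Function.Injective w ∧
      ∀ i : Fin n, A (w i.castSucc) (w i.succ)) ∧ ∀ i, R (w (Fin.last n)) (w i)},
      f (w (Fin.last n)) :=
    finsum_set_coe_eq_finsum_mem (f := fun w : Fin (n + 1) → ℤ × ℤ => f (w (Fin.last n)))
      {w : Fin (n + 1) → ℤ × ℤ | (w 0 = 0 ∧ Function.Injective w ∧
      ∀ i : Fin n, A (w i.castSucc) (w i.succ)) ∧ ∀ i, R (w (Fin.last n)) (w i)}
  rw [e1, ← finsum_mem_coe_finset]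
  refine finsum_mem_eq_of_bijOn List.ofFn ⟨?_, List.ofFn_injective.injOn, ?_⟩ ?_
  · rintro g ⟨hg, hR⟩
    rw [Finset.mem_coe, mem_KR, ← Finset.mem_coe, ← image_wks Z n]
    refine ⟨⟨g, hg, rfl⟩, fun x hx => ?_⟩
    rw [List.mem_ofFn] at hx
    obtain ⟨i, rfl⟩ := hx
    rw [lst_ofFn]
    exact hR i
  · intro w hw
    rw [Finset.mem_coe, mem_KR] at hw
    obtain ⟨g, hg, rfl, hl⟩ := exists_fun Z hw.1
    refine ⟨g, ⟨hg, fun i => ?_⟩, rfl⟩
    have := hw.2 (g i) (by rw [List.mem_ofFn]; exact ⟨i, rfl⟩)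
    rw [lst_ofFn] at this
    exact this
  · intro g _
    rw [lst_ofFn]

end Q78.UR
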