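import Mathlib

set_option autoImplicit false

/-! Approximately log-convex sequences which are not too small at one place: ratios. -/

namespace Q78.UR

open Finset Filter Topology

/-- growth and approximate logarithmic convexity as long as the terms are not too small -/
structure Cx (s N : ℕ) (D θ K : ℝ) (x : ℕ → ℝ) : Prop where
  nn : ∀ n, 0 ≤ x n
  up : ∀ n, 2 ≤ n → x n ≤ Real.exp (K * Real.log n ^ 2)
  kes : ∀ n, N ≤ n → θ ^ (n + s) ≤ x (n + s) →
    x (n + s) ^ 2 ≤ x n * x (n + 2 * s) * (1 + D / n)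

variable {s N : ℕ} {D θ K : ℝ} {x : ℕ → ℝ}

/-- growth of the terms after a large ratio -/
theorem forward (h : Cx s N D θ K x) (hD : 0 ≤ D) {n J : ℕ} {ε b : ℝ} (hn : N ≤ n) (hn1 : 1 ≤ n)
    (hε0 : 0 < ε) (hε1 : ε ≤ 1) (hb : 0 < b) (hθ : ∀ m, n ≤ m → θ ^ m ≤ b)
    (h1 : (1 + ε) * x n ≤ x (n + s)) (h2 : b ≤ x (n + s)) (hJ : (J : ℝ) * D ≤ ε * n / 4) :
    ∀ k, k ≤ J → (1 + ε) * (1 - k * D / n) * x (n + k * s) ≤ x (n + (k + 1) * s) ∧
      (1 + ε / 2) ^ k * b ≤ x (n + (k + 1) * s) := by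
  have hnR : (0 : ℝ) < n := by exact_mod_cast hn1
  intro k
  induction k with
  | zero =>
    intro _
    simp only [Nat.cast_zero, zero_mul, zero_div, sub_zero, mul_one, add_zero, zero_add, one_mul,
      pow_zero]
    exact ⟨h1, h2⟩
  | succ k ih =>
    intro hk
    obtain ⟨i1, i2⟩ := ih (by omega)
    have hkJ : ((k : ℝ) + 1) * D ≤ ε * n / 4 := by
      have : ((k : ℝ) + 1) ≤ J := by exact_mod_cast hk
      exact (mul_le_mul_of_nonneg_right this hD).trans hJ
    have hkd : ((k : ℝ) + 1) * D / n ≤ ε / 4 := by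
      rw [div_le_iff₀ hnR]
      linarith
    have hd0 : 0 ≤ D / n := div_nonneg hD hnR.le
    have hkd' : (k : ℝ) * D / n + D / n ≤ ε / 4 := by
      have e : ((k : ℝ) + 1) * D / n = (k : ℝ) * D / n + D / n := by ring
      linarith
    have hk0 : 0 ≤ (k : ℝ) * D / n := by positivity
    obtain ⟨t, ht⟩ : ∃ t, t = (k : ℝ) * D / n := ⟨_, rfl⟩
    obtain ⟨d, hd⟩ : ∃ d, d = D / n := ⟨_, rfl⟩
    have et : (1 - ((k : ℕ) : ℝ) * D / n) = 1 - t := by rw [ht]
    rw [et] at i1
    rw [← ht] at hkd' hk0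
    rw [← hd] at hkd' hd0
    have hy : 0 < x (n + (k + 1) * s) := lt_of_lt_of_le (by positivity) i2
    have hby : b ≤ x (n + (k + 1) * s) := by
      refine le_trans ?_ i2
      have : (1 : ℝ) ≤ (1 + ε / 2) ^ k := one_le_pow₀ (by linarith)
      nlinarith
    have e1 : n + k * s + s = n + (k + 1) * s := by ring
    have e2 : n + k * s + 2 * s = n + (k + 1 + 1) * s := by ring
    have hkes := h.kes (n + k * s) (by omega) (by
      rw [e1]
      exact (hθ _ (by omega)).trans hby)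
    rw [e1, e2] at hkes
    have hd' : D / ((n + k * s : ℕ) : ℝ) ≤ d := by
      rw [hd]
      refine div_le_div_of_nonneg_left hD hnR ?_
      push_cast
      have : (0 : ℝ) ≤ (k : ℝ) * s := by positivity
      linarith
    obtain ⟨y, hyd⟩ : ∃ y, y = x (n + (k + 1) * s) := ⟨_, rfl⟩
    obtain ⟨u, hu⟩ : ∃ u, u = x (n + k * s) := ⟨_, rfl⟩
    obtain ⟨v, hv⟩ : ∃ v, v = x (n + (k + 1 + 1) * s) := ⟨_, rfl⟩
    have hu0 : 0 ≤ u := by rw [hu]; exact h.nn _
    have hv0 : 0 ≤ v := by rw [hv]; exact h.nn _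
    rw [← hyd] at hkes hy i1 hby i2
    rw [← hu] at hkes i1
    rw [← hv] at hkes
    have hkes' : y ^ 2 ≤ u * v * (1 + d) :=
      hkes.trans (mul_le_mul_of_nonneg_left (by linarith) (by positivity))
    have hρ : 0 < (1 + ε) * (1 - t) := by
      have : 0 < 1 - t := by linarith
      positivity
    -- `ρ y ≤ v (1 + d)`
    have h3 : (1 + ε) * (1 - t) * y ≤ v * (1 + d) := by
      have h4 : (1 + ε) * (1 - t) * (y ^ 2) ≤ y * (v * (1 + d)) := by
        calc (1 + ε) * (1 - t) * (y ^ 2) ≤ (1 + ε) * (1 - t) * (u * v * (1 + d)) :=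
              mul_le_mul_of_nonneg_left hkes' hρ.le
          _ = ((1 + ε) * (1 - t) * u) * (v * (1 + d)) := by ring
          _ ≤ y * (v * (1 + d)) := mul_le_mul_of_nonneg_right i1 (by positivity)
      have h5 : y * ((1 + ε) * (1 - t) * y) ≤ y * (v * (1 + d)) := by
        calc y * ((1 + ε) * (1 - t) * y) = (1 + ε) * (1 - t) * (y ^ 2) := by ring
          _ ≤ _ := h4
      exact le_of_mul_le_mul_left h5 hy
    have h6 : (1 + ε) * (1 - (t + d)) * y ≤ v := by
      have h7 : (1 + ε) * (1 - (t + d)) * (1 + d) ≤ (1 + ε) * (1 - t) := by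
        have : (1 - (t + d)) * (1 + d) ≤ 1 - t := by nlinarith
        have h8 := mul_le_mul_of_nonneg_left this (show (0 : ℝ) ≤ 1 + ε by linarith)
        linarith
      have h9 : (1 + ε) * (1 - (t + d)) * y * (1 + d) ≤ v * (1 + d) := by
        calc (1 + ε) * (1 - (t + d)) * y * (1 + d) = (1 + ε) * (1 - (t + d)) * (1 + d) * y := by ring
          _ ≤ (1 + ε) * (1 - t) * y := mul_le_mul_of_nonneg_right h7 hy.le
          _ ≤ _ := h3
      exact le_of_mul_le_mul_right h9 (by linarith)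
    refine ⟨?_, ?_⟩
    · have e3 : (1 - ((k + 1 : ℕ) : ℝ) * D / n) = 1 - (t + d) := by
        rw [ht, hd]; push_cast; ring
      rw [e3, ← hyd, ← hv]
      exact h6
    · rw [← hv, pow_succ]
      have h10 : 1 + ε / 2 ≤ (1 + ε) * (1 - (t + d)) := by nlinarith
      calc (1 + ε / 2) ^ k * (1 + ε / 2) * b = (1 + ε / 2) * ((1 + ε / 2) ^ k * b) := by ring
        _ ≤ (1 + ε / 2) * y := mul_le_mul_of_nonneg_left i2 (by linarith)
        _ ≤ (1 + ε) * (1 - (t + d)) * y := mul_le_mul_of_nonneg_right h10 hy.le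
        _ ≤ v := h6

/-- growth of the terms before a small ratio -/
theorem backward (h : Cx s N D θ K x) (hD : 0 ≤ D) {n m J : ℕ} {ε b : ℝ} (hm : N ≤ m)
    (hm1 : 1 ≤ m) (hnm : m + J * s = n) (hmn : n ≤ 2 * m)
    (hε0 : 0 < ε) (hε1 : ε ≤ 1) (hb : 0 < b) (hθ : ∀ i, m ≤ i → θ ^ i ≤ b)
    (h1 : x (n + s) ≤ (1 - ε) * x n) (h2 : b ≤ x n) (hJ : 2 * (J : ℝ) * D ≤ ε * n / 4) :
    ∀ k, k ≤ J → ∀ i, i + k = J →
      x (m + (i + 1) * s) ≤ (1 - ε) * (1 + 2 * D / n) ^ k * x (m + i * s) ∧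
      (1 + ε / 2) ^ k * b ≤ x (m + i * s) := by
  have hnR : (0 : ℝ) < n := by
    have : 0 < n := by omega
    exact_mod_cast this
  intro k
  induction k with
  | zero =>
    intro _ i hi
    have hi' : i = J := by omega
    subst hi'
    have e : m + (i + 1) * s = n + s := by rw [← hnm]; ring
    rw [e, hnm]
    simp only [pow_zero, mul_one, one_mul]
    exact ⟨h1, h2⟩
  | succ k ih =>
    intro hk i hi
    obtain ⟨i1, i2⟩ := ih (by omega) (i + 1) (by omega)
    have hd0 : 0 ≤ 2 * D / n := by positivity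
    obtain ⟨d, hd⟩ : ∃ d, d = 2 * D / n := ⟨_, rfl⟩
    rw [← hd] at i1 hd0
    have hσ : ∀ j, j ≤ J → (1 + d) ^ j ≤ 1 + ε / 2 := by
      intro j hj
      have h3 : (1 + d) ^ j ≤ Real.exp (j * d) := by
        have := Real.add_one_le_exp d
        rw [mul_comm, Real.exp_mul, Real.rpow_natCast]
        exact pow_le_pow_left₀ (by linarith) (by linarith) j
      have h4 : (j : ℝ) * d ≤ ε / 4 := by
        rw [hd]
        have h5 : (j : ℝ) ≤ J := by exact_mod_cast hj
        have h6 : (j : ℝ) * (2 * D) ≤ J * (2 * D) := mul_le_mul_of_nonneg_right h5 (by linarith)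
        rw [mul_div_assoc'  , div_le_iff₀ hnR]
        linarith
      have h7 : Real.exp (ε / 4) ≤ 1 + ε / 2 := by
        have h8 : |ε / 4| ≤ 1 := by rw [abs_of_pos (by linarith)]; linarith
        have h9 := Real.abs_exp_sub_one_le h8
        rw [abs_of_pos (show 0 < ε / 4 by linarith)] at h9
        have := le_abs_self (Real.exp (ε / 4) - 1)
        linarith
      exact h3.trans ((Real.exp_le_exp.2 h4).trans h7)
    have hy : b ≤ x (m + (i + 1) * s) := by
      refine le_trans ?_ i2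
      have : (1 : ℝ) ≤ (1 + ε / 2) ^ k := one_le_pow₀ (by linarith)
      nlinarith
    have e1 : m + i * s + s = m + (i + 1) * s := by ring
    have e2 : m + i * s + 2 * s = m + (i + 1 + 1) * s := by ring
    have hkes := h.kes (m + i * s) (by omega) (by
      rw [e1]
      exact (hθ _ (by omega)).trans hy)
    rw [e1, e2] at hkes
    have hd' : D / ((m + i * s : ℕ) : ℝ) ≤ d := by
      rw [hd]
      have hpos : (0 : ℝ) < ((m + i * s : ℕ) : ℝ) := by
        have : 0 < m + i * s := by omega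
        exact_mod_cast this
      rw [div_le_div_iff₀ hpos hnR]
      have h5 : (n : ℝ) ≤ 2 * ((m + i * s : ℕ) : ℝ) := by
        have : n ≤ 2 * (m + i * s) := by omega
        exact_mod_cast this
      nlinarith
    obtain ⟨y, hyd⟩ : ∃ y, y = x (m + (i + 1) * s) := ⟨_, rfl⟩
    obtain ⟨u, hu⟩ : ∃ u, u = x (m + i * s) := ⟨_, rfl⟩
    obtain ⟨v, hv⟩ : ∃ v, v = x (m + (i + 1 + 1) * s) := ⟨_, rfl⟩
    have hu0 : 0 ≤ u := by rw [hu]; exact h.nn _
    have hv0 : 0 ≤ v := by rw [hv]; exact h.nn _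
    rw [← hyd] at hkes hy i1 i2
    rw [← hu] at hkes
    rw [← hv] at hkes i1
    have hy0 : 0 < y := lt_of_lt_of_le hb hy
    have hkes' : y ^ 2 ≤ u * v * (1 + d) :=
      hkes.trans (mul_le_mul_of_nonneg_left (by linarith) (by positivity))
    have h3 : y ≤ (1 - ε) * (1 + d) ^ (k + 1) * u := by
      have h4 : y * y ≤ y * ((1 - ε) * (1 + d) ^ (k + 1) * u) := by
        calc y * y = y ^ 2 := by ring
          _ ≤ u * v * (1 + d) := hkes'
          _ ≤ u * ((1 - ε) * (1 + d) ^ k * y) * (1 + d) :=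
              mul_le_mul_of_nonneg_right (mul_le_mul_of_nonneg_left i1 hu0) (by linarith)
          _ = _ := by rw [pow_succ]; ring
      exact le_of_mul_le_mul_left h4 hy0
    refine ⟨?_, ?_⟩
    · rw [← hyd, ← hu, ← hd]
      exact h3
    · rw [← hu, pow_succ]
      have h5 := hσ (k + 1) hk
      have h6 : (1 - ε) * (1 + d) ^ (k + 1) ≤ 1 - ε / 2 := by
        calc (1 - ε) * (1 + d) ^ (k + 1) ≤ (1 - ε) * (1 + ε / 2) :=
              mul_le_mul_of_nonneg_left h5 (by linarith)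
          _ ≤ _ := by nlinarith
      have h7 : y ≤ (1 - ε / 2) * u := h3.trans (mul_le_mul_of_nonneg_right h6 hu0)
      have h8 : (1 + ε / 2) * y ≤ u := by
        calc (1 + ε / 2) * y ≤ (1 + ε / 2) * ((1 - ε / 2) * u) :=
              mul_le_mul_of_nonneg_left h7 (by linarith)
          _ = (1 - ε ^ 2 / 4) * u := by ring
          _ ≤ 1 * u := mul_le_mul_of_nonneg_right (by nlinarith) hu0
          _ = u := one_mul u
      calc (1 + ε / 2) ^ k * (1 + ε / 2) * b = (1 + ε / 2) * ((1 + ε / 2) ^ k * b) := by ring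
        _ ≤ (1 + ε / 2) * y := mul_le_mul_of_nonneg_left i2 (by linarith)
        _ ≤ u := h8

end Q78.UR
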