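import Pool.Agent.Q78.UR.Tilt

set_option autoImplicit false

/-! Approximately log-convex probabilities: the largest atom and the total variation without
logarithms. -/

namespace Q78.UR

open Finset Filter Topology

/-- a power of `n` against an exponential -/
theorem pow_small {θ : ℝ} (h0 : 0 < θ) (h1 : θ < 1) :
    ∀ᶠ n : ℕ in atTop, ∀ i : ℕ, n ≤ 2 * i → θ ^ i ≤ 1 / (4 * (n : ℝ) ^ 2) := by
  have hs0 : 0 < √θ := Real.sqrt_pos.2 h0
  have hs1 : √θ < 1 := by
    rw [← Real.sqrt_one]
    exact Real.sqrt_lt_sqrt h0.le h1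
  have h2 : Tendsto (fun n : ℕ => (n : ℝ) ^ 2 * √θ ^ n) atTop (𝓝 0) :=
    tendsto_pow_const_mul_const_pow_of_abs_lt_one 2 (by rw [abs_of_pos hs0]; exact hs1)
  filter_upwards [h2.eventually_lt_const (show (0 : ℝ) < 1 / 4 by norm_num),
    eventually_ge_atTop 1] with n hn hn1 i hi
  have hn0 : (0 : ℝ) < n := by exact_mod_cast hn1
  have h3 : θ ^ i ≤ √θ ^ n := by
    have e : θ ^ i = √θ ^ (2 * i) := by rw [pow_mul, Real.sq_sqrt h0.le]
    rw [e]
    exact pow_le_pow_of_le_one hs0.le hs1.le hi
  rw [le_div_iff₀ (by positivity)]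
  nlinarith

/-- the window around `n` -/
def Win (s n : ℕ) : Finset ℕ := Finset.Icc (n - s * Nat.sqrt n) (n + s * (Nat.sqrt n + 1))

theorem sum_prog {x : ℕ → ℝ} (hx : ∀ n, 0 ≤ x n) {s : ℕ} (hs : 1 ≤ s) {W : Finset ℕ} {a : ℕ}
    {J : ℕ} (h : ∀ j, j < J → a + j * s ∈ W) : ∑ j ∈ range J, x (a + j * s) ≤ ∑ m ∈ W, x m := by
  have hinj : Set.InjOn (fun j => a + j * s) (range J : Set ℕ) := by
    intro i _ j _ hij
    simp only at hij
    have : i * s = j * s := by omega
    exact Nat.eq_of_mul_eq_mul_right (by omega) this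
  have hsub : (range J).image (fun j => a + j * s) ⊆ W := by
    intro q hq
    rw [mem_image] at hq
    obtain ⟨j, hj, rfl⟩ := hq
    exact h j (mem_range.1 hj)
  rw [← sum_image (f := x) (g := fun j => a + j * s) (by exact hinj)]
  exact sum_le_sum_of_subset_of_nonneg hsub fun q _ _ => hx q

theorem sqrt_facts {n : ℕ} (hn : 4 ≤ n) : (2 : ℝ) ≤ √n ∧ √(n : ℝ) / 2 ≤ (Nat.sqrt n : ℝ) ∧
    (Nat.sqrt n : ℝ) ≤ √n ∧ 2 ≤ Nat.sqrt n := by
  have h1 : (Nat.sqrt n : ℝ) ≤ √n := Real.nat_sqrt_le_real_sqrt
  have h2 : √(n : ℝ) ≤ (Nat.sqrt n : ℝ) + 1 := Real.real_sqrt_le_nat_sqrt_succ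
  have h3 : 2 ≤ Nat.sqrt n := by
    rw [Nat.le_sqrt]
    omega
  have h3' : (2 : ℝ) ≤ (Nat.sqrt n : ℝ) := by exact_mod_cast h3
  exact ⟨h3'.trans h1, by linarith, h1, h3⟩

theorem gauss_sum (q : ℕ) (ε : ℝ) (hε : 0 ≤ ε) :
    (q : ℝ) + ε / 2 * ((q : ℝ) * (q - 1) / 2) ≤ ∑ k ∈ range q, (1 + ε / 2) ^ k := by
  induction q with
  | zero => simp
  | succ q ih =>
    rw [sum_range_succ]
    have h1 : 1 + (q : ℝ) * (ε / 2) ≤ (1 + ε / 2) ^ q :=
      one_add_mul_le_pow (by linarith) q
    push_cast
    nlinarith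

/-- **local averages** -/
theorem local_avg (s : ℕ) (hs : 1 ≤ s) (D θ : ℝ) (hD : 0 ≤ D) (hθ0 : 0 < θ) (hθ1 : θ < 1) :
    ∃ (C : ℝ) (N0 : ℕ), 0 < C ∧ 4 ≤ N0 ∧
      ∀ (N : ℕ) (x : ℕ → ℝ), Cx s N D θ 0 x → ∀ n, N0 ≤ n → 2 * N ≤ n →
      1 / (n : ℝ) ^ 2 ≤ x n ∨ 1 / (n : ℝ) ^ 2 ≤ x (n + s) →
      √(n : ℝ) * x n ≤ C * ∑ m ∈ Win s n, x m ∧
      n * |x (n + s) - x n| ≤ C * ∑ m ∈ Win s n, x m := by
  obtain ⟨A, hA⟩ : ∃ A : ℝ, A = 8 * D + 1 := ⟨_, rfl⟩
  have hA1 : 1 ≤ A := by linarith
  obtain ⟨N1, hN1⟩ := eventually_atTop.1 (pow_small hθ0 hθ1)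
  obtain ⟨N2, hN2⟩ := exists_nat_gt ((4 * A + 4 * s + 4) ^ 2)
  refine ⟨64 * A ^ 2, max (max N1 N2) (16 * s ^ 2 + 16), by positivity, by
    have := le_max_right (max N1 N2) (16 * s ^ 2 + 16)
    omega, ?_⟩
  intro N x hx n hn hnN hor
  have hnN1 : N1 ≤ n := ((le_max_left _ _).trans (le_max_left _ _)).trans hn
  have hnN2 : N2 ≤ n := ((le_max_right _ _).trans (le_max_left _ _)).trans hn
  have hns : 16 * s ^ 2 + 16 ≤ n := (le_max_right _ _).trans hn
  have hn16 : 16 ≤ n := by omega
  have hn0 : (0 : ℝ) < n := by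
    have : 0 < n := by omega
    exact_mod_cast this
  have hn1 : (1 : ℝ) ≤ n := by
    have : 1 ≤ n := by omega
    exact_mod_cast this
  obtain ⟨q, hq⟩ : ∃ q, q = Nat.sqrt n := ⟨_, rfl⟩
  obtain ⟨u, hu⟩ : ∃ u : ℝ, u = √(n : ℝ) := ⟨_, rfl⟩
  obtain ⟨f1, f2, f3, f4⟩ := sqrt_facts (show 4 ≤ n by omega)
  rw [← hq, ← hu] at f2 f3
  rw [← hu] at f1
  rw [← hq] at f4
  have hu2 : u * u = n := by rw [hu]; exact Real.mul_self_sqrt hn0.le
  have huA : 4 * A + 4 * s + 4 ≤ u := by
    rw [hu]
    refine Real.le_sqrt_of_sq_le ?_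
    have : (N2 : ℝ) ≤ n := by exact_mod_cast hnN2
    linarith
  have hsR : (1 : ℝ) ≤ s := by exact_mod_cast hs
  -- `s q ≤ n / 4`
  have hsq4 : 4 * (s * q) ≤ n := by
    have h1 : (4 * (s * q) : ℝ) ≤ n := by
      have h2 : (s : ℝ) * q ≤ s * u := mul_le_mul_of_nonneg_left f3 (by linarith)
      nlinarith
    exact_mod_cast h1
  obtain ⟨S, hS⟩ : ∃ S, S = ∑ m ∈ Win s n, x m := ⟨_, rfl⟩
  have hS0 : 0 ≤ S := by rw [hS]; exact sum_nonneg fun m _ => hx.nn m
  rw [← hS]
  have hmemW : ∀ m, n ≤ m + s * q → m ≤ n + s * (q + 1) → m ∈ Win s n := by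
    intro m h1 h2
    unfold Win
    rw [Finset.mem_Icc, ← hq]
    constructor <;> omega
  obtain ⟨ε₀, hε₀⟩ : ∃ ε₀ : ℝ, ε₀ = A / u := ⟨_, rfl⟩
  have hu0 : 0 < u := by linarith
  have hε₀0 : 0 < ε₀ := by rw [hε₀]; positivity
  have hε₀1 : ε₀ ≤ 1 / 4 := by
    rw [hε₀, div_le_iff₀ hu0]
    linarith
  have hε₀n : ε₀ * n = A * u := by
    rw [hε₀, ← hu2]
    field_simp
  have hqD : 2 * (q : ℝ) * D ≤ ε₀ * n / 4 := by
    rw [hε₀n]
    have h1 : (q : ℝ) * D ≤ u * D := mul_le_mul_of_nonneg_right f3 hD
    nlinarith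
  -- sums after a large ratio
  have hup : ∀ ε, ε₀ ≤ ε → ε ≤ 1 → (1 + ε) * x n ≤ x (n + s) → 1 / (n : ℝ) ^ 2 / 2 ≤ x (n + s) →
      (ε * n / 32) * x (n + s) ≤ S := by
    intro ε h1 h2 h3 h4
    have hb : 0 < x (n + s) := lt_of_lt_of_le (by positivity) h4
    have hfor := forward hx hD (n := n) (J := q) (ε := ε) (b := x (n + s)) (by omega) (by omega)
      (by linarith) h2 hb (fun m hm => (hN1 n hnN1 m (by omega)).trans (by
        refine le_trans ?_ h4
        rw [div_div, div_le_div_iff₀ (by positivity) (by positivity)]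
        nlinarith [sq_nonneg (n : ℝ)])) h3 le_rfl (by nlinarith)
    have h5 : ∑ k ∈ range q, (1 + ε / 2) ^ k * x (n + s) ≤ S := by
      refine (sum_le_sum fun k hk => (hfor k (mem_range.1 hk).le).2).trans ?_
      rw [hS]
      have h6 : ∀ k, x (n + (k + 1) * s) = x (n + s + k * s) := fun k => by congr 1; ring
      simp only [h6]
      refine sum_prog hx.nn hs fun j hj => hmemW _ (by
        have : 0 ≤ j * s := Nat.zero_le _
        omega) ?_
      have h7 : j * s ≤ q * s := Nat.mul_le_mul_right _ hj.le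
      have h8 : s * (q + 1) = q * s + s := by ring
      omega
    rw [← sum_mul] at h5
    refine le_trans ?_ h5
    refine mul_le_mul_of_nonneg_right ?_ hb.le
    refine le_trans ?_ (gauss_sum q ε (by linarith))
    have hε0 : 0 < ε := by linarith
    have f4' : (2 : ℝ) ≤ q := by exact_mod_cast f4
    have h9 : (n : ℝ) ≤ 4 * (q * q) := by
      rw [← hu2]
      nlinarith
    have h10 : (q : ℝ) * q ≤ 2 * (q * (q - 1)) := by nlinarith
    nlinarith
  -- sums before a small ratio
  have hdown : ∀ (n' : ℕ) (ε v : ℝ), n ≤ n' → n' ≤ n + s * q → ε₀ / 2 ≤ ε → ε ≤ 1 →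
      2 * (q : ℝ) * D ≤ ε * n' / 4 →
      x (n' + s) ≤ (1 - ε) * x n' → 1 / (n : ℝ) ^ 2 / 4 ≤ v → v ≤ x n' →
      ((q : ℝ) + ε * n / 64) * v ≤ S := by
    intro n' ε v hn1' hn2' h1 h2 hJ h3 h4 h4'
    have hb : 0 < v := lt_of_lt_of_le (by positivity) h4
    have hback := backward hx hD (n := n') (m := n' - q * s) (J := q) (ε := ε) (b := v)
      (by
        have : q * s = s * q := by ring
        omega) (by
        have : q * s = s * q := by ring
        omega) (by
        have : q * s = s * q := by ring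
        omega) (by
        have : q * s = s * q := by ring
        omega) (by linarith) h2 hb (fun i hi => (hN1 n hnN1 i (by
        have : q * s = s * q := by ring
        omega)).trans (by
        refine le_trans ?_ h4
        rw [div_div, div_le_div_iff₀ (by positivity) (by positivity)]
        nlinarith [sq_nonneg (n : ℝ)])) h3 h4' hJ
    have h5 : ∑ k ∈ range q, (1 + ε / 2) ^ k * v ≤ S := by
      have h6 : ∀ k ∈ range q, (1 + ε / 2) ^ k * v ≤ x (n' - q * s + (q - k) * s) := by
        intro k hk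
        rw [mem_range] at hk
        exact (hback k hk.le (q - k) (by omega)).2
      refine (sum_le_sum h6).trans ?_
      have h7 : ∑ k ∈ range q, x (n' - q * s + (q - k) * s) =
          ∑ k ∈ range q, x (n' - q * s + s + k * s) := by
        rw [← sum_range_reflect]
        refine sum_congr rfl fun k hk => ?_
        rw [mem_range] at hk
        congr 1
        have : q - (q - 1 - k) = k + 1 := by omega
        rw [this]
        ring
      rw [h7, hS]
      refine sum_prog hx.nn hs fun j hj => hmemW _ ?_ ?_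
      · have : q * s = s * q := by ring
        have : 0 ≤ j * s := Nat.zero_le _
        omega
      · have h8 : j * s ≤ q * s := Nat.mul_le_mul_right _ hj.le
        have h9 : s * (q + 1) = q * s + s := by ring
        have h10 : q * s = s * q := by ring
        have h11 : q * s ≤ n' := by omega
        omega
    rw [← sum_mul] at h5
    refine le_trans ?_ h5
    refine mul_le_mul_of_nonneg_right ?_ hb.le
    refine le_trans ?_ (gauss_sum q ε (by linarith))
    have hε0 : 0 < ε := by linarith
    have f4' : (2 : ℝ) ≤ q := by exact_mod_cast f4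
    have h9 : (n : ℝ) ≤ 4 * (q * q) := by
      rw [← hu2]
      nlinarith
    have h10 : (q : ℝ) * q ≤ 2 * (q * (q - 1)) := by nlinarith
    nlinarith
  -- the local average
  have havg : 1 / (n : ℝ) ^ 2 / 2 ≤ x n → u * x n ≤ 8 * A * S := by
    intro hbig
    have hxn : 0 < x n := lt_of_lt_of_le (by positivity) hbig
    obtain ⟨J, hJ⟩ : ∃ J : ℕ, J = ⌊u / (2 * A)⌋₊ := ⟨_, rfl⟩
    have hJ1 : (J : ℝ) ≤ u / (2 * A) := by rw [hJ]; exact Nat.floor_le (by positivity)
    have hJ2 : u / (2 * A) < J + 1 := by rw [hJ]; exact Nat.lt_floor_add_one _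
    rw [le_div_iff₀ (by positivity)] at hJ1
    have hJq : J ≤ q := by
      have h1 : (J : ℝ) ≤ q := by
        have : (0 : ℝ) ≤ J := Nat.cast_nonneg _
        nlinarith
      exact_mod_cast h1
    have hJε : (J : ℝ) * ε₀ ≤ 1 / 2 := by
      rw [hε₀, ← mul_div_assoc, div_le_iff₀ hu0]
      linarith
    by_cases hall : ∀ j, j < J → (1 - ε₀) * x (n + j * s) ≤ x (n + (j + 1) * s)
    · have h1 : ∀ j, j ≤ J → (1 - j * ε₀) * x n ≤ x (n + j * s) := by
        intro j
        induction j with
        | zero => intro _; simp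
        | succ j ih =>
          intro hj
          have h2 := ih (by omega)
          have h3 := hall j (by omega)
          have hjJ : ((j : ℝ) + 1) ≤ J := by exact_mod_cast hj
          have h4 : (1 - ε₀) * ((1 - j * ε₀) * x n) ≤ (1 - ε₀) * x (n + j * s) :=
            mul_le_mul_of_nonneg_left h2 (by linarith)
          have h5 : (1 - (j + 1) * ε₀) * x n ≤ (1 - ε₀) * ((1 - j * ε₀) * x n) := by
            have : 0 ≤ (j : ℝ) * ε₀ * ε₀ * x n := by positivity
            nlinarith
          push_cast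
          linarith
      have h2 : ∑ j ∈ range (J + 1), x n / 2 ≤ S := by
        refine le_trans (sum_le_sum fun j hj => ?_)
          (le_trans (sum_prog hx.nn hs (a := n) (W := Win s n) (J := J + 1) fun j hj =>
            hmemW _ ?_ ?_) hS.symm.le)
        · rw [mem_range] at hj
          have h3 := h1 j (by omega)
          have hjJ : (j : ℝ) ≤ J := by exact_mod_cast (by omega)
          have h4 : (j : ℝ) * ε₀ ≤ 1 / 2 :=
            (mul_le_mul_of_nonneg_right hjJ hε₀0.le).trans hJε
          nlinarith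
        · have : 0 ≤ j * s := Nat.zero_le _
          omega
        · have h8 : j * s ≤ q * s := Nat.mul_le_mul_right _ (by omega)
          have h9 : s * (q + 1) = q * s + s := by ring
          omega
      rw [sum_const, card_range, nsmul_eq_mul] at h2
      push_cast at h2
      have h3 : u / (2 * A) * (x n / 2) ≤ S :=
        (mul_le_mul_of_nonneg_right hJ2.le (by linarith)).trans h2
      have h4 : u / (2 * A) * (x n / 2) = u * x n / (4 * A) := by field_simp; ring
      rw [h4, div_le_iff₀ (by positivity)] at h3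
      nlinarith
    · push Not at hall
      obtain ⟨j, hjJ, hj⟩ : ∃ j, j < J ∧ x (n + (j + 1) * s) < (1 - ε₀) * x (n + j * s) ∧
          ∀ i, i < j → (1 - ε₀) * x (n + i * s) ≤ x (n + (i + 1) * s) := by
        classical
        have hex : ∃ j, j < J ∧ x (n + (j + 1) * s) < (1 - ε₀) * x (n + j * s) := hall
        refine ⟨Nat.find hex, (Nat.find_spec hex).1, (Nat.find_spec hex).2, fun i hi => ?_⟩
        have h1 := Nat.find_min hex hi
        push Not at h1
        exact h1 (hi.trans (Nat.find_spec hex).1)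
      obtain ⟨hj1, hj2⟩ := hj
      have h1 : ∀ i, i ≤ j → (1 - i * ε₀) * x n ≤ x (n + i * s) := by
        intro i
        induction i with
        | zero => intro _; simp
        | succ i ih =>
          intro hi
          have h2 := ih (by omega)
          have h3 := hj2 i (by omega)
          have hjJ' : ((i : ℝ) + 1) ≤ J := by exact_mod_cast (by omega)
          have h4 : (1 - ε₀) * ((1 - i * ε₀) * x n) ≤ (1 - ε₀) * x (n + i * s) :=
            mul_le_mul_of_nonneg_left h2 (by linarith)
          have h5 : (1 - (i + 1) * ε₀) * x n ≤ (1 - ε₀) * ((1 - i * ε₀) * x n) := by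
            have : 0 ≤ (i : ℝ) * ε₀ * ε₀ * x n := by positivity
            nlinarith
          push_cast
          linarith
      have h2 : x n / 2 ≤ x (n + j * s) := by
        have h3 := h1 j le_rfl
        have hjJ' : (j : ℝ) ≤ J := by exact_mod_cast (by omega)
        have h4 : (j : ℝ) * ε₀ ≤ 1 / 2 :=
          (mul_le_mul_of_nonneg_right hjJ' hε₀0.le).trans hJε
        nlinarith
      have hjq : j * s ≤ s * q := by
        have h8 : j * s ≤ q * s := Nat.mul_le_mul_right _ (by omega)
        have h9 : q * s = s * q := by ring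
        omega
      have h3 := hdown (n + j * s) ε₀ (x n / 2) (by omega) (by omega) (by linarith)
        (by linarith) (by
          have h4 : ε₀ * n ≤ ε₀ * ((n + j * s : ℕ) : ℝ) := by
            refine mul_le_mul_of_nonneg_left ?_ hε₀0.le
            exact_mod_cast (by omega)
          linarith) (by
          have e : n + j * s + s = n + (j + 1) * s := by ring
          rw [e]
          exact hj1.le) (by
          have : 1 / (n : ℝ) ^ 2 / 4 = 1 / (n : ℝ) ^ 2 / 2 / 2 := by ring
          rw [this]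
          linarith) h2
      have h4 : (q : ℝ) * (x n / 2) ≤ S := by
        have h5 : 0 ≤ ε₀ * n / 64 * (x n / 2) := by positivity
        nlinarith
      nlinarith
  have hxs : 0 ≤ x (n + s) := hx.nn _
  have hxn : 0 ≤ x n := hx.nn _
  have hn2 : 0 < 1 / (n : ℝ) ^ 2 := by positivity
  rw [← hu]
  have hA2 : 1 ≤ A ^ 2 := one_le_pow₀ hA1
  have hAS1 : 64 * S ≤ 64 * A ^ 2 * S := by
    have := mul_le_mul_of_nonneg_right hA2 hS0
    linarith
  have hAS3 : A * (8 * A * S) ≤ 64 * A ^ 2 * S := by
    have : 0 ≤ A ^ 2 * S := by positivity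
    nlinarith
  have hAS2 : 8 * A * S ≤ 64 * A ^ 2 * S := by
    have h1 : A * S ≤ A ^ 2 * S := mul_le_mul_of_nonneg_right (by nlinarith) hS0
    have h2 : 0 ≤ A * S := by positivity
    linarith
  -- cases
  rcases le_total (x n) (x (n + s)) with hc | hc
  · -- up
    have hbig : 1 / (n : ℝ) ^ 2 ≤ x (n + s) := by
      rcases hor with h | h
      · exact h.trans hc
      · exact h
    rw [abs_of_nonneg (by linarith)]
    by_cases hsm : x (n + s) ≤ (1 + ε₀) * x n
    · have h1 : 1 / (n : ℝ) ^ 2 / 2 ≤ x n := by nlinarith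
      have h2 := havg h1
      refine ⟨by linarith, ?_⟩
      have h3 : n * (x (n + s) - x n) ≤ n * (ε₀ * x n) :=
        mul_le_mul_of_nonneg_left (by linarith) hn0.le
      have h4 : n * (ε₀ * x n) = A * (u * x n) := by
        rw [← mul_assoc, mul_comm (n : ℝ) ε₀, hε₀n]
        ring
      have h5 : A * (u * x n) ≤ A * (8 * A * S) := mul_le_mul_of_nonneg_left h2 (by linarith)
      linarith
    · push Not at hsm
      by_cases h2x : 2 * x n ≤ x (n + s)
      · have h1 := hup 1 (by linarith) le_rfl (by linarith) (by linarith)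
        have h2 : n * x (n + s) ≤ 32 * S := by linarith
        have hun : u ≤ n := by nlinarith
        have h3 : u * x n ≤ n * x (n + s) := mul_le_mul hun hc hxn hn0.le
        have h4 : (0 : ℝ) ≤ n * x n := by positivity
        constructor
        · linarith
        · rw [mul_sub]
          linarith
      · push Not at h2x
        have hpos : 0 < x n := by linarith
        obtain ⟨ε, hε⟩ : ∃ ε, ε = x (n + s) / x n - 1 := ⟨_, rfl⟩
        have h1 : (1 + ε) * x n = x (n + s) := by
          rw [hε]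
          field_simp
          ring
        have h2 : ε₀ ≤ ε := by
          by_contra hcon
          push Not at hcon
          nlinarith
        have h3 : ε ≤ 1 := by
          by_contra hcon
          push Not at hcon
          nlinarith
        have h4 := hup ε h2 h3 h1.le (by linarith)
        have h5 : A * u ≤ ε * n := by
          rw [← hε₀n]
          exact mul_le_mul_of_nonneg_right h2 hn0.le
        have h6 : u * x n ≤ ε * n * x (n + s) := by
          have h7 : u ≤ ε * n := by nlinarith
          exact mul_le_mul h7 hc hxn (by linarith)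
        have h8 : n * (x (n + s) - x n) ≤ ε * n * x (n + s) := by
          have h9 : x (n + s) - x n = ε * x n := by rw [← h1]; ring
          rw [h9]
          have h10 : ε * n * x n ≤ ε * n * x (n + s) :=
            mul_le_mul_of_nonneg_left hc (by nlinarith)
          have h11 : n * (ε * x n) = ε * n * x n := by ring
          linarith
        have h12 : ε * n / 32 * x (n + s) = ε * n * x (n + s) / 32 := by ring
        constructor
        · linarith
        · linarith
  · have hbig : 1 / (n : ℝ) ^ 2 ≤ x n := by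
      rcases hor with h | h
      · exact h
      · exact h.trans hc
    have hpos : 0 < x n := by linarith
    rw [abs_sub_comm, abs_of_nonneg (by linarith)]
    by_cases hsm : (1 - ε₀) * x n ≤ x (n + s)
    · have h2 := havg (by linarith)
      have h3 : n * (x n - x (n + s)) ≤ n * (ε₀ * x n) :=
        mul_le_mul_of_nonneg_left (by linarith) hn0.le
      have h4 : n * (ε₀ * x n) = A * (u * x n) := by
        rw [← mul_assoc, mul_comm (n : ℝ) ε₀, hε₀n]
        ring
      have h5 : A * (u * x n) ≤ A * (8 * A * S) := mul_le_mul_of_nonneg_left h2 (by linarith)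
      constructor
      · linarith
      · linarith
    · push Not at hsm
      obtain ⟨ε, hε⟩ : ∃ ε, ε = 1 - x (n + s) / x n := ⟨_, rfl⟩
      have h1 : (1 - ε) * x n = x (n + s) := by
        rw [hε]
        field_simp
        ring
      have h2 : ε₀ ≤ ε := by
        by_contra hcon
        push Not at hcon
        nlinarith
      have h3 : ε ≤ 1 := by
        rw [hε]
        have : 0 ≤ x (n + s) / x n := div_nonneg hxs hxn
        linarith
      have h4 := hdown n ε (x n) le_rfl (by omega) (by linarith) h3 (by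
        have h5 : ε₀ * n ≤ ε * n := mul_le_mul_of_nonneg_right h2 hn0.le
        linarith) h1.symm.le (by linarith) le_rfl
      have h5 : 0 ≤ ε * n * x n := by
        have : 0 < ε := by linarith
        positivity
      have h6 : n * (x n - x (n + s)) = ε * n * x n := by rw [← h1]; ring
      have h7 : 0 ≤ (q : ℝ) * x n := by positivity
      have h8 : u * x n ≤ 2 * (q * x n) := by nlinarith
      have h9 : ((q : ℝ) + ε * n / 64) * x n = q * x n + ε * n * x n / 64 := by ring
      constructor
      · linarith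
      · rw [h6]
        linarith

end Q78.UR
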