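import Pool.Agent.Q78.UR.Disc

set_option autoImplicit false

/-! Star polymers in a random domain. -/

namespace Q78.UR.Star

open Finset Filter Topology MeasureTheory TH966.AK Q294.Rs

variable {A : P → P → Prop} {k : ℕ}

/-- stars: `k` walks of prescribed lengths from the origin, two of which meet at the origin only,
in the set `D` -/
def IsStar (A : P → P → Prop) (n : Fin k → ℕ) (D : Set P) (w : Fin k → List P) : Prop :=
  (∀ i, w i ∈ Kw A (n i)) ∧ (∀ i j, i ≠ j → ∀ x ∈ w i, x ∈ w j → x = 0) ∧ ∀ i, ∀ x ∈ w i, x ∈ D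

/-- the condition on the arm `j` -/
def Rel (_ : Fin k) (D : Set P) (u : Fin k → List P) (_ x : P) : Prop :=
  x ∈ D ∧ (∀ i, x ∈ u i → x = 0) ∧
    (∀ i i', i ≠ i' → ∀ y ∈ u i, y ∈ u i' → y = 0) ∧ ∀ i, ∀ y ∈ u i, y ∈ D

/-- the other arms, with the arm `j` erased -/
noncomputable def Uf (A : P → P → Prop) (n : Fin k → ℕ) (j : Fin k) : Finset (Fin k → List P) :=
  Fintype.piFinset (Function.update (fun i => Kw A (n i)) j {[]})

theorem mem_Uf {n : Fin k → ℕ} {j : Fin k} {u : Fin k → List P} :
    u ∈ Uf A n j ↔ u j = [] ∧ ∀ i, i ≠ j → u i ∈ Kw A (n i) := by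
  unfold Uf
  rw [Fintype.mem_piFinset]
  constructor
  · intro h
    refine ⟨?_, fun i hi => ?_⟩
    · have := h j
      rw [Function.update_self, mem_singleton] at this
      exact this
    · have := h i
      rw [Function.update_of_ne hi] at this
      exact this
  · rintro ⟨h1, h2⟩ i
    by_cases hi : i = j
    · subst hi
      rw [Function.update_self, mem_singleton]
      exact h1
    · rw [Function.update_of_ne hi]
      exact h2 i hi

theorem Uf_update (n : Fin k → ℕ) (j : Fin k) (m : ℕ) :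
    Uf A (Function.update n j m) j = Uf A n j := by
  ext u
  rw [mem_Uf, mem_Uf]
  refine and_congr Iff.rfl (forall_congr' fun i => forall_congr' fun hi => ?_)
  rw [Function.update_of_ne hi]

theorem card_Uf (n : Fin k → ℕ) (j : Fin k) :
    ∏ i, ((Kw A (n i)).card : ℝ) = (Kw A (n j)).card * ((Uf A n j).card : ℝ) := by
  unfold Uf
  rw [Fintype.card_piFinset]
  have h : (fun i => ((Function.update (fun i => Kw A (n i)) j {[]} : (i : Fin k) → Finset _) i).card) =
      Function.update (fun i => (Kw A (n i)).card) j 1 := by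
    funext i
    by_cases hi : i = j
    · subst hi
      simp
    · rw [Function.update_of_ne hi, Function.update_of_ne hi]
  rw [h, prod_update_of_mem (mem_univ j), one_mul, Nat.cast_prod,
    ← mul_prod_erase univ (fun i => ((Kw A (n i)).card : ℝ)) (mem_univ j), sdiff_singleton_eq_erase]

theorem head_mem {Z : Rule A} {m : ℕ} {w : List P} (h : w ∈ Kw A m) : (0 : P) ∈ w := by
  have h1 := ((Z.mem_K).1 h).2.1
  exact List.mem_of_head? h1

/-- **stars by their other arms** -/
theorem card_star (Z : Rule A) (n : Fin k → ℕ) (j : Fin k) (D : Set P) :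
    Nat.card {w : Fin k → List P // IsStar A n D w} =
      ∑ u ∈ Uf A n j, (KR A (Rel j D u) (n j)).card := by
  classical
  rw [← card_sigma]
  have hfin : {w : Fin k → List P | IsStar A n D w}.Finite := by
    refine Set.Finite.subset (Finset.finite_toSet (Fintype.piFinset (fun i => Kw A (n i)))) ?_
    intro w hw
    rw [mem_coe, Fintype.mem_piFinset]
    exact hw.1
  have e1 : Nat.card {w : Fin k → List P // IsStar A n D w} = hfin.toFinset.card := by
    refine Nat.subtype_card _ fun w => ?_
    rw [Set.Finite.mem_toFinset]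
    rfl
  rw [e1]
  refine card_bij' (fun w _ => ⟨Function.update w j [], w j⟩) (fun z _ => Function.update z.1 j z.2)
    ?_ ?_ ?_ ?_
  · intro w hw
    rw [Set.Finite.mem_toFinset] at hw
    obtain ⟨h1, h2, h3⟩ := hw
    rw [mem_sigma, mem_Uf, mem_KR]
    dsimp only
    refine ⟨⟨Function.update_self _ _ _, fun i hi => ?_⟩, h1 j, fun x hx => ⟨h3 j x hx, ?_, ?_, ?_⟩⟩
    · rw [Function.update_of_ne hi]
      exact h1 i
    · intro i hxi
      by_cases hi : i = j
      · subst hi
        rw [Function.update_self] at hxi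
        exact absurd hxi List.not_mem_nil
      · rw [Function.update_of_ne hi] at hxi
        exact h2 i j hi x hxi hx
    · intro i i' hii y hy hy'
      by_cases hi : i = j
      · subst hi
        rw [Function.update_self] at hy
        exact absurd hy List.not_mem_nil
      · by_cases hi' : i' = j
        · subst hi'
          rw [Function.update_self] at hy'
          exact absurd hy' List.not_mem_nil
        · rw [Function.update_of_ne hi] at hy
          rw [Function.update_of_ne hi'] at hy'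
          exact h2 i i' hii y hy hy'
    · intro i y hy
      by_cases hi : i = j
      · subst hi
        rw [Function.update_self] at hy
        exact absurd hy List.not_mem_nil
      · rw [Function.update_of_ne hi] at hy
        exact h3 i y hy
  · rintro ⟨u, v⟩ hz
    rw [mem_sigma, mem_Uf, mem_KR] at hz
    obtain ⟨⟨h1, h2⟩, h3, h4⟩ := hz
    simp only at h1 h2 h3 h4
    rw [Set.Finite.mem_toFinset]
    have h0 := h4 0 (head_mem (Z := Z) h3)
    refine ⟨fun i => ?_, fun i i' hii y hy hy' => ?_, fun i x hx => ?_⟩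
    · by_cases hi : i = j
      · subst hi
        rw [Function.update_self]
        exact h3
      · rw [Function.update_of_ne hi]
        exact h2 i hi
    · by_cases hi : i = j
      · subst hi
        rw [Function.update_self] at hy
        rw [Function.update_of_ne (Ne.symm hii)] at hy'
        exact (h4 y hy).2.1 i' hy'
      · rw [Function.update_of_ne hi] at hy
        by_cases hi' : i' = j
        · subst hi'
          rw [Function.update_self] at hy'
          exact (h4 y hy').2.1 i hy
        · rw [Function.update_of_ne hi'] at hy'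
          exact h0.2.2.1 i i' hii y hy hy'
    · by_cases hi : i = j
      · subst hi
        rw [Function.update_self] at hx
        exact (h4 x hx).1
      · rw [Function.update_of_ne hi] at hx
        exact h0.2.2.2 i x hx
  · intro w _
    simp
  · rintro ⟨u, v⟩ hz
    rw [mem_sigma, mem_Uf] at hz
    obtain ⟨⟨h1, h2⟩, h3⟩ := hz
    simp only at h1
    have e : Function.update (Function.update u j v) j [] = u := by
      rw [Function.update_idem, ← h1, Function.update_eq_self]
    simp [e]

section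

variable {Ω : Type} [MeasurableSpace Ω]

/-- the mean number of stars -/
noncomputable def FS (A : P → P → Prop) (ν : Measure Ω) (D : Ω → Set P) (n : Fin k → ℕ) : ℝ :=
  ∫ ω, (Nat.card {w : Fin k → List P // IsStar A n (D ω) w} : ℝ) ∂ν

/-- the probability that the arms are disjoint and in `D` -/
noncomputable def PS (A : P → P → Prop) (ν : Measure Ω) (D : Ω → Set P) (n : Fin k → ℕ) : ℝ :=
  FS A ν D n / ∏ i, ((Kw A (n i)).card : ℝ)

instance ms : MeasurableSpace (Fin k → List P) := ⊤

/-- the relation on the product space -/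
def RR (j : Fin k) (D : Ω → Set P) (z : Ω × (Fin k → List P)) (e x : P) : Prop :=
  Rel j (D z.1) z.2 e x

theorem RR_meas (j : Fin k) {D : Ω → Set P} (hD : ∀ x, MeasurableSet {ω | x ∈ D ω}) (e x : P) :
    MeasurableSet {z : Ω × (Fin k → List P) | RR j D z e x} := by
  have h : {z : Ω × (Fin k → List P) | RR j D z e x} =
      ⋃ u : Fin k → List P, ({ω | RR j D (ω, u) e x} ×ˢ {u}) := by
    ext ⟨ω, u⟩
    simp
  rw [h]
  refine MeasurableSet.iUnion fun u => MeasurableSet.prod ?_ trivial
  have h2 : {ω | RR j D (ω, u) e x} = {ω | x ∈ D ω} ∩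
      ({ω | (∀ i, x ∈ u i → x = 0) ∧ (∀ i i', i ≠ i' → ∀ y ∈ u i, y ∈ u i' → y = 0)} ∩
      ⋂ i, ⋂ y ∈ (u i).toFinset, {ω | y ∈ D ω}) := by
    ext ω
    unfold RR Rel
    simp only [Set.mem_ofPred_eq, Set.mem_inter_iff, Set.mem_iInter, List.mem_toFinset]
    tauto
  rw [h2]
  refine (hD x).inter ((MeasurableSet.const _).inter (MeasurableSet.iInter fun i => ?_))
  exact Finset.measurableSet_biInter _ fun y _ => hD y

/-- **stars as restricted walks on the product space** -/
theorem FS_eq (Z : Rule A) (ν : Measure Ω) [IsProbabilityMeasure ν] {D : Ω → Set P}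
    (hD : ∀ x, MeasurableSet {ω | x ∈ D ω}) (n : Fin k → ℕ) (j : Fin k)
    (hU : 0 < (Uf A n j).card) (m : ℕ) :
    FS A ν D (Function.update n j m) = (Uf A n j).card *
      FF A (ν.prod (wlaw (Uf A n j) (fun _ => 1))) (RR j D) m := by
  have hw : ∀ u ∈ Uf A n j, (0 : ℝ) ≤ (fun _ : Fin k → List P => (1 : ℝ)) u := fun _ _ => by
    norm_num
  have hs : (0 : ℝ) < ∑ u ∈ Uf A n j, (fun _ : Fin k → List P => (1 : ℝ)) u := by
    simp only [sum_const, nsmul_eq_mul, mul_one]
    exact_mod_cast hU
  have := wlaw_prob (Uf A n j) (fun _ => (1 : ℝ)) hw hs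
  have hi := integrable_card (A := A) (ν.prod (wlaw (Uf A n j) (fun _ => 1))) (RR_meas j hD) m
  unfold FF
  rw [integral_prod _ hi]
  have h1 : ∀ ω, ∫ u, ((KR A (RR j D (ω, u)) m).card : ℝ) ∂(wlaw (Uf A n j) (fun _ => 1)) =
      (∑ u ∈ Uf A n j, ((KR A (Rel j (D ω) u) m).card : ℝ)) / (Uf A n j).card := by
    intro ω
    have h2 := wlaw_int (Uf A n j) (fun _ => (1 : ℝ)) hw hs
      (fun u => ((KR A (RR j D (ω, u)) m).card : ℝ))
    simp only [sum_const, nsmul_eq_mul, mul_one, one_mul] at h2
    exact h2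
  simp only [h1]
  rw [integral_div, mul_div_cancel₀ _ (by exact_mod_cast hU.ne')]
  unfold FS
  refine integral_congr_ae (Filter.Eventually.of_forall fun ω => ?_)
  show ((Nat.card {w : Fin k → List P // IsStar A (Function.update n j m) (D ω) w} : ℕ) : ℝ) = _
  rw [card_star Z _ j, Uf_update, Function.update_self]
  push_cast
  rfl

theorem card_Uf_pos {Z : Rule A} {μ K : ℝ} (G : Growth Z μ K) (n : Fin k → ℕ) (j : Fin k) :
    0 < (Uf A n j).card := by
  have hμ : 0 < μ := by linarith [G.hμ]
  rw [card_pos]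
  have h : ∀ m, (Kw A m).Nonempty := by
    intro m
    rw [← card_pos]
    have : (0 : ℝ) < (Kw A m).card := lt_of_lt_of_le (by positivity) (G.low m)
    exact_mod_cast this
  unfold Uf
  rw [Fintype.piFinset_nonempty]
  intro i
  by_cases hi : i = j
  · subst hi
    rw [Function.update_self]
    exact singleton_nonempty _
  · rw [Function.update_of_ne hi]
    exact h _

theorem PS_eq {Z : Rule A} {μ K : ℝ} (G : Growth Z μ K) (ν : Measure Ω) [IsProbabilityMeasure ν]
    {D : Ω → Set P} (hD : ∀ x, MeasurableSet {ω | x ∈ D ω}) (n : Fin k → ℕ) (j : Fin k) (m : ℕ) :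
    PS A ν D (Function.update n j m) =
      PP A (ν.prod (wlaw (Uf A n j) (fun _ => 1))) (RR j D) m := by
  unfold PS PP
  have hU := card_Uf_pos G n j
  have hU' : (0 : ℝ) < (Uf A n j).card := by exact_mod_cast hU
  rw [FS_eq Z ν hD n j hU m, card_Uf (A := A) (Function.update n j m) j, Uf_update,
    Function.update_self, mul_comm ((Kw A m).card : ℝ), mul_div_mul_left _ _ hU'.ne']

end

/-- **the ratio theorem for stars** -/
theorem main {Z : Rule A} {μ K : ℝ} (G : Growth Z μ K) : ∃ (C δ : ℝ) (N : ℕ), 0 < C ∧ 0 < δ ∧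
    2 ≤ N ∧ ∀ (k : ℕ) (Ω : Type) [MeasurableSpace Ω] (ν : Measure Ω) [IsProbabilityMeasure ν]
      (D : Ω → Set P), (∀ x, MeasurableSet {ω | x ∈ D ω}) → ∀ (n : Fin k → ℕ) (j : Fin k),
      (N ≤ n j → Real.exp (-δ * n j) ≤ PS A ν D n →
        |FS A ν D (Function.update n j (n j + Z.s)) / (μ ^ Z.s * FS A ν D n) - 1| ≤
          C * √((Real.log (1 / PS A ν D n) + Real.log (n j) ^ 2) / n j) ∧
        ∀ D' : Ω → Set P, (∀ x, MeasurableSet {ω | x ∈ D' ω}) → (∀ ω, D' ω ⊆ D ω) →
          |FS A ν D' (Function.update n j (n j + Z.s)) /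
            FS A ν D (Function.update n j (n j + Z.s)) - FS A ν D' n / FS A ν D n| ≤
          C * √((Real.log (1 / PS A ν D n) + Real.log (n j) ^ 2) / n j)) ∧
      (∀ m : ℕ, 2 ≤ n j → n j ≤ m → Z.s ∣ m - n j →
        |PS A ν D (Function.update n j m) - PS A ν D n| ≤
          C * ((m - n j : ℝ) * Real.log (n j) / √(n j : ℝ))) := by
  obtain ⟨C, δ, N, hC, hδ, hN, h⟩ := Q78.UR.main G
  refine ⟨C, δ, N, hC, hδ, hN, ?_⟩
  intro k Ω _ ν _ D hD n j
  have hU := card_Uf_pos G n j
  have hU' : (0 : ℝ) < (Uf A n j).card := by exact_mod_cast hU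
  have : @IsProbabilityMeasure (Fin k → List P) ⊤ (wlaw (Uf A n j) (fun _ => 1)) :=
    wlaw_prob (Uf A n j) (fun _ => (1 : ℝ)) (fun _ _ => by norm_num) (by
      simp only [sum_const, nsmul_eq_mul, mul_one]
      exact hU')
  have hFS : ∀ (E : Ω → Set P), (∀ x, MeasurableSet {ω | x ∈ E ω}) → ∀ m,
      FS A ν E (Function.update n j m) = (Uf A n j).card *
      FF A (ν.prod (wlaw (Uf A n j) (fun _ => 1))) (RR j E) m := fun E hE m =>
    FS_eq Z ν hE n j hU m
  have hFS0 : ∀ (E : Ω → Set P), (∀ x, MeasurableSet {ω | x ∈ E ω}) →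
      FS A ν E n = (Uf A n j).card *
      FF A (ν.prod (wlaw (Uf A n j) (fun _ => 1))) (RR j E) (n j) := fun E hE => by
    rw [← hFS E hE (n j), Function.update_eq_self]
  have hPS0 : PS A ν D n = PP A (ν.prod (wlaw (Uf A n j) (fun _ => 1))) (RR j D) (n j) := by
    rw [← PS_eq G ν hD n j (n j), Function.update_eq_self]
  obtain ⟨-, h2, h3⟩ := h (Ω × (Fin k → List P)) (ν.prod (wlaw (Uf A n j) (fun _ => 1)))
    (RR j D) (RR_meas j hD)
  refine ⟨fun hn hp => ?_, fun m h1 h2 h4 => ?_⟩
  · rw [hPS0] at hp ⊢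
    obtain ⟨h4, h5⟩ := h2 (n j) hn hp
    refine ⟨?_, fun D' hD' hsub => ?_⟩
    · rw [hFS D hD, hFS0 D hD]
      have e : ∀ X Y : ℝ, (Uf A n j).card * X / (μ ^ Z.s * ((Uf A n j).card * Y)) =
          X / (μ ^ Z.s * Y) := by
        intro X Y
        rw [show μ ^ Z.s * ((Uf A n j).card * Y) = (Uf A n j).card * (μ ^ Z.s * Y) by ring,
          mul_div_mul_left _ _ hU'.ne']
      rw [e]
      exact h4
    · rw [hFS D hD, hFS0 D hD, hFS D' hD', hFS0 D' hD', mul_div_mul_left _ _ hU'.ne',
        mul_div_mul_left _ _ hU'.ne']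
      refine h5 (RR j D') (RR_meas j hD') ?_
      rintro ⟨ω, u⟩ e x ⟨g1, g2, g3, g4⟩
      exact ⟨hsub ω g1, g2, g3, fun i y hy => hsub ω (g4 i y hy)⟩
  · rw [hPS0, PS_eq G ν hD n j m]
    exact h3 (n j) m h1 h2 h4

end Q78.UR.Star
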