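import Pool.Agent.Q78.UR.Star
import Pool.Agent.Q168.Cone.Main

set_option autoImplicit false

/-! Four-armed stars on the square lattice. -/

namespace Q78.UR.Star

open Finset Filter Topology MeasureTheory TH966.AK Q294.Rs

theorem walks_eq (n : ℕ) : Pool.Agent.H122R3.SX.walks n = wks Sq.A n := by
  unfold Pool.Agent.H122R3.SX.walks wks
  ext f
  simp only [Set.mem_ofPred_eq, Sq.A_abs, Pool.Agent.H122R3.SX.Adj]
  refine and_congr Iff.rfl (and_congr Iff.rfl (forall_congr' fun i => ?_))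
  rw [abs_sub_comm, abs_sub_comm (f i.castSucc).2]

theorem cc_eq (n : ℕ) : Pool.Agent.Q168.Cone.cc n = (Kw Sq.A n).card := by
  unfold Pool.Agent.Q168.Cone.cc
  rw [walks_eq, card_wks Sq.rule]

theorem star_finite {A : P → P → Prop} {k : ℕ} (n : Fin k → ℕ) (D : Set P) :
    {w : Fin k → List P | IsStar A n D w}.Finite := by
  classical
  refine Set.Finite.subset (Finset.finite_toSet (Fintype.piFinset (fun i => Kw A (n i)))) ?_
  intro w hw
  rw [mem_coe, Fintype.mem_piFinset]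
  exact hw.1

/-- **four arms** -/
theorem four_low : ∃ K : ℝ, 0 ≤ K ∧ ∀ n : Fin 4 → ℕ,
    Real.exp (-(K * ∑ j, Real.log ((n j : ℝ) + 2) ^ 3)) * (∏ j, ((Kw Sq.A (n j)).card : ℝ)) ≤
      (Nat.card {w : Fin 4 → List P // IsStar Sq.A n Set.univ w} : ℝ) := by
  obtain ⟨K, hK, h⟩ := Pool.Agent.Q168.Cone.stars
  refine ⟨K, hK, fun n => ?_⟩
  have h1 := h n
  have e1 : ∏ j, Pool.Agent.Q168.Cone.los K (n j) =
      Real.exp (-(K * ∑ j, Real.log ((n j : ℝ) + 2) ^ 3)) := by
    unfold Pool.Agent.Q168.Cone.los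
    rw [← Real.exp_sum]
    congr 1
    rw [Finset.mul_sum, Finset.sum_neg_distrib]
  have e2 : ∏ j, (Pool.Agent.Q168.Cone.cc (n j) : ℝ) = ∏ j, ((Kw Sq.A (n j)).card : ℝ) :=
    prod_congr rfl fun j _ => by rw [cc_eq]
  rw [e1, e2] at h1
  refine h1.trans ?_
  have hfin : Finite {w : Fin 4 → List P // IsStar Sq.A n Set.univ w} :=
    (star_finite n Set.univ).to_subtype
  have hmem : ∀ f : (j : Fin 4) → Fin (n j + 1) → ℤ × ℤ,
      ((∀ j, f j ∈ Pool.Agent.H122R3.SX.walks (n j)) ∧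
        ∀ j k, j ≠ k → ∀ i i', f j i = f k i' → f j i = 0) →
      IsStar Sq.A n Set.univ (fun j => List.ofFn (f j)) := by
    rintro f ⟨g1, g2⟩
    refine ⟨fun i => ?_, fun i j hij x hx hx' => ?_, fun _ _ _ => trivial⟩
    · rw [← mem_coe, ← image_wks Sq.rule]
      exact ⟨f i, by rw [← walks_eq]; exact g1 i, rfl⟩
    · rw [List.mem_ofFn] at hx hx'
      obtain ⟨a, rfl⟩ := hx
      obtain ⟨b, hb⟩ := hx'
      exact g2 i j hij a b hb.symm
  have h2 := Nat.card_le_card_of_injective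
    (fun f : {f : (j : Fin 4) → Fin (n j + 1) → ℤ × ℤ //
      (∀ j, f j ∈ Pool.Agent.H122R3.SX.walks (n j)) ∧
        ∀ j k, j ≠ k → ∀ i i', f j i = f k i' → f j i = 0} =>
      (⟨fun j => List.ofFn (f.1 j), hmem f.1 f.2⟩ :
        {w : Fin 4 → List P // IsStar Sq.A n Set.univ w})) (by
      intro f g hfg
      apply Subtype.ext
      funext j
      have h3 := congrFun (congrArg Subtype.val hfg) j
      exact List.ofFn_injective h3)
  exact_mod_cast h2

theorem log_cube {m : ℕ} : Real.log (m : ℝ) ^ 2 ≤ 2 * Real.log ((m : ℝ) + 2) ^ 3 := by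
  have hm0 : (0 : ℝ) ≤ m := Nat.cast_nonneg _
  have h2 : (0.69 : ℝ) ≤ Real.log ((m : ℝ) + 2) := by
    have := Real.log_le_log (by norm_num) (show (2 : ℝ) ≤ (m : ℝ) + 2 by linarith)
    linarith [Real.log_two_gt_d9]
  have h0 : 0 ≤ Real.log (m : ℝ) := Real.log_natCast_nonneg m
  have h1 : Real.log (m : ℝ) ≤ Real.log ((m : ℝ) + 2) := by
    rcases Nat.eq_zero_or_pos m with h | h
    · subst h
      simp only [Nat.cast_zero, Real.log_zero]
      simp at h2 ⊢
      positivity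
    · exact Real.log_le_log (by exact_mod_cast h) (by linarith)
  have h3 : Real.log (m : ℝ) ^ 2 ≤ Real.log ((m : ℝ) + 2) ^ 2 := pow_le_pow_left₀ h0 h1 2
  nlinarith [sq_nonneg (Real.log ((m : ℝ) + 2))]

/-- **the ratio theorem for four arms** -/
theorem four : ∃ (C δ : ℝ) (N : ℕ), 0 < C ∧ 0 < δ ∧ ∀ (n : Fin 4 → ℕ) (j : Fin 4), N ≤ n j →
    ∑ i, Real.log ((n i : ℝ) + 2) ^ 3 ≤ δ * n j →
    |(Nat.card {w : Fin 4 → List P //
        IsStar Sq.A (Function.update n j (n j + 2)) Set.univ w} : ℝ) /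
      (H981.mu ^ 2 * (Nat.card {w : Fin 4 → List P // IsStar Sq.A n Set.univ w} : ℝ)) - 1| ≤
      C * √((∑ i, Real.log ((n i : ℝ) + 2) ^ 3) / n j) ∧
    ∀ U : Set P,
      |(Nat.card {w : Fin 4 → List P //
          IsStar Sq.A (Function.update n j (n j + 2)) U w} : ℝ) /
        (Nat.card {w : Fin 4 → List P //
          IsStar Sq.A (Function.update n j (n j + 2)) Set.univ w} : ℝ) -
        (Nat.card {w : Fin 4 → List P // IsStar Sq.A n U w} : ℝ) /
        (Nat.card {w : Fin 4 → List P // IsStar Sq.A n Set.univ w} : ℝ)| ≤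
      C * √((∑ i, Real.log ((n i : ℝ) + 2) ^ 3) / n j) := by
  obtain ⟨K, hK, hlow⟩ := four_low
  obtain ⟨K', G⟩ := Sq.growth
  obtain ⟨C, δ, N, hC, hδ, hN, h⟩ := main G
  refine ⟨C * √(K + 2), δ / (K + 1), max N 1, by positivity, by positivity, ?_⟩
  intro n j hn hsum
  have hnN : N ≤ n j := le_trans (le_max_left _ _) hn
  have hn0 : (0 : ℝ) < n j := by
    have : 0 < n j := by have := le_trans (le_max_right _ _) hn; omega
    exact_mod_cast this
  obtain ⟨S, hS⟩ : ∃ S, S = ∑ i, Real.log ((n i : ℝ) + 2) ^ 3 := ⟨_, rfl⟩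
  rw [← hS] at hsum ⊢
  have hnn : ∀ i, 0 ≤ Real.log ((n i : ℝ) + 2) ^ 3 := fun i => by
    have : (0 : ℝ) ≤ n i := Nat.cast_nonneg _
    have : 0 ≤ Real.log ((n i : ℝ) + 2) := Real.log_nonneg (by linarith)
    positivity
  have hS0 : 0 ≤ S := by rw [hS]; exact sum_nonneg fun i _ => hnn i
  have hFS : ∀ (U : Set P) (m : Fin 4 → ℕ),
      FS Sq.A (Measure.dirac ()) (fun _ => U) m =
      (Nat.card {w : Fin 4 → List P // IsStar Sq.A m U w} : ℝ) := by
    intro U m
    unfold FS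
    rw [integral_dirac]
  have hcpos : (0 : ℝ) < ∏ i, ((Kw Sq.A (n i)).card : ℝ) := prod_pos fun i _ =>
    lt_of_lt_of_le (pow_pos (by linarith [G.hμ]) _) (G.low (n i))
  have hPS : Real.exp (-(K * S)) ≤ PS Sq.A (Measure.dirac ()) (fun _ => Set.univ) n := by
    unfold PS
    rw [hFS, le_div_iff₀ hcpos, hS]
    exact hlow n
  obtain ⟨h1, -⟩ := h 4 Unit (Measure.dirac ()) (fun _ => Set.univ)
    (fun _ => MeasurableSet.const _) n j
  have hPpos : 0 < PS Sq.A (Measure.dirac ()) (fun _ => Set.univ) n :=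
    lt_of_lt_of_le (Real.exp_pos _) hPS
  obtain ⟨h2, h3⟩ := h1 hnN (by
    refine le_trans (Real.exp_le_exp.2 ?_) hPS
    have h4 : (K + 1) * S ≤ δ * n j := by
      rw [div_mul_eq_mul_div, le_div_iff₀ (by positivity)] at hsum
      linarith
    nlinarith)
  have herr : √((Real.log (1 / PS Sq.A (Measure.dirac ()) (fun _ => Set.univ) n) +
      Real.log (n j) ^ 2) / n j) ≤ √(K + 2) * √(S / n j) := by
    rw [← Real.sqrt_mul (by positivity)]
    refine Real.sqrt_le_sqrt ?_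
    rw [← mul_div_assoc]
    refine div_le_div_of_nonneg_right ?_ hn0.le
    have h4 : Real.log (1 / PS Sq.A (Measure.dirac ()) (fun _ => Set.univ) n) ≤ K * S := by
      rw [one_div, Real.log_inv]
      have := Real.log_le_log (Real.exp_pos _) hPS
      rw [Real.log_exp] at this
      linarith
    have h5 : Real.log (n j) ^ 2 ≤ 2 * S := by
      refine (log_cube (m := n j)).trans ?_
      refine mul_le_mul_of_nonneg_left ?_ (by norm_num)
      rw [hS]
      exact single_le_sum (f := fun i => Real.log ((n i : ℝ) + 2) ^ 3) (fun i _ => hnn i)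
        (mem_univ j)
    linarith
  have herr' := mul_le_mul_of_nonneg_left herr hC.le
  rw [← mul_assoc] at herr'
  have hZ : Sq.rule.s = 2 := rfl
  rw [hZ] at h2 h3
  rw [hFS, hFS] at h2
  refine ⟨h2.trans herr', fun U => ?_⟩
  have h6 := h3 (fun _ => U) (fun _ => MeasurableSet.const _) (fun _ => Set.subset_univ _)
  rw [hFS, hFS, hFS, hFS] at h6
  exact h6.trans herr'

end Q78.UR.Star
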