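import Pool.Agent.Q78.UR.Cond

set_option autoImplicit false

/-! Approximately log-convex probabilities: ratio, quotient, largest atom, total variation. The
place from which on the inequality holds is a variable. -/

namespace Q78.UR

open Finset Filter Topology

/-- **neighbouring terms**: the ratio is close to one if one of the two terms is not too small -/
theorem ratio1 (s : ℕ) (hs : 1 ≤ s) (D θ : ℝ) (hD : 0 ≤ D) (hθ0 : 0 < θ) (hθ1 : θ < 1) : ∃ (C δ : ℝ) (N0 : ℕ), 0 < C ∧ 0 < δ ∧ 3 ≤ N0 ∧ C * √δ ≤ 1 / 2 ∧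
      ∀ (N : ℕ) (x : ℕ → ℝ), Cx s N D θ 0 x → ∀ n, N0 ≤ n → 2 * N ≤ n → ∀ a : ℝ, 1 ≤ a →
      a ≤ δ * n →
      (Real.exp (-a) ≤ x n ∨ Real.exp (-a) ≤ x (n + s)) →
      |x (n + s) - x n| ≤ C * √(a / n) * x n := by
  obtain ⟨E, hE⟩ : ∃ E : ℝ, E = D + s := ⟨_, rfl⟩
  have hsR : (1 : ℝ) ≤ s := by exact_mod_cast hs
  have hE1 : 1 ≤ E := by linarith
  obtain ⟨Q, hQ⟩ : ∃ Q : ℝ, Q = 256 * E * 2 := ⟨_, rfl⟩
  have hQ0 : 0 < Q := by rw [hQ]; positivity
  obtain ⟨C, hC⟩ : ∃ C : ℝ, C = √Q := ⟨_, rfl⟩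
  have hC0 : 0 < C := by rw [hC]; exact Real.sqrt_pos.2 hQ0
  have hC2 : C ^ 2 = Q := by rw [hC]; exact Real.sq_sqrt hQ0.le
  have hlθ : 0 < Real.log (1 / θ) := Real.log_pos (by rw [lt_div_iff₀ hθ0]; linarith)
  obtain ⟨δ, hδ⟩ : ∃ δ : ℝ, δ = min (Real.log (1 / θ) / 4) (1 / (4 * C ^ 2)) := ⟨_, rfl⟩
  have hδ0 : 0 < δ := by rw [hδ]; exact lt_min (by linarith) (by positivity)
  have hδ1 : δ ≤ Real.log (1 / θ) / 4 := by rw [hδ]; exact min_le_left _ _
  have hδ2 : C * √δ ≤ 1 / 2 := by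
    have h1 : √δ ≤ √(1 / (4 * C ^ 2)) := Real.sqrt_le_sqrt (by rw [hδ]; exact min_le_right _ _)
    have h2 : √(1 / (4 * C ^ 2)) = 1 / (2 * C) := by
      rw [show 1 / (4 * C ^ 2) = (1 / (2 * C)) ^ 2 by rw [div_pow, mul_pow]; norm_num,
        Real.sqrt_sq (by positivity)]
    rw [h2] at h1
    calc C * √δ ≤ C * (1 / (2 * C)) := mul_le_mul_of_nonneg_left h1 hC0.le
      _ = 1 / 2 := by field_simp
  refine ⟨C, δ, 2 * s + 4, hC0, hδ0, by omega, hδ2, ?_⟩
  intro N x hx n hn hnN a ha ha2 hor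
  have hn3 : 3 ≤ n := by omega
  have hnR : (0 : ℝ) < n := by
    have : 0 < n := by omega
    exact_mod_cast this
  obtain ⟨ε, hε⟩ : ∃ ε : ℝ, ε = C * √(a / n) := ⟨_, rfl⟩
  have hε0 : 0 < ε := by rw [hε]; exact mul_pos hC0 (Real.sqrt_pos.2 (by positivity))
  have hε1 : ε ≤ 1 / 2 := by
    rw [hε]
    refine le_trans (mul_le_mul_of_nonneg_left (Real.sqrt_le_sqrt ?_) hC0.le) hδ2
    rw [div_le_iff₀ hnR]
    exact ha2
  have hε2 : ε ^ 2 * n = Q * a := by
    rw [hε, mul_pow, Real.sq_sqrt (by positivity), hC2]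
    field_simp
  rw [← hε]
  have hxn := hx.nn n
  rw [abs_le]
  constructor
  · -- lower bound
    by_contra hcon
    have h1 : x (n + s) ≤ (1 - ε) * x n := by linarith
    have h2 : Real.exp (-a) ≤ x n := by
      rcases hor with h | h
      · exact h
      · refine h.trans (h1.trans ?_)
        nlinarith
    obtain ⟨J, hJ⟩ : ∃ J : ℕ, J = ⌊ε * n / (8 * E)⌋₊ := ⟨_, rfl⟩
    have hJ1 : (J : ℝ) ≤ ε * n / (8 * E) := by
      rw [hJ]; exact Nat.floor_le (by positivity)
    have hJ2 : ε * n / (8 * E) < J + 1 := by rw [hJ]; exact Nat.lt_floor_add_one _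
    rw [le_div_iff₀ (by positivity)] at hJ1
    have hJ0 : (0 : ℝ) ≤ J := Nat.cast_nonneg _
    have hJs : (J : ℝ) * s ≤ n / 2 := by
      have h3 : (J : ℝ) * s ≤ J * E := mul_le_mul_of_nonneg_left (by linarith) hJ0
      nlinarith
    have hJs' : J * s ≤ n / 2 := by
      rw [Nat.le_div_iff_mul_le (by norm_num)]
      have : (J : ℝ) * s * 2 ≤ n := by linarith
      exact_mod_cast this
    have hJD : 2 * (J : ℝ) * D ≤ ε * n / 4 := by
      have h3 : (J : ℝ) * D ≤ J * E := mul_le_mul_of_nonneg_left (by linarith) hJ0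
      nlinarith
    have hfin := (backward hx hD (n := n) (m := n - J * s) (J := J) (ε := ε) (by omega) (by omega)
      (by omega) (by omega) hε0 (by linarith) (Real.exp_pos (-a))
      (fun i hi => pow_le_exp hθ0 hδ1 hδ0 ha2 (by omega)) h1 h2 hJD J le_rfl 0 (by omega)).2
    rw [zero_mul, add_zero] at hfin
    have h4 : x (n - J * s) ≤ Real.exp 0 := by
      refine (hx.up _ (by omega)).trans (Real.exp_le_exp.2 ?_)
      rw [zero_mul]
    have h5 := grow_end hε0 (by linarith) (hfin.trans h4)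
    have h6 : ε * n / (8 * E) * (ε / 4) ≤ (J + 1) * (ε / 4) :=
      mul_le_mul_of_nonneg_right hJ2.le (by linarith)
    have h7 : ε * n / (8 * E) * (ε / 4) = 16 * a := by
      have : ε * n / (8 * E) * (ε / 4) = ε ^ 2 * n / (32 * E) := by field_simp; ring
      rw [this, hε2, hQ]
      field_simp
      ring
    have h8 : ((J : ℝ) + 1) * (ε / 4) = J * (ε / 4) + ε / 4 := by ring
    linarith
  · by_contra hcon
    have h1 : (1 + ε) * x n ≤ x (n + s) := by linarith
    have h2 : Real.exp (-a) ≤ x (n + s) := by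
      rcases hor with h | h
      · refine h.trans (le_trans ?_ h1)
        nlinarith
      · exact h
    obtain ⟨J, hJ⟩ : ∃ J : ℕ, J = ⌊ε * n / (4 * E)⌋₊ := ⟨_, rfl⟩
    have hJ1 : (J : ℝ) ≤ ε * n / (4 * E) := by
      rw [hJ]; exact Nat.floor_le (by positivity)
    have hJ2 : ε * n / (4 * E) < J + 1 := by rw [hJ]; exact Nat.lt_floor_add_one _
    rw [le_div_iff₀ (by positivity)] at hJ1
    have hJ0 : (0 : ℝ) ≤ J := Nat.cast_nonneg _
    have hJs : (J : ℝ) * s ≤ n / 2 := by
      have h3 : (J : ℝ) * s ≤ J * E := mul_le_mul_of_nonneg_left (by linarith) hJ0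
      nlinarith
    have hJs' : J * s ≤ n / 2 := by
      rw [Nat.le_div_iff_mul_le (by norm_num)]
      have : (J : ℝ) * s * 2 ≤ n := by linarith
      exact_mod_cast this
    have hJD : (J : ℝ) * D ≤ ε * n / 4 := by
      have h3 : (J : ℝ) * D ≤ J * E := mul_le_mul_of_nonneg_left (by linarith) hJ0
      nlinarith
    have hfin := (forward hx hD (n := n) (J := J) (ε := ε) (by omega) (by omega) hε0
      (by linarith) (Real.exp_pos (-a))
      (fun i hi => pow_le_exp hθ0 hδ1 hδ0 ha2 (by omega)) h1 h2 hJD J le_rfl).2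
    have e : (J + 1) * s = J * s + s := by ring
    have h4 : x (n + (J + 1) * s) ≤ Real.exp 0 := by
      refine (hx.up _ (by omega)).trans (Real.exp_le_exp.2 ?_)
      rw [zero_mul]
    have h5 := grow_end hε0 (by linarith) (hfin.trans h4)
    have h6 : ε * n / (4 * E) * (ε / 4) ≤ (J + 1) * (ε / 4) :=
      mul_le_mul_of_nonneg_right hJ2.le (by linarith)
    have h7 : ε * n / (4 * E) * (ε / 4) = 32 * a := by
      have : ε * n / (4 * E) * (ε / 4) = ε ^ 2 * n / (16 * E) := by field_simp; ring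
      rw [this, hε2, hQ]
      field_simp
      ring
    have h8 : ((J : ℝ) + 1) * (ε / 4) = J * (ε / 4) + ε / 4 := by ring
    linarith

/-- **ratio and quotient at neighbouring places** -/
theorem nested1 (s : ℕ) (hs : 1 ≤ s) (D θ : ℝ) (hD : 0 ≤ D) (hθ0 : 0 < θ) (hθ1 : θ < 1) : ∃ (C δ : ℝ) (N0 : ℕ), 0 < C ∧ 0 < δ ∧ 3 ≤ N0 ∧
      ∀ (N : ℕ) (x y : ℕ → ℝ), Cx s N D θ 0 x → Cx s N D θ 0 y → (∀ n, y n ≤ x n) →
      ∀ n, N0 ≤ n → 2 * N ≤ n →
      ∀ a : ℝ, 1 ≤ a → a ≤ δ * n → Real.exp (-a) ≤ x n →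
      |x (n + s) / x n - 1| ≤ C * √(a / n) ∧
      |y (n + s) / x (n + s) - y n / x n| ≤ C * √(a / n) := by
  obtain ⟨C, δ, N0, hC, hδ, hN0, hCδ, h⟩ := ratio1 s hs D θ hD hθ0 hθ1
  obtain ⟨N1, hN1⟩ := eventually_atTop.1 (exp_small (δ / 2) (by linarith))
  refine ⟨2 * (C + max C 1), δ / 2, max N0 N1, by positivity, by linarith,
    hN0.trans (le_max_left _ _), ?_⟩
  intro N x y hx hy hyx n hn hnN a ha ha2 hax
  have hnN0 : N0 ≤ n := le_trans (le_max_left _ _) hn
  have hnN1 : N1 ≤ n := le_trans (le_max_right _ _) hn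
  have hn3 : 3 ≤ n := hN0.trans hnN0
  have hnR : (0 : ℝ) < n := by
    have : 0 < n := by omega
    exact_mod_cast this
  have ha3 : a ≤ δ * n := by nlinarith
  have hX : 0 < x n := lt_of_lt_of_le (Real.exp_pos _) hax
  obtain ⟨e, he⟩ : ∃ e, e = √(a / n) := ⟨_, rfl⟩
  have he0 : 0 ≤ e := by rw [he]; exact Real.sqrt_nonneg _
  have hCe : C * e ≤ 1 / 2 := by
    refine le_trans (mul_le_mul_of_nonneg_left ?_ hC.le) hCδ
    rw [he]
    refine Real.sqrt_le_sqrt ?_
    rw [div_le_iff₀ hnR]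
    exact ha3
  have r1 := h N x hx n hnN0 hnN a ha ha3 (Or.inl hax)
  rw [← he] at r1 ⊢
  have r2 : |y (n + s) - y n| ≤ max C 1 * e * x n := by
    obtain ⟨M, hM⟩ : ∃ M, M = max (y n) (y (n + s)) := ⟨_, rfl⟩
    have hyn := hy.nn n
    have hyn' := hy.nn (n + s)
    by_cases hc : Real.exp (-(δ * n)) ≤ M
    · have hM0 : 0 < M := lt_of_lt_of_le (Real.exp_pos _) hc
      obtain ⟨a', ha'⟩ : ∃ a', a' = max a (-Real.log M) := ⟨_, rfl⟩
      have h1 : a ≤ a' := by rw [ha']; exact le_max_left _ _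
      have h2 : Real.exp (-a') ≤ M := by
        have : -Real.log M ≤ a' := by rw [ha']; exact le_max_right _ _
        calc Real.exp (-a') ≤ Real.exp (Real.log M) := Real.exp_le_exp.2 (by linarith)
          _ = M := Real.exp_log hM0
      have h3 : a' ≤ δ * n := by
        rw [ha']
        refine max_le ha3 ?_
        have := Real.log_le_log (Real.exp_pos _) hc
        rw [Real.log_exp] at this
        linarith
      have h4 := h N y hy n hnN0 hnN a' (ha.trans h1) h3 (by rwa [hM, le_max_iff] at h2)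
      have h5 : √(a' / n) * y n ≤ e * x n := by
        rcases le_total (-Real.log M) a with h6 | h6
        · have h7 : a' = a := by rw [ha']; exact max_eq_left h6
          rw [h7, ← he]
          exact mul_le_mul_of_nonneg_left (hyx n) he0
        · have h7 : a' = -Real.log M := by rw [ha']; exact max_eq_right h6
          have h8 : y n ≤ Real.exp (-a') := by
            rw [h7, neg_neg, Real.exp_log hM0, hM]
            exact le_max_left _ _
          have h9 := sqrt_shift ha h1 hnR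
          rw [← he] at h9
          calc √(a' / n) * y n ≤ (e * Real.exp (a' - a)) * Real.exp (-a') :=
                mul_le_mul h9 h8 hyn (by positivity)
            _ = e * Real.exp (-a) := by
                rw [mul_assoc, ← Real.exp_add]
                ring_nf
            _ ≤ e * x n := mul_le_mul_of_nonneg_left hax he0
      calc |y (n + s) - y n| ≤ C * √(a' / n) * y n := h4
        _ = C * (√(a' / n) * y n) := by ring
        _ ≤ C * (e * x n) := mul_le_mul_of_nonneg_left h5 hC.le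
        _ ≤ max C 1 * (e * x n) := mul_le_mul_of_nonneg_right (le_max_left _ _) (by positivity)
        _ = _ := by ring
    · push Not at hc
      have h1 : |y (n + s) - y n| ≤ M := by
        rw [abs_le]
        have m1 : y n ≤ M := by rw [hM]; exact le_max_left _ _
        have m2 : y (n + s) ≤ M := by rw [hM]; exact le_max_right _ _
        constructor <;> linarith
      have h2 : Real.exp (-(δ * n)) ≤ Real.exp (-(δ / 2 * n)) * x n := by
        calc Real.exp (-(δ * n)) = Real.exp (-(δ / 2 * n)) * Real.exp (-(δ / 2 * n)) := by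
              rw [← Real.exp_add]; ring_nf
          _ ≤ Real.exp (-(δ / 2 * n)) * Real.exp (-a) :=
              mul_le_mul_of_nonneg_left (Real.exp_le_exp.2 (by linarith)) (Real.exp_pos _).le
          _ ≤ _ := mul_le_mul_of_nonneg_left hax (Real.exp_pos _).le
      have h3 := hN1 n hnN1
      have h4 : 1 / √(n : ℝ) ≤ e := by
        rw [he, Real.sqrt_div (by linarith)]
        refine div_le_div_of_nonneg_right ?_ (Real.sqrt_nonneg _)
        rw [Real.one_le_sqrt]
        exact ha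
      calc |y (n + s) - y n| ≤ M := h1
        _ ≤ Real.exp (-(δ / 2 * n)) * x n := hc.le.trans h2
        _ ≤ e * x n := mul_le_mul_of_nonneg_right (h3.trans h4) hX.le
        _ ≤ max C 1 * (e * x n) := by
            have : (1 : ℝ) ≤ max C 1 := le_max_right _ _
            have h5 : 0 ≤ e * x n := by positivity
            nlinarith
        _ = _ := by ring
  constructor
  · have h1 : x (n + s) / x n - 1 = (x (n + s) - x n) / x n := by field_simp
    rw [h1, abs_div, abs_of_pos hX, div_le_iff₀ hX]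
    refine r1.trans ?_
    have h2 : 0 ≤ e * x n := by positivity
    have h3 : C ≤ 2 * (C + max C 1) := by
      have : (1 : ℝ) ≤ max C 1 := le_max_right _ _
      linarith
    calc C * e * x n = C * (e * x n) := by ring
      _ ≤ 2 * (C + max C 1) * (e * x n) := mul_le_mul_of_nonneg_right h3 h2
      _ = _ := by ring
  · exact quot_aux hX (hy.nn n) (hyx n) he0 hC.le (by positivity) hCe r1 r2

theorem log_lin {δ : ℝ} (hδ : 0 < δ) : ∀ᶠ n : ℕ in atTop, 2 * (1 + Real.log n) ≤ δ * n := by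
  have h1 : Tendsto (fun n : ℕ => Real.log n / (n : ℝ)) atTop (𝓝 0) :=
    (Real.isLittleO_log_id_atTop.tendsto_div_nhds_zero).comp tendsto_natCast_atTop_atTop
  have h2 : Tendsto (fun n : ℕ => 1 / (n : ℝ)) atTop (𝓝 0) := tendsto_one_div_atTop_nhds_zero_nat
  filter_upwards [h1.eventually_lt_const (show (0 : ℝ) < δ / 4 by linarith),
    h2.eventually_lt_const (show (0 : ℝ) < δ / 4 by linarith), eventually_ge_atTop 1] with n a b hn
  have hn0 : (0 : ℝ) < n := by exact_mod_cast hn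
  rw [div_lt_iff₀ hn0] at a b
  linarith

theorem one_le_log {n : ℕ} (hn : 3 ≤ n) : 1 ≤ Real.log n := by
  rw [← Real.log_exp 1]
  refine Real.log_le_log (Real.exp_pos _) ?_
  have h1 := Real.exp_one_lt_d9
  have : (3 : ℝ) ≤ n := by exact_mod_cast hn
  linarith

/-- **the largest atom** -/
theorem anti (s : ℕ) (hs : 1 ≤ s) (D θ : ℝ) (hD : 0 ≤ D) (hθ0 : 0 < θ) (hθ1 : θ < 1) :
    ∃ (C : ℝ) (N0 : ℕ), 0 < C ∧ 3 ≤ N0 ∧
      ∀ (N : ℕ) (x : ℕ → ℝ), Cx s N D θ 0 x → (∀ n J, ∑ j ∈ range J, x (n + j * s) ≤ 1) →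
      ∀ n, N0 ≤ n → 2 * N ≤ n → x n ≤ C * √(Real.log n / n) := by
  obtain ⟨C, δ, N0, hC, hδ, hN0, hCδ, h⟩ := ratio1 s hs D θ hD hθ0 hθ1
  obtain ⟨N1, hN1⟩ := eventually_atTop.1 (log_lin hδ)
  refine ⟨8 * C + 1, max N0 N1, by linarith, hN0.trans (le_max_left _ _), ?_⟩
  intro N x hx hsum n hn hnN
  have hnN0 : N0 ≤ n := le_trans (le_max_left _ _) hn
  have hn3 : 3 ≤ n := hN0.trans hnN0
  have hn0 : (0 : ℝ) < n := by
    have : 0 < n := by omega
    exact_mod_cast this
  have hlog := one_le_log hn3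
  have hx0 := hx.nn n
  have hsq0 : 0 ≤ √(Real.log n / n) := Real.sqrt_nonneg _
  by_cases hc : x n ≤ 1 / n
  · refine hc.trans ?_
    have h1 : 1 / (n : ℝ) ≤ √(Real.log n / n) := by
      refine Real.le_sqrt_of_sq_le ?_
      rw [div_pow, one_pow, sq, div_le_div_iff₀ (by positivity) hn0]
      have : (1 : ℝ) ≤ n := by
        have : 1 ≤ n := by omega
        exact_mod_cast this
      nlinarith
    nlinarith
  · push Not at hc
    obtain ⟨a, ha⟩ : ∃ a : ℝ, a = 1 + Real.log n := ⟨_, rfl⟩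
    have ha1 : 1 ≤ a := by linarith
    have haδ : a ≤ δ * n := by
      have := hN1 n (le_trans (le_max_right _ _) hn)
      linarith
    obtain ⟨ε, hε⟩ : ∃ ε : ℝ, ε = C * √(a / n) := ⟨_, rfl⟩
    have hε0 : 0 < ε := by rw [hε]; exact mul_pos hC (Real.sqrt_pos.2 (by positivity))
    have hε1 : ε ≤ 1 / 2 := by
      rw [hε]
      refine le_trans (mul_le_mul_of_nonneg_left (Real.sqrt_le_sqrt ?_) hC.le) hCδ
      rw [div_le_iff₀ hn0]
      exact haδ
    have hexp : Real.exp (-a) ≤ 1 / (2 * n) := by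
      rw [ha, neg_add, Real.exp_add, Real.exp_neg (Real.log n), Real.exp_log hn0, Real.exp_neg]
      have h1 := Real.exp_one_gt_d9
      rw [← mul_inv, one_div]
      refine inv_anti₀ (by positivity) ?_
      nlinarith
    have key : ∀ j : ℕ, 2 * (j : ℝ) * ε ≤ 1 → (1 - j * ε) * x n ≤ x (n + j * s) := by
      intro j
      induction j with
      | zero => intro _; simp
      | succ j ih =>
        intro hj
        push_cast at hj ⊢
        have ih' := ih (by nlinarith)
        have hnj : (n : ℝ) ≤ ((n + j * s : ℕ) : ℝ) := by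
          push_cast
          have : (0 : ℝ) ≤ (j : ℝ) * s := by positivity
          linarith
        have h1 : Real.exp (-a) ≤ x (n + j * s) := by
          have h2 : (1 : ℝ) / 2 ≤ 1 - j * ε := by nlinarith
          have h3 : 1 / 2 * (1 / (n : ℝ)) ≤ (1 - j * ε) * x n := by
            refine mul_le_mul h2 hc.le (by positivity) (by linarith)
          have h4 : 1 / 2 * (1 / (n : ℝ)) = 1 / (2 * n) := by field_simp
          linarith
        have h2 := h N x hx (n + j * s) (by omega) (by omega) a ha1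
          (haδ.trans (mul_le_mul_of_nonneg_left hnj hδ.le)) (Or.inl h1)
        have h3 : C * √(a / ((n + j * s : ℕ) : ℝ)) ≤ ε := by
          rw [hε]
          refine mul_le_mul_of_nonneg_left (Real.sqrt_le_sqrt ?_) hC.le
          exact div_le_div_of_nonneg_left (by linarith) hn0 hnj
        have h4 := (abs_le.1 h2).1
        have h5 : 0 ≤ x (n + j * s) := hx.nn _
        have e : n + (j + 1) * s = n + j * s + s := by ring
        rw [e]
        have h6 : (1 - ε) * x (n + j * s) ≤ x (n + j * s + s) := by nlinarith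
        have h7 : (1 - (j + 1) * ε) * x n ≤ (1 - ε) * ((1 - j * ε) * x n) := by
          have : 0 ≤ (j : ℝ) * ε * ε * x n := by positivity
          nlinarith
        have h8 : (1 - ε) * ((1 - j * ε) * x n) ≤ (1 - ε) * x (n + j * s) :=
          mul_le_mul_of_nonneg_left ih' (by linarith)
        linarith
    obtain ⟨J, hJ⟩ : ∃ J : ℕ, J = ⌊1 / (2 * ε)⌋₊ + 1 := ⟨_, rfl⟩
    have hJ1 : 1 / (2 * ε) ≤ J := by
      rw [hJ]; push_cast; exact (Nat.lt_floor_add_one _).le
    have h1 : ∑ j ∈ range J, x n / 2 ≤ ∑ j ∈ range J, x (n + j * s) := by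
      refine sum_le_sum fun j hj => ?_
      rw [mem_range, hJ] at hj
      have h2 : (j : ℝ) ≤ 1 / (2 * ε) := by
        have h3 : (j : ℝ) ≤ (⌊1 / (2 * ε)⌋₊ : ℝ) := by exact_mod_cast (by omega)
        exact h3.trans (Nat.floor_le (by positivity))
      rw [le_div_iff₀ (by positivity)] at h2
      have h3 := key j (by linarith)
      have h4 : (1 : ℝ) / 2 ≤ 1 - j * ε := by nlinarith
      have h5 : 1 / 2 * x n ≤ (1 - j * ε) * x n := mul_le_mul_of_nonneg_right h4 hx0
      linarith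
    rw [sum_const, card_range, nsmul_eq_mul] at h1
    have h2 := h1.trans (hsum n J)
    have h3 : x n ≤ 4 * ε := by
      have h4 : 1 / (2 * ε) * (x n / 2) ≤ 1 :=
        (mul_le_mul_of_nonneg_right hJ1 (by linarith)).trans h2
      have h5 : 1 / (2 * ε) * (x n / 2) = x n / (4 * ε) := by field_simp; ring
      rw [h5, div_le_one (by positivity)] at h4
      exact h4
    have h6 : √(a / n) ≤ 2 * √(Real.log n / n) := by
      have h7 : (2 : ℝ) * √(Real.log n / n) = √(4 * (Real.log n / n)) := by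
        rw [Real.sqrt_mul (by norm_num), show (4 : ℝ) = 2 ^ 2 by norm_num,
          Real.sqrt_sq (by norm_num)]
      rw [h7]
      refine Real.sqrt_le_sqrt ?_
      rw [← mul_div_assoc]
      refine div_le_div_of_nonneg_right ?_ hn0.le
      linarith
    have h8 : ε ≤ C * (2 * √(Real.log n / n)) := by
      rw [hε]
      exact mul_le_mul_of_nonneg_left h6 hC.le
    nlinarith

theorem sqrt_log_anti {l n : ℕ} (hl : 3 ≤ l) (hn : l ≤ n) :
    √(Real.log n / n) ≤ √(Real.log l / l) := by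
  refine Real.sqrt_le_sqrt ?_
  have h1 : Real.exp 1 ≤ (l : ℝ) := by
    have h1 := Real.exp_one_lt_d9
    have : (3 : ℝ) ≤ l := by exact_mod_cast hl
    linarith
  have h2 : (l : ℝ) ≤ n := by exact_mod_cast hn
  exact Real.log_div_self_antitoneOn h1 (h1.trans h2) h2

theorem sum_inv_sq {l : ℕ} (hl : 2 ≤ l) (k : ℕ) :
    ∑ i ∈ range k, 1 / ((l + i : ℕ) : ℝ) ^ 2 ≤ 1 / ((l : ℝ) - 1) - 1 / ((l : ℝ) + k - 1) := by
  have hl' : (2 : ℝ) ≤ l := by exact_mod_cast hl
  induction k with
  | zero => simp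
  | succ k ih =>
    rw [sum_range_succ]
    have hk : (0 : ℝ) ≤ k := Nat.cast_nonneg _
    have h1 : 1 / ((l + k : ℕ) : ℝ) ^ 2 ≤ 1 / ((l : ℝ) + k - 1) - 1 / ((l : ℝ) + (k + 1 : ℕ) - 1) := by
      push_cast
      rw [div_sub_div _ _ (by linarith) (by linarith), div_le_div_iff₀ (by positivity)
        (mul_pos (by linarith) (by linarith))]
      nlinarith
    linarith

/-- **total variation** -/
theorem tv (s : ℕ) (hs : 1 ≤ s) (D θ : ℝ) (hD : 0 ≤ D) (hθ0 : 0 < θ) (hθ1 : θ < 1) :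
    ∃ (C : ℝ) (N0 : ℕ), 0 < C ∧ 3 ≤ N0 ∧
      ∀ (N : ℕ) (x : ℕ → ℝ), Cx s N D θ 0 x → (∀ M, ∑ n ∈ range M, x n ≤ 1) →
      ∀ l, N0 ≤ l → 2 * N ≤ l → ∀ k, ∑ i ∈ range k, |x (l + i + s) - x (l + i)| ≤
        C * √(Real.log l / l) := by
  obtain ⟨C, δ, N0, hC, hδ, hN0, hCδ, h⟩ := ratio1 s hs D θ hD hθ0 hθ1
  obtain ⟨N1, hN1⟩ := eventually_atTop.1 (log_lin hδ)
  refine ⟨2 * C + 2, max N0 N1, by linarith, hN0.trans (le_max_left _ _), ?_⟩
  intro N x hx hsum l hl hlN k
  have hlN0 : N0 ≤ l := le_trans (le_max_left _ _) hl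
  have hl3 : 3 ≤ l := hN0.trans hlN0
  obtain ⟨E, hE⟩ : ∃ E, E = √(Real.log l / l) := ⟨_, rfl⟩
  have hE0 : 0 ≤ E := by rw [hE]; exact Real.sqrt_nonneg _
  have hpt : ∀ i ∈ range k, |x (l + i + s) - x (l + i)| ≤
      2 * C * E * x (l + i) + 1 / ((l + i : ℕ) : ℝ) ^ 2 := by
    intro i _
    obtain ⟨n, hn⟩ : ∃ n, n = l + i := ⟨_, rfl⟩
    rw [← hn]
    have hn3 : 3 ≤ n := by omega
    have hn0 : (0 : ℝ) < n := by
      have : 0 < n := by omega
      exact_mod_cast this
    have hlog := one_le_log hn3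
    have hx0 := hx.nn n
    have hx1 := hx.nn (n + s)
    by_cases hc : 1 / (n : ℝ) ^ 2 ≤ x n ∨ 1 / (n : ℝ) ^ 2 ≤ x (n + s)
    · have he : Real.exp (-(2 * Real.log n)) = 1 / (n : ℝ) ^ 2 := by
        rw [Real.exp_neg, mul_comm, Real.exp_mul, Real.exp_log hn0, one_div]
        norm_num
      rw [← he] at hc
      have h1 := h N x hx n (by omega) (by omega) (2 * Real.log n) (by linarith) (by
        have := hN1 n (by
          have : N1 ≤ l := le_trans (le_max_right _ _) hl
          omega)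
        linarith) hc
      have h2 : √(2 * Real.log n / n) ≤ 2 * E := by
        have h3 : √(2 * Real.log n / n) ≤ 2 * √(Real.log n / n) := by
          have h7 : (2 : ℝ) * √(Real.log n / n) = √(4 * (Real.log n / n)) := by
            rw [Real.sqrt_mul (by norm_num), show (4 : ℝ) = 2 ^ 2 by norm_num,
              Real.sqrt_sq (by norm_num)]
          rw [h7]
          refine Real.sqrt_le_sqrt ?_
          rw [← mul_div_assoc]
          refine div_le_div_of_nonneg_right ?_ hn0.le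
          linarith
        have h4 := sqrt_log_anti hl3 (show l ≤ n by omega)
        rw [← hE] at h4
        linarith
      have h5 : 0 ≤ 1 / (n : ℝ) ^ 2 := by positivity
      have h6 : C * √(2 * Real.log n / n) * x n ≤ C * (2 * E) * x n :=
        mul_le_mul_of_nonneg_right (mul_le_mul_of_nonneg_left h2 hC.le) hx0
      linarith
    · push Not at hc
      have h1 : |x (n + s) - x n| ≤ 1 / (n : ℝ) ^ 2 := by
        rw [abs_le]
        constructor <;> linarith [hc.1, hc.2]
      have h2 : 0 ≤ 2 * C * E * x n := by positivity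
      linarith
  refine (sum_le_sum hpt).trans ?_
  rw [sum_add_distrib, ← mul_sum]
  have h1 : ∑ i ∈ range k, x (l + i) ≤ 1 := by
    refine le_trans ?_ (hsum (l + k))
    rw [sum_range_add]
    have : 0 ≤ ∑ i ∈ range l, x i := sum_nonneg fun i _ => hx.nn i
    linarith
  have h2 := sum_inv_sq (show 2 ≤ l by omega) k
  have hl0 : (3 : ℝ) ≤ l := by exact_mod_cast hl3
  have h3 : 1 / ((l : ℝ) - 1) ≤ 2 * (1 / l) := by
    rw [← mul_div_assoc, mul_one, div_le_div_iff₀ (by linarith) (by linarith)]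
    linarith
  have h4 : 0 ≤ 1 / ((l : ℝ) + k - 1) := by
    have : (0 : ℝ) ≤ k := Nat.cast_nonneg _
    exact one_div_nonneg.2 (by linarith)
  have h5 : 1 / (l : ℝ) ≤ E := by
    rw [hE]
    refine Real.le_sqrt_of_sq_le ?_
    rw [div_pow, one_pow, sq, div_le_div_iff₀ (by positivity) (by linarith)]
    have := one_le_log hl3
    nlinarith
  have h6 : 2 * C * E * ∑ i ∈ range k, x (l + i) ≤ 2 * C * E * 1 :=
    mul_le_mul_of_nonneg_left h1 (by positivity)
  have e : (2 * C + 2) * E = 2 * C * E * 1 + 2 * E := by ring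
  rw [← hE, e]
  linarith

end Q78.UR
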